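import Mathlib

/-!
# MP_87c685_nt: test sets for pairs of 2-dimensional 2-adic representations (Livne's situation)
-/

namespace Pool.Agent.MP_87c685_nt

/-- the closed subgroup generated by the squares -/
def sqSubgroup (G : Type*) [Group G] [TopologicalSpace G] [IsTopologicalGroup G] : Subgroup G :=
  (Subgroup.closure (Set.range fun g : G => g ^ 2)).topologicalClosure

/-- `ρ : G → GL₂(F)`, `F` a field containing `ℚ_[2]`, is admissible: the trace and the determinant
of `ρ g` are continuous functions `t`, `d` of `g` with values in `ℤ_[2]`, and `t g` is even for all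
`g`. -/
def Adm {G : Type*} [Group G] [TopologicalSpace G] {F : Type*} [Field F] [Algebra ℚ_[2] F]
    (ρ : G →* Matrix.GeneralLinearGroup (Fin 2) F) : Prop :=
  ∃ t d : G → ℤ_[2], Continuous t ∧ Continuous d ∧ (∀ g, (2 : ℤ_[2]) ∣ t g) ∧
    ∀ g, (ρ g : Matrix (Fin 2) (Fin 2) F).trace = algebraMap ℚ_[2] F (t g) ∧
      (ρ g : Matrix (Fin 2) (Fin 2) F).det = algebraMap ℚ_[2] F (d g)

/-- `T` is a test set: two admissible representations of `G` over the same field whose
characteristic polynomials agree on `T` have the same characteristic polynomials on all of `G`. -/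
def IsTest {G : Type*} [Group G] [TopologicalSpace G] (T : Set G) : Prop :=
  ∀ (F : Type) [Field F] [Algebra ℚ_[2] F] (ρ₁ ρ₂ : G →* Matrix.GeneralLinearGroup (Fin 2) F),
    Adm ρ₁ → Adm ρ₂ →
    (∀ t ∈ T, (ρ₁ t : Matrix (Fin 2) (Fin 2) F).charpoly =
      (ρ₂ t : Matrix (Fin 2) (Fin 2) F).charpoly) →
    ∀ g, (ρ₁ g : Matrix (Fin 2) (Fin 2) F).charpoly = (ρ₂ g : Matrix (Fin 2) (Fin 2) F).charpoly

end Pool.Agent.MP_87c685_nt
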