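import Mathlib

/-!
# MP_87c685_nt: derivatives of functions on an elementary abelian 2-group

Functions `V → ZMod 2` on a finite `ZMod 2`-module `V`, their translates and derivatives.
-/

set_option linter.unusedSectionVars false

namespace Pool.Agent.MP_87c685_nt

open Finset

variable {V : Type*} [AddCommGroup V] [Module (ZMod 2) V]

theorem add_self_zmod (x : ZMod 2) : x + x = 0 := CharTwo.add_self_eq_zero x

theorem add_self_mod (a : V) : a + a = 0 := by
  have h : (2 : ZMod 2) • a = 0 := by
    have : (2 : ZMod 2) = 0 := by decide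
    rw [this, zero_smul]
  rwa [two_smul] at h

/-- translation -/
def tr (a : V) : (V → ZMod 2) →ₗ[ZMod 2] (V → ZMod 2) where
  toFun f := fun v => f (v + a)
  map_add' _ _ := rfl
  map_smul' _ _ := rfl

/-- derivative in direction `a` -/
def dx (a : V) : (V → ZMod 2) →ₗ[ZMod 2] (V → ZMod 2) where
  toFun f := fun v => f (v + a) + f v
  map_add' f g := by
    funext v
    simp only [Pi.add_apply]
    ring
  map_smul' c f := by
    funext v
    simp only [Pi.smul_apply, smul_eq_mul, RingHom.id_apply]
    ring

theorem tr_apply (a : V) (f : V → ZMod 2) (v : V) : tr a f v = f (v + a) := rfl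

theorem dx_apply (a : V) (f : V → ZMod 2) (v : V) : dx a f v = f (v + a) + f v := rfl

theorem tr_eq (a : V) (f : V → ZMod 2) : tr a f = dx a f + f := by
  funext v
  rw [Pi.add_apply, tr_apply, dx_apply, add_assoc, add_self_zmod, add_zero]

theorem dx_eq (a : V) (f : V → ZMod 2) : dx a f = tr a f + f := rfl

theorem dx_comm (a b : V) (f : V → ZMod 2) : dx a (dx b f) = dx b (dx a f) := by
  funext v
  simp only [dx_apply]
  rw [add_right_comm v a b]
  ring

theorem tr_dx (a b : V) (f : V → ZMod 2) : tr a (dx b f) = dx b (tr a f) := by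
  funext v
  simp only [dx_apply, tr_apply]
  rw [add_right_comm v a b]

theorem tr_tr (a b : V) (f : V → ZMod 2) : tr a (tr b f) = tr (a + b) f := by
  funext v
  simp only [tr_apply]
  rw [add_assoc]

theorem dx_self (a : V) (f : V → ZMod 2) : dx a (dx a f) = 0 := by
  funext v
  simp only [dx_apply, Pi.zero_apply]
  rw [add_assoc v a a, add_self_mod, add_zero, add_comm (f v), add_self_zmod]

theorem dx_add (a b : V) (f : V → ZMod 2) :
    dx (a + b) f = dx a f + dx b f + dx a (dx b f) := by
  funext v
  simp only [dx_apply, Pi.add_apply]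
  have h1 := add_self_zmod (f (v + a))
  have h2 := add_self_zmod (f (v + b))
  have h3 := add_self_zmod (f v)
  rw [← add_assoc v a b]
  linear_combination -h1 - h2 - h3

/-- all `c`-fold derivatives vanish -/
def Deg : ℕ → (V → ZMod 2) → Prop
  | 0, f => f = 0
  | (c + 1), f => ∀ a, Deg c (dx a f)

theorem Deg.zero' (c : ℕ) : Deg c (0 : V → ZMod 2) := by
  induction c with
  | zero => rfl
  | succ c ih =>
    intro a
    rw [map_zero]
    exact ih

theorem const_of_dx {f : V → ZMod 2} (h : ∀ a, dx a f = 0) (v : V) : f v = f 0 := by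
  have h1 := congrFun (h v) 0
  rw [dx_apply, zero_add, Pi.zero_apply] at h1
  have h2 := add_self_zmod (f 0)
  linear_combination h1 - h2

theorem eq_one_of_ne {x : ZMod 2} (h : x ≠ 0) : x = 1 := by
  revert x
  decide

theorem one_of_dx {f : V → ZMod 2} (h : ∀ a, dx a f = 0) (hf : f ≠ 0) : f = 1 := by
  have h0 : f 0 ≠ 0 := by
    intro h0
    apply hf
    funext v
    rw [const_of_dx h v, h0]
    rfl
  funext v
  rw [const_of_dx h v, eq_one_of_ne h0]
  rfl

section fin
variable [Fintype V] [DecidableEq V]

/-- number of points where `f` does not vanish -/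
def ns (f : V → ZMod 2) : ℕ := (univ.filter fun v => f v ≠ 0).card

theorem ns_dx_le (a : V) (f : V → ZMod 2) : ns (dx a f) ≤ 2 * ns f := by
  classical
  have h1 : (univ.filter fun v => dx a f v ≠ 0) ⊆
      (univ.filter fun v => f v ≠ 0) ∪ (univ.filter fun v => f (v + a) ≠ 0) := by
    intro v hv
    simp only [mem_filter, mem_univ, true_and, mem_union] at hv ⊢
    by_contra hcon
    push Not at hcon
    apply hv
    rw [dx_apply, hcon.1, hcon.2, add_zero]
  have h2 : (univ.filter fun v => f (v + a) ≠ 0).card = ns f := by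
    apply Finset.card_bij (fun v _ => v + a)
    · intro v hv
      simpa using hv
    · intro v _ w _ h
      exact add_right_cancel h
    · intro w hw
      refine ⟨w - a, ?_, by simp⟩
      simpa using hw
  calc ns (dx a f) ≤ _ := card_le_card h1
    _ ≤ _ := card_union_le _ _
    _ = 2 * ns f := by rw [h2]; unfold ns; ring

theorem ns_one_of_dx {f : V → ZMod 2} (h : ∀ a, dx a f = 0) (hf : f ≠ 0) :
    ns f = Fintype.card V := by
  rw [one_of_dx h hf]
  unfold ns
  simp

theorem card_le_of_deg (c : ℕ) : ∀ f : V → ZMod 2, f ≠ 0 → Deg (c + 1) f →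
    Fintype.card V ≤ 2 ^ c * ns f := by
  induction c with
  | zero =>
    intro f hf h
    rw [ns_one_of_dx (fun a => h a) hf]
    simp
  | succ c ih =>
    intro f hf h
    by_cases hd : ∀ a, dx a f = 0
    · rw [ns_one_of_dx hd hf]
      exact Nat.le_mul_of_pos_left _ (by positivity)
    · push Not at hd
      obtain ⟨a, ha⟩ := hd
      have h1 := ih (dx a f) ha (h a)
      have h2 := ns_dx_le a f
      calc Fintype.card V ≤ 2 ^ c * ns (dx a f) := h1
        _ ≤ 2 ^ c * (2 * ns f) := Nat.mul_le_mul_left _ h2
        _ = 2 ^ (c + 1) * ns f := by ring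

end fin

end Pool.Agent.MP_87c685_nt
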