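import Mathlib

/-!
# MP_87c685_nt: test sets for the traces of `n`-dimensional representations, general coefficients
-/

namespace Pool.Agent.MP_87c685_nt

/-- the homomorphisms from `G` to `GL_k(κ)` with open kernel -/
def contHom (G : Type*) [Group G] [TopologicalSpace G] (k : ℕ) (κ : Type*) [Field κ] :
    Set (G →* Matrix.GeneralLinearGroup (Fin k) κ) :=
  {σ | IsOpen (σ.ker : Set G)}

/-- the intersection of the kernels of all homomorphisms in `contHom G k κ` -/
def kerAll (G : Type*) [Group G] [TopologicalSpace G] (k : ℕ) (κ : Type*) [Field κ] :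
    Subgroup G :=
  ⨅ σ ∈ contHom G k κ, σ.ker

/-- `T` is a trace test set in dimension `n` over `O`: if `ρ₁, ρ₂ : G → GL_n(F)` are
representations over a field `F` containing `O` whose traces are continuous functions `t₁`, `t₂`
with values in `O`, and `t₁ = t₂` on `T`, then `t₁ = t₂` on `G`. -/
def TraceTest {G : Type*} [Group G] [TopologicalSpace G] (O : Type) [CommRing O]
    [TopologicalSpace O] (n : ℕ) (T : Set G) : Prop :=
  ∀ (F : Type) [Field F] [Algebra O F], Function.Injective (algebraMap O F) →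
    ∀ (ρ₁ ρ₂ : G →* Matrix.GeneralLinearGroup (Fin n) F) (t₁ t₂ : G → O),
    Continuous t₁ → Continuous t₂ →
    (∀ g, (ρ₁ g : Matrix (Fin n) (Fin n) F).trace = algebraMap O F (t₁ g)) →
    (∀ g, (ρ₂ g : Matrix (Fin n) (Fin n) F).trace = algebraMap O F (t₂ g)) →
    (∀ g ∈ T, t₁ g = t₂ g) → ∀ g, t₁ g = t₂ g

end Pool.Agent.MP_87c685_nt
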