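import Pool.Agent.Lib.MP_87c685_nt.GRep

/-!
# MP_87c685_nt: trace test sets of logarithmic size
-/

set_option linter.unusedSectionVars false

namespace Pool.Agent.MP_87c685_nt

open Finset Module

section coeff
variable {G κ : Type*} [Group G] [TopologicalSpace G] [IsTopologicalGroup G] [Field κ]

instance normal_kerAll (k : ℕ) : (kerAll G k κ).Normal := by
  unfold kerAll
  apply Subgroup.normal_iInf_normal
  intro σ
  apply Subgroup.normal_iInf_normal
  intro _
  infer_instance

theorem kerAll_le {k : ℕ} {σ : G →* Matrix.GeneralLinearGroup (Fin k) κ}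
    (hσ : σ ∈ contHom G k κ) : kerAll G k κ ≤ σ.ker := by
  unfold kerAll
  exact (iInf_le _ σ).trans (iInf_le _ hσ)

theorem isOpen_kerAll (k : ℕ) (hfin : (contHom G k κ).Finite) :
    IsOpen (kerAll G k κ : Set G) := by
  have h1 : (kerAll G k κ : Set G) = ⋂ σ ∈ contHom G k κ, (σ.ker : Set G) := by
    unfold kerAll
    rw [Subgroup.coe_iInf]
    apply Set.iInter_congr
    intro σ
    rw [Subgroup.coe_iInf]
  rw [h1]
  exact hfin.isOpen_biInter (fun σ hσ => hσ)

theorem finiteIndex_kerAll [Finite κ] (k : ℕ) (hfin : (contHom G k κ).Finite) :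
    (kerAll G k κ).FiniteIndex := by
  have hf : Finite (contHom G k κ) := hfin
  have h1 : kerAll G k κ = ⨅ σ : contHom G k κ, (σ : G →* Matrix.GeneralLinearGroup (Fin k) κ).ker := by
    unfold kerAll
    rw [iInf_subtype]
  rw [h1]
  have h2 : ∀ σ : contHom G k κ, ((σ : G →* Matrix.GeneralLinearGroup (Fin k) κ).ker).FiniteIndex := by
    intro σ
    have : Finite (Matrix.GeneralLinearGroup (Fin k) κ) := inferInstance
    exact Subgroup.finiteIndex_ker _
  exact Subgroup.finiteIndex_iInf h2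

/-- the coefficient function of `σ` on the quotient -/
noncomputable def cf (k : ℕ) (σ : G →* Matrix.GeneralLinearGroup (Fin k) κ) (v l : Fin k → κ)
    (x : G ⧸ kerAll G k κ) : κ :=
  ∑ i, ((σ (Quotient.out x) : Matrix (Fin k) (Fin k) κ).mulVec v) i * l i

theorem sigma_out {k : ℕ} {σ : G →* Matrix.GeneralLinearGroup (Fin k) κ}
    (hσ : σ ∈ contHom G k κ) (g : G) :
    σ (Quotient.out (QuotientGroup.mk g : G ⧸ kerAll G k κ)) = σ g := by
  have h1 : (QuotientGroup.mk (Quotient.out (QuotientGroup.mk g : G ⧸ kerAll G k κ)) :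
      G ⧸ kerAll G k κ) = QuotientGroup.mk g := Quotient.out_eq _
  have h2 := QuotientGroup.eq.mp h1
  have h3 := kerAll_le hσ h2
  rw [MonoidHom.mem_ker, map_mul, map_inv] at h3
  exact inv_mul_eq_one.mp h3

theorem cf_mk {k : ℕ} {σ : G →* Matrix.GeneralLinearGroup (Fin k) κ}
    (hσ : σ ∈ contHom G k κ) (v l : Fin k → κ) (g : G) :
    cf k σ v l (QuotientGroup.mk g) =
      ∑ i, ((σ g : Matrix (Fin k) (Fin k) κ).mulVec v) i * l i := by
  unfold cf
  rw [sigma_out hσ]

theorem finrank_cf {k : ℕ} {σ : G →* Matrix.GeneralLinearGroup (Fin k) κ}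
    (hσ : σ ∈ contHom G k κ) (v l : Fin k → κ) :
    finrank κ (Submodule.span κ (Set.range fun a : G ⧸ kerAll G k κ =>
      fun x => cf k σ v l (x * a))) ≤ k := by
  let L : (Fin k → κ) →ₗ[κ] (G ⧸ kerAll G k κ → κ) :=
    { toFun := fun w x => ∑ i, ((σ (Quotient.out x) : Matrix (Fin k) (Fin k) κ).mulVec w) i * l i
      map_add' := by
        intro w w'
        funext x
        rw [Pi.add_apply, ← sum_add_distrib]
        apply sum_congr rfl
        intro i _
        rw [Matrix.mulVec_add, Pi.add_apply, add_mul]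
      map_smul' := by
        intro c w
        funext x
        rw [Pi.smul_apply, RingHom.id_apply, smul_eq_mul, mul_sum]
        apply sum_congr rfl
        intro i _
        rw [Matrix.mulVec_smul, Pi.smul_apply, smul_eq_mul, mul_assoc] }
  have hle : Submodule.span κ (Set.range fun a : G ⧸ kerAll G k κ =>
      fun x => cf k σ v l (x * a)) ≤ LinearMap.range L := by
    rw [Submodule.span_le]
    rintro _ ⟨a, rfl⟩
    obtain ⟨h, rfl⟩ := QuotientGroup.mk_surjective a
    refine ⟨(σ h : Matrix (Fin k) (Fin k) κ).mulVec v, ?_⟩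
    funext x
    obtain ⟨g, rfl⟩ := QuotientGroup.mk_surjective x
    beta_reduce
    rw [← QuotientGroup.mk_mul, cf_mk hσ]
    change ∑ i, ((σ (Quotient.out (QuotientGroup.mk g : G ⧸ kerAll G k κ)) :
      Matrix (Fin k) (Fin k) κ).mulVec ((σ h : Matrix (Fin k) (Fin k) κ).mulVec v)) i * l i = _
    rw [sigma_out hσ, map_mul, Units.val_mul, Matrix.mulVec_mulVec]
  have h1 := Submodule.finrank_mono hle
  have h2 := LinearMap.finrank_range_le L
  rw [Module.finrank_fin_fun] at h2
  exact h1.trans h2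

theorem trace_mul_eq {F : Type*} [Field F] {n : ℕ} (A B : Matrix (Fin n) (Fin n) F) :
    (A * B).trace = ∑ p : Fin n × Fin n, A p.1 p.2 * B p.2 p.1 := by
  rw [Fintype.sum_prod_type]
  rfl

end coeff

section main
variable {G : Type*} [Group G] [TopologicalSpace G] [IsTopologicalGroup G]
variable {O : Type} [CommRing O] [IsDomain O] [IsDiscreteValuationRing O] [TopologicalSpace O]
  [IsTopologicalRing O]

/-- the reduced difference of two traces is a coefficient of a representation of dimension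
`2 * n ^ 2` over the residue field -/
theorem exists_cf (hO : ∀ n : ℕ, IsOpen ((IsLocalRing.maximalIdeal O ^ n : Ideal O) : Set O))
    {ϖ : O} (hϖ : Irreducible ϖ) (n : ℕ) {F : Type} [Field F] [Algebra O F]
    (hinj : Function.Injective (algebraMap O F))
    (ρ₁ ρ₂ : G →* Matrix.GeneralLinearGroup (Fin n) F) (t₁ t₂ : G → O) (hc₁ : Continuous t₁)
    (hc₂ : Continuous t₂)
    (ht₁ : ∀ g, (ρ₁ g : Matrix (Fin n) (Fin n) F).trace = algebraMap O F (t₁ g))
    (ht₂ : ∀ g, (ρ₂ g : Matrix (Fin n) (Fin n) F).trace = algebraMap O F (t₂ g))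
    (m : ℕ) (E : G → O) (hE : ∀ g, t₁ g - t₂ g = ϖ ^ m * E g) (k : ℕ) (hk : k = 2 * n ^ 2) :
    ∃ σ ∈ contHom G k (IsLocalRing.ResidueField O),
      ∃ v l : Fin k → IsLocalRing.ResidueField O,
      ∀ g, IsLocalRing.residue O (E g) =
        ∑ i, ((σ g : Matrix (Fin k) (Fin k) _).mulVec v) i * l i := by
  subst hk
  apply exists_rep (fun g => IsLocalRing.residue O (E g)) (2 * n ^ 2)
  · intro x
    let c : F := (algebraMap O F (ϖ ^ m))⁻¹
    have hc : c * algebraMap O F (ϖ ^ m) = 1 := by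
      apply inv_mul_cancel₀
      intro h0
      exact pow_ne_zero m hϖ.ne_zero (hinj (by rw [h0, map_zero]))
    refine not_indep_red (ι := (Fin n × Fin n) ⊕ (Fin n × Fin n)) (algebraMap O F) hinj
      (IsLocalRing.residue O) (fun h g : G => E (g * h))
      (fun h k => Sum.elim
        (fun ab : Fin n × Fin n => c * (ρ₁ h : Matrix (Fin n) (Fin n) F) ab.2 ab.1)
        (fun ab : Fin n × Fin n => - (c * (ρ₂ h : Matrix (Fin n) (Fin n) F) ab.2 ab.1)) k)
      (fun k g => Sum.elim
        (fun ab : Fin n × Fin n => (ρ₁ g : Matrix (Fin n) (Fin n) F) ab.1 ab.2)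
        (fun ab : Fin n × Fin n => (ρ₂ g : Matrix (Fin n) (Fin n) F) ab.1 ab.2) k)
      ?_ ?_ x
    · intro h g
      have e1 : algebraMap O F (E (g * h)) =
          c * (algebraMap O F (t₁ (g * h)) - algebraMap O F (t₂ (g * h))) := by
        rw [← map_sub, hE, map_mul, ← mul_assoc, hc, one_mul]
      rw [e1, ← ht₁, ← ht₂, map_mul, map_mul, Units.val_mul, Units.val_mul, trace_mul_eq,
        trace_mul_eq, Fintype.sum_sum_type, mul_sub, mul_sum, mul_sum, sub_eq_add_neg,
        ← sum_neg_distrib]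
      congr 1
      · apply sum_congr rfl
        intro p _
        simp only [Sum.elim_inl]
        ring
      · apply sum_congr rfl
        intro p _
        simp only [Sum.elim_inr]
        ring
    · rw [Fintype.card_sum, Fintype.card_prod, Fintype.card_fin]
      nlinarith
  · exact isOpen_residue hO hϖ (fun g => t₁ g - t₂ g) (hc₁.sub hc₂) m E hE

theorem main (hO : ∀ n : ℕ, IsOpen ((IsLocalRing.maximalIdeal O ^ n : Ideal O) : Set O))
    [Finite (IsLocalRing.ResidueField O)] (n : ℕ) (hn : 0 < n)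
    (hfin : (contHom G (2 * n ^ 2) (IsLocalRing.ResidueField O)).Finite) :
    ∃ S : Finset (G ⧸ kerAll G (2 * n ^ 2) (IsLocalRing.ResidueField O)),
      (S.card : ℝ) ≤ 2 * n ^ 2 *
        (Real.log (contHom G (2 * n ^ 2) (IsLocalRing.ResidueField O)).ncard +
          4 * n ^ 2 * Real.log (Nat.card (IsLocalRing.ResidueField O))) + 1 ∧
      ∀ T : Set G, (∀ s ∈ S, ∃ t ∈ T, (QuotientGroup.mk t :
        G ⧸ kerAll G (2 * n ^ 2) (IsLocalRing.ResidueField O)) = s) → TraceTest O n T := by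
  classical
  obtain ⟨κ, hκ⟩ : ∃ κ, κ = IsLocalRing.ResidueField O := ⟨_, rfl⟩
  have hft := Fintype.ofFinite (IsLocalRing.ResidueField O)
  obtain ⟨k, hk⟩ : ∃ k, k = 2 * n ^ 2 := ⟨_, rfl⟩
  have hk1 : 1 ≤ k := by
    rw [hk]
    have : 0 < n ^ 2 := by positivity
    omega
  rw [← hk] at hfin ⊢
  have hidx := finiteIndex_kerAll k hfin
  have hQ : Finite (G ⧸ kerAll G k (IsLocalRing.ResidueField O)) := inferInstance
  have hQt := Fintype.ofFinite (G ⧸ kerAll G k (IsLocalRing.ResidueField O))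
  let P : Finset ((G →* Matrix.GeneralLinearGroup (Fin k) (IsLocalRing.ResidueField O)) ×
      ((Fin k → IsLocalRing.ResidueField O) × (Fin k → IsLocalRing.ResidueField O))) :=
    hfin.toFinset ×ˢ (univ ×ˢ univ)
  let Φ : Finset (G ⧸ kerAll G k (IsLocalRing.ResidueField O) → IsLocalRing.ResidueField O) :=
    (P.image fun p => cf k p.1 p.2.1 p.2.2).filter (fun φ => φ ≠ 0)
  obtain ⟨h, hh⟩ : ∃ h, h = (contHom G k (IsLocalRing.ResidueField O)).ncard := ⟨_, rfl⟩
  obtain ⟨q, hq⟩ : ∃ q, q = Nat.card (IsLocalRing.ResidueField O) := ⟨_, rfl⟩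
  have hone : (1 : G →* Matrix.GeneralLinearGroup (Fin k) (IsLocalRing.ResidueField O)) ∈
      contHom G k (IsLocalRing.ResidueField O) := by
    have h1 : (1 : G →* Matrix.GeneralLinearGroup (Fin k)
        (IsLocalRing.ResidueField O)).ker = ⊤ := by
      ext x
      simp
    change IsOpen _
    rw [h1]
    exact isOpen_univ
  have hh1 : 1 ≤ h := by
    rw [hh]
    exact (Set.ncard_pos hfin).mpr ⟨1, hone⟩
  have hq1 : 1 ≤ q := by
    rw [hq]
    exact Nat.card_pos
  have hcard : Φ.card ≤ h * (q ^ k * q ^ k) := by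
    refine (card_filter_le _ _).trans (card_image_le.trans ?_)
    rw [card_product, card_product, card_univ, Fintype.card_fun, Fintype.card_fin, hh, hq,
      Nat.card_eq_fintype_card, Set.ncard_eq_toFinset_card _ hfin]
  have hC : (Φ.card : ℝ) ≤ (h : ℝ) * ((q : ℝ) ^ k * (q : ℝ) ^ k) := by exact_mod_cast hcard
  have hh1' : (1 : ℝ) ≤ h := by exact_mod_cast hh1
  have hq1' : (1 : ℝ) ≤ q := by exact_mod_cast hq1
  have hC1 : (1 : ℝ) ≤ (h : ℝ) * ((q : ℝ) ^ k * (q : ℝ) ^ k) := by
    have h2 : (1 : ℝ) ≤ (q : ℝ) ^ k := one_le_pow₀ hq1'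
    nlinarith
  have hsupp : ∀ φ ∈ Φ, Fintype.card (G ⧸ kerAll G k (IsLocalRing.ResidueField O)) ≤
      k * nz φ := by
    intro φ hφ
    rw [mem_filter, mem_image] at hφ
    obtain ⟨⟨p, hp, rfl⟩, hne⟩ := hφ
    rw [mem_product] at hp
    have hσ : p.1 ∈ contHom G k (IsLocalRing.ResidueField O) := hfin.mem_toFinset.mp hp.1
    exact card_le_mul_nz _ hne k (finrank_cf hσ _ _)
  obtain ⟨S, hS1, hS2⟩ := exists_hit Φ k hk1 hsupp _ hC1 hC
  refine ⟨S, ?_, ?_⟩
  · refine hS1.trans (le_of_eq ?_)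
    rw [← hh, ← hq, Real.log_mul (by positivity) (by positivity),
      Real.log_mul (by positivity) (by positivity), Real.log_pow, hk]
    push_cast
    ring
  · intro T hT F _ _ hinj ρ₁ ρ₂ t₁ t₂ hc₁ hc₂ ht₁ ht₂ hTt g
    by_contra hne
    obtain ⟨ϖ, hϖ⟩ := IsDiscreteValuationRing.exists_irreducible O
    obtain ⟨m, E, hE, x, hx⟩ := exists_scaleO hϖ (fun g => t₁ g - t₂ g)
      ⟨g, sub_ne_zero.mpr hne⟩
    obtain ⟨σ, hσ, v, l, hσE⟩ := exists_cf hO hϖ n hinj ρ₁ ρ₂ t₁ t₂ hc₁ hc₂ ht₁ ht₂ m E hE k hk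
    have hval : ∀ g, cf k σ v l (QuotientGroup.mk g) = IsLocalRing.residue O (E g) := by
      intro g
      rw [cf_mk hσ, hσE]
    have hmem : cf k σ v l ∈ Φ := by
      rw [mem_filter, mem_image]
      refine ⟨⟨(σ, v, l), ?_, rfl⟩, ?_⟩
      · rw [mem_product, mem_product]
        exact ⟨hfin.mem_toFinset.mpr hσ, mem_univ _, mem_univ _⟩
      · intro h0
        apply hx
        rw [← hval, h0]
        rfl
    obtain ⟨s, hs, hs0⟩ := hS2 _ hmem
    obtain ⟨t, ht, rfl⟩ := hT s hs
    apply hs0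
    rw [hval]
    have h1 := hE t
    rw [hTt t ht, sub_self] at h1
    have h2 : E t = 0 := by
      rcases mul_eq_zero.mp h1.symm with h3 | h3
      · exact absurd h3 (pow_ne_zero _ hϖ.ne_zero)
      · exact h3
    rw [h2, map_zero]

end main

end Pool.Agent.MP_87c685_nt
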