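import Pool.Agent.Lib.MP_87c685_nt.Rank

/-!
# MP_87c685_nt: functions of two variables of finite rank, uncertainty principle, hitting tuples
-/

set_option linter.unusedSectionVars false

namespace Pool.Agent.MP_87c685_nt

open Finset Module

/-- rank does not go up under reduction -/
theorem not_indep_red {O F κ X Y ι : Type*} [CommRing O] [Field F] [Field κ] [Fintype ι]
    (i : O →+* F) (hi : Function.Injective i) (red : O →+* κ) (E : X → Y → O) (A : X → ι → F)
    (B : ι → Y → F) (hE : ∀ x y, i (E x y) = ∑ k, A x k * B k y) {n : ℕ}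
    (hn : Fintype.card ι < n) (x : Fin n → X) :
    ¬ LinearIndependent κ (fun j => fun y => red (E (x j) y)) := by
  intro hli
  obtain ⟨y, hy⟩ := exists_det_ne_zero _ hli
  let M : Matrix (Fin n) (Fin n) O := Matrix.of fun j l => E (x j) (y l)
  have h1 : i M.det = 0 := by
    rw [RingHom.map_det]
    have h2 : i.mapMatrix M = (Matrix.of fun j k => A (x j) k) * (Matrix.of fun k l => B k (y l)) := by
      ext j l
      rw [Matrix.mul_apply]
      exact hE (x j) (y l)
    rw [h2]
    exact det_mul_eq_zero hn _ _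
  have h3 : M.det = 0 := hi (by rw [h1, map_zero])
  apply hy
  have h4 : (Matrix.of fun j l => red (E (x j) (y l)) :
      Matrix (Fin n) (Fin n) κ) = red.mapMatrix M := by
    ext j l
    rfl
  rw [h4, ← RingHom.map_det, h3, map_zero]

/-- a basis of the span out of the family -/
theorem basis_span {K M X : Type*} [Field K] [AddCommGroup M] [Module K M] (v : X → M)
    (k : ℕ) (h : ∀ x : Fin (k + 1) → X, ¬ LinearIndependent K (fun j => v (x j))) :
    ∃ (j : ℕ) (a : Fin j → X), j ≤ k ∧ LinearIndependent K (fun i => v (a i)) ∧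
      Submodule.span K (Set.range fun i => v (a i)) = Submodule.span K (Set.range v) := by
  classical
  obtain ⟨ι, a, ha, hs, hli⟩ := exists_linearIndependent' K v
  have hfin : Finite ι := by
    by_contra hinf
    rw [not_finite_iff_infinite] at hinf
    obtain ⟨f⟩ : Nonempty (Fin (k + 1) ↪ ι) :=
      ⟨(Fin.valEmbedding).trans (Infinite.natEmbedding ι)⟩
    exact h (fun j => a (f j)) (hli.comp f f.injective)
  have hft := Fintype.ofFinite ι
  have hcard : Fintype.card ι ≤ k := by
    by_contra hlt
    push Not at hlt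
    obtain ⟨f⟩ : Nonempty (Fin (k + 1) ↪ ι) := by
      apply Function.Embedding.nonempty_of_card_le
      rw [Fintype.card_fin]
      omega
    exact h (fun j => a (f j)) (hli.comp f f.injective)
  let e : Fin (Fintype.card ι) ≃ ι := (Fintype.equivFin ι).symm
  refine ⟨Fintype.card ι, fun j => a (e j), hcard, hli.comp e e.injective, ?_⟩
  rw [← hs]
  congr 1
  ext x
  constructor
  · rintro ⟨j, rfl⟩
    exact ⟨e j, rfl⟩
  · rintro ⟨l, rfl⟩
    refine ⟨e.symm l, ?_⟩
    simp

/-- number of points where `f` does not vanish -/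
def nz {X κ : Type*} [Fintype X] [Zero κ] [DecidableEq κ] (f : X → κ) : ℕ :=
  (univ.filter fun v => f v ≠ 0).card

/-- uncertainty principle: the support of a function on a finite group is large if its translates
span a space of small dimension -/
theorem card_le_mul_nz {Q κ : Type*} [Group Q] [Fintype Q] [Field κ] [DecidableEq κ] (φ : Q → κ)
    (hφ : φ ≠ 0) (k : ℕ)
    (hk : finrank κ (Submodule.span κ (Set.range fun a : Q => fun x => φ (x * a))) ≤ k) :
    Fintype.card Q ≤ k * nz φ := by
  classical
  obtain ⟨ι, a, ha, hs, hli⟩ := exists_linearIndependent' κ (fun a : Q => fun x => φ (x * a))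
  have hfin : Finite ι := Finite.of_injective a ha
  have hft := Fintype.ofFinite ι
  have hcard : Fintype.card ι ≤ k := by
    rw [← hs, finrank_span_eq_card hli] at hk
    exact hk
  obtain ⟨y, hy⟩ : ∃ y, φ y ≠ 0 := by
    by_contra hcon
    push Not at hcon
    exact hφ (funext hcon)
  have hcov : (univ : Finset Q) ⊆
      (univ : Finset ι).biUnion fun i => univ.filter fun x => φ (x * a i) ≠ 0 := by
    intro x _
    rw [mem_biUnion]
    by_contra hcon
    push Not at hcon
    have h1 : (fun x => φ (x * (x⁻¹ * y)) : Q → κ) = fun x => φ (x * (x⁻¹ * y)) := rfl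
    have h2 : Submodule.span κ (Set.range ((fun a : Q => fun x => φ (x * a)) ∘ a)) ≤
        LinearMap.ker (LinearMap.proj (R := κ) (φ := fun _ : Q => κ) x) := by
      rw [Submodule.span_le]
      rintro _ ⟨i, rfl⟩
      rw [SetLike.mem_coe, LinearMap.mem_ker, LinearMap.proj_apply]
      by_contra hne
      exact hcon i (mem_univ _) (by rw [mem_filter]; exact ⟨mem_univ _, hne⟩)
    have h3 : (fun z => φ (z * (x⁻¹ * y)) : Q → κ) ∈
        Submodule.span κ (Set.range fun a : Q => fun x => φ (x * a)) :=
      Submodule.subset_span ⟨x⁻¹ * y, rfl⟩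
    rw [← hs] at h3
    have h4 := h2 h3
    rw [LinearMap.mem_ker, LinearMap.proj_apply, mul_inv_cancel_left] at h4
    exact hy h4
  have hone : ∀ i, (univ.filter fun x : Q => φ (x * a i) ≠ 0).card = nz φ := by
    intro i
    apply card_bij (fun x _ => x * a i)
    · intro x hx
      simpa using hx
    · intro x _ x' _ h
      exact mul_right_cancel h
    · intro z hz
      refine ⟨z * (a i)⁻¹, ?_, by simp⟩
      simpa using hz
  calc Fintype.card Q = (univ : Finset Q).card := rfl
    _ ≤ _ := card_le_card hcov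
    _ ≤ ∑ i : ι, (univ.filter fun x : Q => φ (x * a i) ≠ 0).card := card_biUnion_le
    _ = Fintype.card ι * nz φ := by
      rw [sum_congr rfl fun i _ => hone i, sum_const, smul_eq_mul, card_univ]
    _ ≤ k * nz φ := Nat.mul_le_mul_right _ hcard

section count
variable {X κ : Type*} [Fintype X] [DecidableEq X] [Zero κ] [DecidableEq κ]

theorem zeros_card' (φ : X → κ) :
    (univ.filter fun v => φ v = 0).card + nz φ = Fintype.card X := by
  unfold nz
  rw [← Finset.card_univ]
  exact Finset.card_filter_add_card_filter_not (s := (univ : Finset X)) (fun v => φ v = 0)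

theorem exists_tuple' (Φ : Finset (X → κ)) (m : ℕ)
    (h : ∑ φ ∈ Φ, (univ.filter fun v => φ v = 0).card ^ m < Fintype.card X ^ m) :
    ∃ s : Fin m → X, ∀ φ ∈ Φ, ∃ j, φ (s j) ≠ 0 := by
  by_contra hcon
  push Not at hcon
  have h1 : (univ : Finset (Fin m → X)) ⊆ Φ.biUnion fun φ =>
      Fintype.piFinset fun _ : Fin m => univ.filter fun v => φ v = 0 := by
    intro s _
    obtain ⟨φ, hφ, hs⟩ := hcon s
    rw [mem_biUnion]
    refine ⟨φ, hφ, ?_⟩
    rw [Fintype.mem_piFinset]
    intro j
    simpa using hs j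
  have h2 := (card_le_card h1).trans card_biUnion_le
  simp only [Fintype.card_piFinset, prod_const, card_univ, Fintype.card_fun, Fintype.card_fin]
    at h2
  omega

/-- a family of functions with large supports has a hitting set of logarithmic size -/
theorem exists_hit [Nonempty X] (Φ : Finset (X → κ)) (k : ℕ) (hk : 1 ≤ k)
    (h : ∀ φ ∈ Φ, Fintype.card X ≤ k * nz φ) (C : ℝ) (hC : 1 ≤ C) (hΦ : (Φ.card : ℝ) ≤ C) :
    ∃ S : Finset X, (S.card : ℝ) ≤ k * Real.log C + 1 ∧ ∀ φ ∈ Φ, ∃ s ∈ S, φ s ≠ 0 := by
  have hk0 : (0 : ℝ) < k := by exact_mod_cast hk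
  obtain ⟨m, hm⟩ : ∃ m : ℕ, m = ⌊(k : ℝ) * Real.log C⌋₊ + 1 := ⟨_, rfl⟩
  have hlog : 0 ≤ (k : ℝ) * Real.log C := mul_nonneg hk0.le (Real.log_nonneg hC)
  have hm1 : (m : ℝ) ≤ k * Real.log C + 1 := by
    rw [hm]
    push_cast
    have := Nat.floor_le hlog
    linarith
  have hm2 : (k : ℝ) * Real.log C < m := by
    rw [hm]
    push_cast
    exact Nat.lt_floor_add_one _
  obtain ⟨q, hq⟩ : ∃ q : ℝ, q = (Fintype.card X : ℝ) := ⟨_, rfl⟩
  have hq0 : 0 < q := by
    rw [hq]
    exact_mod_cast Fintype.card_pos
  have hz : ∀ φ ∈ Φ, ((univ.filter fun v => φ v = 0).card : ℝ) ≤ Real.exp (-(1 / k)) * q := by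
    intro φ hφ
    have h1 : ((univ.filter fun v => φ v = 0).card : ℝ) + nz φ = q := by
      rw [hq]
      exact_mod_cast zeros_card' φ
    have h2 : q ≤ k * (nz φ : ℝ) := by
      rw [hq]
      exact_mod_cast h φ hφ
    have h3 : 1 - 1 / (k : ℝ) ≤ Real.exp (-(1 / k)) := by
      have := Real.add_one_le_exp (-(1 / (k : ℝ)))
      linarith
    have h4 : q / k ≤ nz φ := by
      rw [div_le_iff₀ hk0]
      linarith
    calc ((univ.filter fun v => φ v = 0).card : ℝ) ≤ (1 - 1 / (k : ℝ)) * q := by
          have : (1 - 1 / (k : ℝ)) * q = q - q / k := by ring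
          rw [this]
          linarith
      _ ≤ Real.exp (-(1 / k)) * q := mul_le_mul_of_nonneg_right h3 hq0.le
  have hsum : ((∑ φ ∈ Φ, (univ.filter fun v => φ v = 0).card ^ m : ℕ) : ℝ) < q ^ m := by
    push_cast
    calc ∑ φ ∈ Φ, ((univ.filter fun v => φ v = 0).card : ℝ) ^ m
        ≤ ∑ φ ∈ Φ, (Real.exp (-(1 / k)) * q) ^ m := by
          apply sum_le_sum
          intro φ hφ
          exact pow_le_pow_left₀ (by positivity) (hz φ hφ) m
      _ = Φ.card * (Real.exp (-(1 / k)) * q) ^ m := by rw [sum_const, nsmul_eq_mul]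
      _ ≤ C * (Real.exp (-(1 / k)) * q) ^ m :=
          mul_le_mul_of_nonneg_right hΦ (by positivity)
      _ = (C * Real.exp (-(m / k))) * q ^ m := by
          rw [mul_pow, ← Real.exp_nat_mul]
          have : (m : ℝ) * -(1 / k) = -(m / k) := by ring
          rw [this]
          ring
      _ < 1 * q ^ m := by
          apply mul_lt_mul_of_pos_right _ (by positivity)
          have h5 : Real.log C < m / k := by
            rw [lt_div_iff₀ hk0]
            linarith
          have h6 : C < Real.exp (m / k) := by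
            rw [← Real.log_lt_iff_lt_exp (by linarith)]
            exact h5
          rw [Real.exp_neg, ← div_eq_mul_inv, div_lt_one (Real.exp_pos _)]
          exact h6
      _ = q ^ m := one_mul _
  have hlt : ∑ φ ∈ Φ, (univ.filter fun v => φ v = 0).card ^ m < Fintype.card X ^ m := by
    rw [hq] at hsum
    exact_mod_cast hsum
  obtain ⟨s, hs⟩ := exists_tuple' Φ m hlt
  refine ⟨univ.image s, ?_, ?_⟩
  · have h1 : ((univ.image s).card : ℝ) ≤ m := by
      have : (univ.image s).card ≤ m := card_image_le.trans (by simp)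
      exact_mod_cast this
    exact h1.trans hm1
  · intro φ hφ
    obtain ⟨j, hj⟩ := hs φ hφ
    exact ⟨s j, mem_image_of_mem s (mem_univ j), hj⟩

end count

end Pool.Agent.MP_87c685_nt
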