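import Pool.Agent.Lib.MP_87c685_nt.GDefs
import Pool.Agent.Lib.MP_87c685_nt.GRank

/-!
# MP_87c685_nt: functions of finite rank are coefficients of finite dimensional representations
-/

set_option linter.unusedSectionVars false

namespace Pool.Agent.MP_87c685_nt

open Finset Module Topology

section rep
variable {G κ : Type*} [Group G] [Field κ]

/-- right translation of functions -/
def rt (h : G) : (G → κ) →ₗ[κ] (G → κ) where
  toFun f := fun x => f (x * h)
  map_add' _ _ := rfl
  map_smul' _ _ := rfl

theorem rt_apply (h : G) (f : G → κ) (x : G) : rt h f x = f (x * h) := rfl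

theorem rt_one (f : G → κ) : rt 1 f = f := by
  funext x
  rw [rt_apply, mul_one]

theorem rt_mul (g h : G) (f : G → κ) : rt (g * h) f = rt g (rt h f) := by
  funext x
  rw [rt_apply, rt_apply, rt_apply, mul_assoc]

/-- the span of the right translates -/
def spanR (φ : G → κ) : Submodule κ (G → κ) :=
  Submodule.span κ (Set.range fun a : G => fun g => φ (g * a))

theorem rt_mem (φ : G → κ) (h : G) (f : G → κ) (hf : f ∈ spanR φ) : rt h f ∈ spanR φ := by
  have h1 : spanR φ ≤ (spanR φ).comap (rt h) := by
    conv_lhs => rw [spanR]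
    rw [Submodule.span_le]
    rintro _ ⟨a, rfl⟩
    rw [SetLike.mem_coe, Submodule.mem_comap]
    apply Submodule.subset_span
    refine ⟨h * a, ?_⟩
    funext x
    rw [rt_apply]
    beta_reduce
    rw [mul_assoc]
  exact h1 hf

theorem self_mem (φ : G → κ) : φ ∈ spanR φ := by
  apply Submodule.subset_span
  refine ⟨1, ?_⟩
  funext x
  beta_reduce
  rw [mul_one]

/-- the action on the span of the translates -/
def act (φ : G → κ) (h : G) : spanR φ →ₗ[κ] spanR φ :=
  (rt h).restrict (rt_mem φ h)

theorem act_coe (φ : G → κ) (h : G) (f : spanR φ) : ((act φ h f : spanR φ) : G → κ) = rt h f := rfl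

end rep

section top
variable {G κ : Type*} [Group G] [TopologicalSpace G] [IsTopologicalGroup G] [Field κ]

theorem exists_rep (φ : G → κ) (k : ℕ)
    (hk : ∀ x : Fin (k + 1) → G, ¬ LinearIndependent κ (fun j => fun g => φ (g * x j)))
    (hopen : ∀ x, IsOpen {y | φ y = φ x}) :
    ∃ σ ∈ contHom G k κ, ∃ v l : Fin k → κ,
      ∀ g, φ g = ∑ i, ((σ g : Matrix (Fin k) (Fin k) κ).mulVec v) i * l i := by
  classical
  obtain ⟨j, a, hj, hli, hspan⟩ := basis_span (fun a : G => fun g => φ (g * a)) k hk
  have hspan' : Submodule.span κ (Set.range fun i => (fun g => φ (g * a i) : G → κ)) = spanR φ :=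
    hspan
  have hfd : Module.Finite κ (spanR φ) := by
    rw [← hspan']
    exact FiniteDimensional.span_of_finite κ (Set.finite_range _)
  have hfr : finrank κ (spanR φ) = j := by
    rw [← hspan', finrank_span_eq_card hli, Fintype.card_fin]
  have hW : finrank κ (spanR φ × (Fin (k - j) → κ)) = k := by
    rw [Module.finrank_prod, hfr, Module.finrank_fin_fun]
    omega
  let b : Basis (Fin k) κ (spanR φ × (Fin (k - j) → κ)) := Module.finBasisOfFinrankEq κ _ hW
  let RW : G → (spanR φ × (Fin (k - j) → κ)) →ₗ[κ] (spanR φ × (Fin (k - j) → κ)) := fun h =>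
    (act φ h).prodMap LinearMap.id
  have hR1 : ∀ h, (∀ f ∈ spanR φ, rt h f = f) → RW h = LinearMap.id := by
    intro h hh
    apply LinearMap.ext
    rintro ⟨f, w⟩
    have h1 : act φ h f = f := Subtype.ext (by rw [act_coe]; exact hh f f.2)
    change (act φ h f, w) = (f, w)
    rw [h1]
  have hR2 : ∀ g h, RW (g * h) = RW g * RW h := by
    intro g h
    apply LinearMap.ext
    rintro ⟨f, w⟩
    have h1 : act φ (g * h) f = act φ g (act φ h f) :=
      Subtype.ext (by rw [act_coe, act_coe, act_coe, rt_mul])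
    change (act φ (g * h) f, w) = (act φ g (act φ h f), w)
    rw [h1]
  let F : G →* Matrix (Fin k) (Fin k) κ :=
    { toFun := fun h => LinearMap.toMatrix b b (RW h)
      map_one' := by
        rw [hR1 1 (fun f _ => rt_one f), LinearMap.toMatrix_id]
      map_mul' := by
        intro g h
        rw [hR2, LinearMap.toMatrix_mul] }
  refine ⟨MonoidHom.toHomUnits F, ?_, b.repr (⟨φ, self_mem φ⟩, 0),
    fun i => ((b i).1 : G → κ) 1, ?_⟩
  · -- the kernel is open
    obtain ⟨y, hy⟩ := exists_det_ne_zero _ hli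
    let U : Set G := ⋂ i : Fin j, ⋂ l : Fin j, {h | φ (y l * h * a i) = φ (y l * a i)}
    have hU : IsOpen U := by
      apply isOpen_iInter_of_finite
      intro i
      apply isOpen_iInter_of_finite
      intro l
      have h1 : Continuous fun h : G => y l * h * a i := by fun_prop
      exact (hopen (y l * a i)).preimage h1
    have h1U : (1 : G) ∈ U := by
      simp only [U, Set.mem_iInter]
      intro i l
      change φ (y l * 1 * a i) = φ (y l * a i)
      rw [mul_one]
    have hsep : ∀ d ∈ spanR φ, (∀ l, d (y l) = 0) → d = 0 := by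
      intro d hd hd0
      rw [← hspan', Submodule.mem_span_range_iff_exists_fun] at hd
      obtain ⟨c, hc⟩ := hd
      have h2 : Matrix.vecMul c (Matrix.of fun i l => φ (y l * a i) :
          Matrix (Fin j) (Fin j) κ) = 0 := by
        funext l
        have h3 := hd0 l
        rw [← hc, Finset.sum_apply] at h3
        rw [Matrix.vecMul, dotProduct, Pi.zero_apply, ← h3]
        apply sum_congr rfl
        intro i _
        rfl
      have h4 := Matrix.eq_zero_of_vecMul_eq_zero hy h2
      rw [← hc, h4]
      simp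
    have hUker : U ⊆ ((MonoidHom.toHomUnits F).ker : Set G) := by
      intro h hh
      simp only [U, Set.mem_iInter] at hh
      have h2 : ∀ f ∈ spanR φ, rt h f = f := by
        have h3 : spanR φ ≤ LinearMap.eqLocus (rt (κ := κ) h) LinearMap.id := by
          rw [← hspan', Submodule.span_le]
          rintro _ ⟨i, rfl⟩
          rw [SetLike.mem_coe, LinearMap.mem_eqLocus, LinearMap.id_apply, ← sub_eq_zero]
          have h5 : (fun g => φ (g * a i) : G → κ) ∈ spanR φ :=
            Submodule.subset_span ⟨a i, rfl⟩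
          apply hsep
          · exact (spanR φ).sub_mem (rt_mem φ h _ h5) h5
          · intro l
            have h6 : φ (y l * h * a i) = φ (y l * a i) := hh i l
            rw [Pi.sub_apply, rt_apply]
            beta_reduce
            rw [h6, sub_self]
        intro f hf
        exact h3 hf
      rw [SetLike.mem_coe, MonoidHom.mem_ker]
      apply Units.ext
      rw [MonoidHom.coe_toHomUnits, Units.val_one]
      change LinearMap.toMatrix b b (RW h) = 1
      rw [hR1 h h2, LinearMap.toMatrix_id]
    exact Subgroup.isOpen_of_mem_nhds _ (Filter.mem_of_superset (hU.mem_nhds h1U) hUker)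
  · intro g
    let lam : (spanR φ × (Fin (k - j) → κ)) →ₗ[κ] κ :=
      (LinearMap.proj (R := κ) (φ := fun _ : G => κ) 1).comp
        ((spanR φ).subtype.comp (LinearMap.fst κ _ _))
    have hlam : ∀ w, lam w = ∑ i, b.repr w i * lam (b i) := by
      intro w
      conv_lhs => rw [← b.sum_repr w]
      rw [map_sum]
      apply sum_congr rfl
      intro i _
      rw [map_smul, smul_eq_mul]
    have h1 : φ g = lam (RW g (⟨φ, self_mem φ⟩, 0)) := by
      change φ g = rt g φ 1
      rw [rt_apply, one_mul]
    rw [h1, hlam]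
    apply sum_congr rfl
    intro i _
    have h2 : b.repr (RW g (⟨φ, self_mem φ⟩, 0)) i =
        ((LinearMap.toMatrix b b (RW g)).mulVec (b.repr (⟨φ, self_mem φ⟩, 0))) i := by
      rw [LinearMap.toMatrix_mulVec_repr]
    rw [h2]
    rfl

end top

section dvr
variable {O : Type*} [CommRing O] [IsDomain O] [IsDiscreteValuationRing O]

theorem residue_eq_zero_iff_dvd {ϖ : O} (hϖ : Irreducible ϖ) (x : O) :
    IsLocalRing.residue O x = 0 ↔ ϖ ∣ x := by
  rw [IsLocalRing.residue_eq_zero_iff, hϖ.maximalIdeal_eq, Ideal.mem_span_singleton]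

theorem exists_scaleO {ϖ : O} (hϖ : Irreducible ϖ) {X : Type*} (D : X → O)
    (hD : ∃ x, D x ≠ 0) :
    ∃ (m : ℕ) (E : X → O), (∀ x, D x = ϖ ^ m * E x) ∧
      ∃ x, IsLocalRing.residue O (E x) ≠ 0 := by
  classical
  obtain ⟨x0, hx0⟩ := hD
  have hex : ∃ n : ℕ, ¬ ∀ x, ϖ ^ n ∣ D x := by
    obtain ⟨n, u, hu⟩ := IsDiscreteValuationRing.eq_unit_mul_pow_irreducible hx0 hϖ
    refine ⟨n + 1, fun hall => ?_⟩
    have h1 := hall x0
    rw [hu, pow_succ, mul_comm (u : O)] at h1
    have h2 : ϖ ∣ (u : O) := (mul_dvd_mul_iff_left (pow_ne_zero n hϖ.ne_zero)).mp h1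
    exact hϖ.not_isUnit (isUnit_of_dvd_unit h2 u.isUnit)
  have hspec := Nat.find_spec hex
  have hn0 : Nat.find hex ≠ 0 := by
    intro h0
    apply hspec
    intro x
    rw [h0, pow_zero]
    exact one_dvd _
  obtain ⟨m, hm⟩ := Nat.exists_eq_succ_of_ne_zero hn0
  have hall : ∀ x, ϖ ^ m ∣ D x := by
    have := Nat.find_min hex (m := m) (by omega)
    push Not at this
    exact this
  choose E hE using hall
  refine ⟨m, E, hE, ?_⟩
  by_contra hcon
  push Not at hcon
  apply hspec
  intro x
  rw [hm, Nat.succ_eq_add_one, pow_succ, hE x]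
  exact mul_dvd_mul_left _ ((residue_eq_zero_iff_dvd hϖ _).mp (hcon x))

theorem isOpen_residue {G : Type*} [TopologicalSpace G] [TopologicalSpace O] [IsTopologicalRing O]
    (hO : ∀ n : ℕ, IsOpen ((IsLocalRing.maximalIdeal O ^ n : Ideal O) : Set O))
    {ϖ : O} (hϖ : Irreducible ϖ) (D : G → O) (hD : Continuous D) (m : ℕ) (E : G → O)
    (hE : ∀ x, D x = ϖ ^ m * E x) (x : G) :
    IsOpen {y | IsLocalRing.residue O (E y) = IsLocalRing.residue O (E x)} := by
  have h1 : {y | IsLocalRing.residue O (E y) = IsLocalRing.residue O (E x)} =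
      (fun y => D y - D x) ⁻¹' ((IsLocalRing.maximalIdeal O ^ (m + 1) : Ideal O) : Set O) := by
    ext y
    rw [Set.mem_preimage, SetLike.mem_coe, hϖ.maximalIdeal_eq, Ideal.span_singleton_pow,
      Ideal.mem_span_singleton, hE, hE, ← mul_sub, pow_succ,
      mul_dvd_mul_iff_left (pow_ne_zero m hϖ.ne_zero), ← residue_eq_zero_iff_dvd hϖ, map_sub,
      sub_eq_zero]
    rfl
  rw [h1]
  exact (hO (m + 1)).preimage (hD.sub continuous_const)

end dvr

end Pool.Agent.MP_87c685_nt
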