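import Pool.Agent.Lib.MP_87c685_nt.Mod

/-!
# MP_87c685_nt: a hitting set of linear size

Every nonzero `φ : V → ZMod 2` whose translates span a space of dimension at most 8 is nonzero at a
point of a set of at most `16 * finrank V + 160` points.
-/

set_option linter.unusedSectionVars false

namespace Pool.Agent.MP_87c685_nt

open Finset Module

variable {V : Type*} [AddCommGroup V] [Module (ZMod 2) V]

/-- functions that factor through `k` linear forms -/
def Fac (k : ℕ) (φ : V → ZMod 2) : Prop :=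
  ∃ (L : V →ₗ[ZMod 2] (Fin k → ZMod 2)) (f : (Fin k → ZMod 2) → ZMod 2), φ = fun v => f (L v)

theorem fac_of_finrank [Finite V] {φ : V → ZMod 2} {k : ℕ}
    (h : finrank (ZMod 2) V ≤ finrank (ZMod 2) (St φ) + k) : Fac k φ := by
  classical
  have h1 := Submodule.finrank_quotient_add_finrank (St φ)
  have h2 : finrank (ZMod 2) (V ⧸ St φ) ≤ finrank (ZMod 2) (Fin k → ZMod 2) := by
    rw [Module.finrank_fin_fun]
    omega
  have h3 : ∃ i : (V ⧸ St φ) →ₗ[ZMod 2] (Fin k → ZMod 2), Function.Injective i := by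
    rw [← lift_rank_le_iff_exists_linearMap]
    simp only [← Module.finrank_eq_rank, Cardinal.lift_natCast, Nat.cast_le]
    exact h2
  obtain ⟨i, hi⟩ := h3
  refine ⟨i.comp (St φ).mkQ, fun y => if hy : ∃ v, i ((St φ).mkQ v) = y then φ hy.choose else 0, ?_⟩
  funext v
  have hy : ∃ w, i ((St φ).mkQ w) = (i.comp (St φ).mkQ) v := ⟨v, rfl⟩
  simp only
  rw [dif_pos hy]
  have h4 : (St φ).mkQ hy.choose = (St φ).mkQ v := hi hy.choose_spec
  rw [Submodule.mkQ_apply, Submodule.mkQ_apply, Submodule.Quotient.eq] at h4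
  have h5 : dx (hy.choose - v) φ = 0 := h4
  have h6 := congrFun h5 v
  rw [dx_apply, Pi.zero_apply, add_sub_cancel] at h6
  have h7 := add_self_zmod (φ v)
  linear_combination h7 - h6

theorem ncard_fac [Finite V] (k : ℕ) :
    {φ : V → ZMod 2 | Fac k φ}.ncard ≤ 2 ^ (k * finrank (ZMod 2) V + 2 ^ k) := by
  classical
  have h1 : {φ : V → ZMod 2 | Fac k φ} = Set.range
      (fun p : (V →ₗ[ZMod 2] (Fin k → ZMod 2)) × ((Fin k → ZMod 2) → ZMod 2) =>
        (fun v => p.2 (p.1 v) : V → ZMod 2)) := by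
    ext φ
    constructor
    · rintro ⟨L, f, h⟩
      exact ⟨(L, f), h.symm⟩
    · rintro ⟨⟨L, f⟩, h⟩
      exact ⟨L, f, h.symm⟩
  have hfin : Finite (V →ₗ[ZMod 2] (Fin k → ZMod 2)) := Module.finite_of_finite (ZMod 2)
  rw [h1, ← Nat.card_coe_set_eq]
  refine (Finite.card_range_le _).trans ?_
  rw [Nat.card_prod, Module.natCard_eq_pow_finrank (K := ZMod 2), Module.finrank_linearMap,
    Module.finrank_fin_fun, Nat.card_fun, Nat.card_fun, pow_add]
  simp [mul_comm]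

section count
variable [Fintype V] [DecidableEq V]

theorem zeros_card (φ : V → ZMod 2) :
    (univ.filter fun v => φ v = 0).card + ns φ = Fintype.card V := by
  unfold ns
  rw [← Finset.card_univ]
  exact Finset.card_filter_add_card_filter_not (s := (univ : Finset V)) (fun v => φ v = 0)

theorem exists_tuple (Φ : Finset (V → ZMod 2)) (m : ℕ)
    (h : ∑ φ ∈ Φ, (univ.filter fun v => φ v = 0).card ^ m < Fintype.card V ^ m) :
    ∃ s : Fin m → V, ∀ φ ∈ Φ, ∃ j, φ (s j) ≠ 0 := by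
  by_contra hcon
  push Not at hcon
  have h1 : (univ : Finset (Fin m → V)) ⊆ Φ.biUnion fun φ =>
      Fintype.piFinset fun _ : Fin m => univ.filter fun v => φ v = 0 := by
    intro s _
    obtain ⟨φ, hφ, hs⟩ := hcon s
    rw [mem_biUnion]
    refine ⟨φ, hφ, ?_⟩
    rw [Fintype.mem_piFinset]
    intro j
    simpa using hs j
  have h2 := (card_le_card h1).trans card_biUnion_le
  simp only [Fintype.card_piFinset, prod_const, card_univ, Fintype.card_fun, Fintype.card_fin]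
    at h2
  omega

end count

theorem num_ineq (r : ℕ) :
    (2 : ℝ) ^ (3 * r + 8) * (7 / 8) ^ (16 * r + 160) + 2 ^ (6 * r + 64) * (3 / 4) ^ (16 * r + 160) +
      2 ^ (7 * r + 128) * (1 / 2) ^ (16 * r + 160) < 1 := by
  have h1 : (2 : ℝ) ^ (3 * r + 8) * (7 / 8) ^ (16 * r + 160) ≤ 1 / 4 := by
    have e : (2 : ℝ) ^ (3 * r + 8) * (7 / 8) ^ (16 * r + 160) =
        (2 ^ 3 * (7 / 8) ^ 16) ^ r * (2 ^ 8 * (7 / 8) ^ 160) := by
      rw [mul_pow, ← pow_mul, ← pow_mul, pow_add, pow_add]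
      ring
    rw [e]
    have a1 : ((2 : ℝ) ^ 3 * (7 / 8) ^ 16) ^ r ≤ 1 := pow_le_one₀ (by positivity) (by norm_num)
    have a2 : (2 : ℝ) ^ 8 * (7 / 8) ^ 160 ≤ 1 / 4 := by norm_num
    calc _ ≤ 1 * ((2 : ℝ) ^ 8 * (7 / 8) ^ 160) := mul_le_mul_of_nonneg_right a1 (by positivity)
      _ ≤ 1 / 4 := by rw [one_mul]; exact a2
  have h2 : (2 : ℝ) ^ (6 * r + 64) * (3 / 4) ^ (16 * r + 160) ≤ 1 / 4 := by
    have e : (2 : ℝ) ^ (6 * r + 64) * (3 / 4) ^ (16 * r + 160) =
        (2 ^ 6 * (3 / 4) ^ 16) ^ r * (2 ^ 64 * (3 / 4) ^ 160) := by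
      rw [mul_pow, ← pow_mul, ← pow_mul, pow_add, pow_add]
      ring
    rw [e]
    have a1 : ((2 : ℝ) ^ 6 * (3 / 4) ^ 16) ^ r ≤ 1 := pow_le_one₀ (by positivity) (by norm_num)
    have a2 : (2 : ℝ) ^ 64 * (3 / 4) ^ 160 ≤ 1 / 4 := by norm_num
    calc _ ≤ 1 * ((2 : ℝ) ^ 64 * (3 / 4) ^ 160) := mul_le_mul_of_nonneg_right a1 (by positivity)
      _ ≤ 1 / 4 := by rw [one_mul]; exact a2
  have h3 : (2 : ℝ) ^ (7 * r + 128) * (1 / 2) ^ (16 * r + 160) ≤ 1 / 4 := by
    have e : (2 : ℝ) ^ (7 * r + 128) * (1 / 2) ^ (16 * r + 160) =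
        (2 ^ 7 * (1 / 2) ^ 16) ^ r * (2 ^ 128 * (1 / 2) ^ 160) := by
      rw [mul_pow, ← pow_mul, ← pow_mul, pow_add, pow_add]
      ring
    rw [e]
    have a1 : ((2 : ℝ) ^ 7 * (1 / 2) ^ 16) ^ r ≤ 1 := pow_le_one₀ (by positivity) (by norm_num)
    have a2 : (2 : ℝ) ^ 128 * (1 / 2) ^ 160 ≤ 1 / 4 := by norm_num
    calc _ ≤ 1 * ((2 : ℝ) ^ 128 * (1 / 2) ^ 160) := mul_le_mul_of_nonneg_right a1 (by positivity)
      _ ≤ 1 / 4 := by rw [one_mul]; exact a2
  linarith

theorem core [Finite V] : ∃ S : Finset V, S.card ≤ 16 * finrank (ZMod 2) V + 160 ∧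
    ∀ φ : V → ZMod 2, φ ≠ 0 → finrank (ZMod 2) (Tr φ) ≤ 8 → ∃ s ∈ S, φ s ≠ 0 := by
  classical
  have hfin := Fintype.ofFinite V
  obtain ⟨r, hr⟩ : ∃ r, r = finrank (ZMod 2) V := ⟨_, rfl⟩
  obtain ⟨m, hm⟩ : ∃ m, m = 16 * r + 160 := ⟨_, rfl⟩
  obtain ⟨q, hq⟩ : ∃ q : ℝ, q = (Fintype.card V : ℝ) := ⟨_, rfl⟩
  rw [← hr, ← hm]
  have hq0 : 0 < q := by
    rw [hq]
    exact_mod_cast Fintype.card_pos
  let A : ℕ → ℕ → Finset (V → ZMod 2) := fun k c =>
    univ.filter fun φ => Fac k φ ∧ c * ns φ ≥ Fintype.card V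
  have hA : ∀ k c : ℕ, ((A k c).card : ℝ) ≤ 2 ^ (k * r + 2 ^ k) := by
    intro k c
    have h1 : (A k c).card ≤ 2 ^ (k * r + 2 ^ k) := by
      rw [hr]
      refine le_trans ?_ (ncard_fac (V := V) k)
      rw [← Set.ncard_coe_finset]
      apply Set.ncard_le_ncard
      · intro φ hφ
        simp only [A, coe_filter, mem_univ, true_and, Set.mem_ofPred_eq] at hφ
        exact hφ.1
      · exact Set.toFinite _
    exact_mod_cast h1
  have hz : ∀ k c : ℕ, 0 < c → ∀ φ ∈ A k c,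
      ((univ.filter fun v => φ v = 0).card : ℝ) ≤ ((c : ℝ) - 1) / c * q := by
    intro k c hc φ hφ
    simp only [A, mem_filter, mem_univ, true_and] at hφ
    have h1 := zeros_card φ
    have h2 : ((univ.filter fun v => φ v = 0).card : ℝ) + ns φ = q := by
      rw [hq]
      exact_mod_cast h1
    have h3 : q ≤ c * (ns φ : ℝ) := by
      rw [hq]
      exact_mod_cast hφ.2
    have hc' : (0 : ℝ) < c := by exact_mod_cast hc
    rw [div_mul_eq_mul_div, le_div_iff₀ hc']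
    nlinarith
  have hsum : ∀ k c : ℕ, 0 < c → ∑ φ ∈ A k c, ((univ.filter fun v => φ v = 0).card : ℝ) ^ m ≤
      2 ^ (k * r + 2 ^ k) * (((c : ℝ) - 1) / c) ^ m * q ^ m := by
    intro k c hc
    have hc' : (1 : ℝ) ≤ c := by exact_mod_cast hc
    calc _ ≤ ∑ φ ∈ A k c, (((c : ℝ) - 1) / c * q) ^ m := by
          apply sum_le_sum
          intro φ hφ
          exact pow_le_pow_left₀ (by positivity) (hz k c hc φ hφ) m
      _ = (A k c).card * (((c : ℝ) - 1) / c * q) ^ m := by rw [sum_const, nsmul_eq_mul]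
      _ ≤ 2 ^ (k * r + 2 ^ k) * (((c : ℝ) - 1) / c * q) ^ m := by
          apply mul_le_mul_of_nonneg_right (hA k c)
          have : (0 : ℝ) ≤ ((c : ℝ) - 1) / c := div_nonneg (by linarith) (by linarith)
          positivity
      _ = _ := by rw [mul_pow, mul_assoc]
  have htot : ∑ φ ∈ (A 3 8 ∪ A 6 4) ∪ A 7 2, (univ.filter fun v => φ v = 0).card ^ m <
      Fintype.card V ^ m := by
    have h1 : ((∑ φ ∈ (A 3 8 ∪ A 6 4) ∪ A 7 2,
        (univ.filter fun v => φ v = 0).card ^ m : ℕ) : ℝ) < q ^ m := by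
      push_cast
      have hu : ∀ B C : Finset (V → ZMod 2),
          ∑ φ ∈ B ∪ C, ((univ.filter fun v => φ v = 0).card : ℝ) ^ m ≤
          ∑ φ ∈ B, ((univ.filter fun v => φ v = 0).card : ℝ) ^ m +
          ∑ φ ∈ C, ((univ.filter fun v => φ v = 0).card : ℝ) ^ m := by
        intro B C
        rw [← sum_union_inter]
        have : 0 ≤ ∑ φ ∈ B ∩ C, ((univ.filter fun v => φ v = 0).card : ℝ) ^ m :=
          sum_nonneg fun φ _ => by positivity
        linarith
      have h2 := hu (A 3 8 ∪ A 6 4) (A 7 2)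
      have h3 := hu (A 3 8) (A 6 4)
      have h4 := hsum 3 8 (by norm_num)
      have h5 := hsum 6 4 (by norm_num)
      have h6 := hsum 7 2 (by norm_num)
      have h7 := num_ineq r
      rw [← hm] at h7
      norm_num at h4 h5 h6
      have hqm : 0 < q ^ m := by positivity
      have h8 : (2 : ℝ) ^ (3 * r + 8) * (7 / 8) ^ m * q ^ m +
          2 ^ (6 * r + 64) * (3 / 4) ^ m * q ^ m +
          2 ^ (7 * r + 128) * (1 / 2) ^ m * q ^ m < q ^ m := by
        rw [← add_mul, ← add_mul]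
        calc _ < 1 * q ^ m := mul_lt_mul_of_pos_right h7 hqm
          _ = q ^ m := one_mul _
      linarith
    rw [hq] at h1
    exact_mod_cast h1
  obtain ⟨s, hs⟩ := exists_tuple _ m htot
  refine ⟨univ.image s, ?_, ?_⟩
  · exact card_image_le.trans (by simp)
  · intro φ hφ h8
    have hmem : φ ∈ (A 3 8 ∪ A 6 4) ∪ A 7 2 := by
      rw [mem_union, mem_union]
      by_cases h7 : finrank (ZMod 2) (St φ) + 7 ≤ finrank (ZMod 2) V
      · right
        simp only [A, mem_filter, mem_univ, true_and]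
        exact ⟨fac_of_finrank (finrank_V_le h8 hφ), dens_two h8 hφ h7⟩
      · left
        by_cases h4 : finrank (ZMod 2) (St φ) + 4 ≤ finrank (ZMod 2) V
        · right
          simp only [A, mem_filter, mem_univ, true_and]
          exact ⟨fac_of_finrank (by omega), dens_four h8 hφ h4⟩
        · left
          simp only [A, mem_filter, mem_univ, true_and]
          exact ⟨fac_of_finrank (by omega), dens_eight h8 hφ⟩
    obtain ⟨j, hj⟩ := hs φ hmem
    exact ⟨s j, mem_image_of_mem s (mem_univ j), hj⟩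

end Pool.Agent.MP_87c685_nt
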