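import Mathlib

/-!
# MP_87c685_nt: reduction modulo `p` of functions of two variables of finite rank
-/

set_option linter.unusedSectionVars false

namespace Pool.Agent.MP_87c685_nt

open Finset Module

/-- linearly independent functions are separated by points -/
theorem exists_det_ne_zero {K Y : Type*} [Field K] {n : ℕ} (f : Fin n → Y → K)
    (hf : LinearIndependent K f) :
    ∃ y : Fin n → Y, (Matrix.of fun i j => f i (y j) : Matrix (Fin n) (Fin n) K).det ≠ 0 := by
  classical
  let e : Y → (Fin n → K) := fun y i => f i y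
  have hspan : Submodule.span K (Set.range e) = ⊤ := by
    by_contra hne
    obtain ⟨g, hg, hle⟩ := Submodule.exists_le_ker_of_lt_top _ (lt_top_iff_ne_top.mpr hne)
    apply hg
    have hz : ∀ y, g (e y) = 0 := fun y => hle (Submodule.subset_span ⟨y, rfl⟩)
    have h1 : ∑ i, g (Pi.single i 1) • f i = 0 := by
      funext y
      have h2 := hz y
      rw [LinearMap.pi_apply_eq_sum_univ g (e y)] at h2
      rw [Finset.sum_apply, Pi.zero_apply, ← h2]
      apply Finset.sum_congr rfl
      intro i _
      rw [Pi.smul_apply, smul_eq_mul, smul_eq_mul, mul_comm]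
      congr 2
      funext j
      rw [Pi.single_apply]
      congr 1
      exact propext ⟨fun h => h.symm, fun h => h.symm⟩
    have h3 := Fintype.linearIndependent_iff.mp hf _ h1
    apply LinearMap.pi_ext'
    intro i
    apply LinearMap.ext_ring
    simpa using h3 i
  obtain ⟨κ, a, ha, hs, hli⟩ := exists_linearIndependent' K e
  rw [hspan] at hs
  let b : Basis κ K (Fin n → K) := Basis.mk hli (by rw [hs])
  have hfin : Finite κ := Module.Finite.finite_basis b
  have hft := Fintype.ofFinite κ
  have hcard : Fintype.card κ = n := by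
    have h1 := Module.finrank_eq_card_basis b
    rw [Module.finrank_fin_fun] at h1
    exact h1.symm
  let eq : Fin n ≃ κ := (Fintype.equivFinOfCardEq hcard).symm
  refine ⟨fun j => a (eq j), ?_⟩
  have hli2 : LinearIndependent K (fun j => (e ∘ a) (eq j)) := hli.comp _ eq.injective
  have h4 : IsUnit (Matrix.of fun j i => f i (a (eq j)) : Matrix (Fin n) (Fin n) K) := by
    rw [← Matrix.linearIndependent_rows_iff_isUnit]
    exact hli2
  rw [Matrix.isUnit_iff_isUnit_det] at h4
  have h5 : (Matrix.of fun i j => f i (a (eq j)) : Matrix (Fin n) (Fin n) K) =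
      (Matrix.of fun j i => f i (a (eq j)) : Matrix (Fin n) (Fin n) K).transpose := by
    ext i j
    rfl
  rw [h5, Matrix.det_transpose]
  exact h4.ne_zero

theorem det_mul_eq_zero {F ι : Type*} [Field F] [Fintype ι] {n : ℕ} (h : Fintype.card ι < n)
    (A : Matrix (Fin n) ι F) (B : Matrix ι (Fin n) F) : (A * B).det = 0 := by
  classical
  by_contra hne
  have h1 : IsUnit (A * B) := (Matrix.isUnit_iff_isUnit_det _).mpr (isUnit_iff_ne_zero.mpr hne)
  have h2 := Matrix.rank_of_isUnit _ h1
  have h3 := Matrix.rank_mul_le_left A B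
  have h4 := Matrix.rank_le_card_width A
  rw [Fintype.card_fin] at h2
  omega

/-- rank does not go up under reduction -/
theorem not_indep_mod {p : ℕ} [Fact p.Prime] {F X Y ι : Type*} [Field F] [Fintype ι]
    (i : ℤ_[p] →+* F) (hi : Function.Injective i) (E : X → Y → ℤ_[p]) (A : X → ι → F)
    (B : ι → Y → F) (hE : ∀ x y, i (E x y) = ∑ k, A x k * B k y) {n : ℕ}
    (hn : Fintype.card ι < n) (x : Fin n → X) :
    ¬ LinearIndependent (ZMod p) (fun j => fun y => PadicInt.toZMod (E (x j) y)) := by
  intro hli
  obtain ⟨y, hy⟩ := exists_det_ne_zero _ hli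
  let M : Matrix (Fin n) (Fin n) ℤ_[p] := Matrix.of fun j l => E (x j) (y l)
  have h1 : i M.det = 0 := by
    rw [RingHom.map_det]
    have h2 : i.mapMatrix M = (Matrix.of fun j k => A (x j) k) * (Matrix.of fun k l => B k (y l)) := by
      ext j l
      rw [Matrix.mul_apply]
      exact hE (x j) (y l)
    rw [h2]
    exact det_mul_eq_zero hn _ _
  have h3 : M.det = 0 := hi (by rw [h1, map_zero])
  apply hy
  have h4 : (Matrix.of fun j l => PadicInt.toZMod (E (x j) (y l)) :
      Matrix (Fin n) (Fin n) (ZMod p)) = (PadicInt.toZMod (p := p)).mapMatrix M := by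
    ext j l
    rfl
  rw [h4, ← RingHom.map_det, h3, map_zero]

theorem finrank_span_le {K M X : Type*} [Field K] [AddCommGroup M] [Module K M] (v : X → M)
    (k : ℕ) (h : ∀ x : Fin (k + 1) → X, ¬ LinearIndependent K (fun j => v (x j))) :
    finrank K (Submodule.span K (Set.range v)) ≤ k := by
  classical
  obtain ⟨κ, a, ha, hs, hli⟩ := exists_linearIndependent' K v
  rw [← hs]
  have hfin : Finite κ := by
    by_contra hinf
    rw [not_finite_iff_infinite] at hinf
    obtain ⟨f⟩ : Nonempty (Fin (k + 1) ↪ κ) :=
      ⟨(Fin.valEmbedding).trans (Infinite.natEmbedding κ)⟩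
    exact h (fun j => a (f j)) (hli.comp f f.injective)
  have hft := Fintype.ofFinite κ
  rw [finrank_span_eq_card hli]
  by_contra hlt
  push Not at hlt
  obtain ⟨f⟩ : Nonempty (Fin (k + 1) ↪ κ) := by
    apply Function.Embedding.nonempty_of_card_le
    rw [Fintype.card_fin]
    omega
  exact h (fun j => a (f j)) (hli.comp f f.injective)

end Pool.Agent.MP_87c685_nt
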