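import Pool.Agent.Lib.MP_87c685_nt.Defs
import Pool.Agent.Lib.MP_87c685_nt.Hit
import Pool.Agent.Lib.MP_87c685_nt.Rank

/-!
# MP_87c685_nt: from 2-adic functions on a group to functions on the quotient by the squares
-/

set_option linter.unusedSectionVars false

namespace Pool.Agent.MP_87c685_nt

open Finset Module

variable {G : Type*} [Group G] [TopologicalSpace G] [IsTopologicalGroup G]

theorem sq_mem (g : G) : g ^ 2 ∈ sqSubgroup G :=
  Subgroup.le_topologicalClosure _ (Subgroup.subset_closure ⟨g, rfl⟩)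

instance normal_closure_sq : (Subgroup.closure (Set.range fun g : G => g ^ 2)).Normal := by
  constructor
  intro n hn g
  have h : Subgroup.closure (Set.range fun g : G => g ^ 2) ≤
      (Subgroup.closure (Set.range fun g : G => g ^ 2)).comap (MulAut.conj g).toMonoidHom := by
    rw [Subgroup.closure_le]
    rintro _ ⟨x, rfl⟩
    simp only [Subgroup.coe_comap, Set.mem_preimage, SetLike.mem_coe]
    apply Subgroup.subset_closure
    exact ⟨MulAut.conj g x, (map_pow (MulAut.conj g) x 2).symm⟩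
  exact h hn

instance normal_sq : (sqSubgroup G).Normal := by
  unfold sqSubgroup
  exact Subgroup.is_normal_topologicalClosure _

/-- the quotient by the squares, written additively -/
def Q (G : Type*) [Group G] [TopologicalSpace G] [IsTopologicalGroup G] : Type _ :=
  Additive (G ⧸ sqSubgroup G)

theorem quot_sq (x : G ⧸ sqSubgroup G) : x * x = 1 := by
  obtain ⟨g, rfl⟩ := QuotientGroup.mk_surjective x
  rw [← QuotientGroup.mk_mul, QuotientGroup.eq_one_iff, ← pow_two]
  exact sq_mem g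

theorem quot_comm (x y : G ⧸ sqSubgroup G) : x * y = y * x := by
  have h1 := quot_sq (x * y)
  have h2 : (x * y)⁻¹ = x * y := inv_eq_of_mul_eq_one_right h1
  have h3 : x⁻¹ = x := inv_eq_of_mul_eq_one_right (quot_sq x)
  have h4 : y⁻¹ = y := inv_eq_of_mul_eq_one_right (quot_sq y)
  rw [mul_inv_rev, h3, h4] at h2
  exact h2.symm

instance : AddCommGroup (Q G) :=
  { (inferInstance : AddGroup (Additive (G ⧸ sqSubgroup G))) with
    add_comm := fun x y => quot_comm (G := G) x y }

instance : Module (ZMod 2) (Q G) := AddCommGroup.zmodModule (n := 2) (by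
  intro x
  rw [two_nsmul]
  exact quot_sq (G := G) x)

/-- the projection -/
def pr (g : G) : Q G := Additive.ofMul (QuotientGroup.mk g)

theorem pr_mul (g h : G) : pr (g * h) = pr g + pr h := rfl

theorem pr_surj : Function.Surjective (pr : G → Q G) := by
  intro x
  obtain ⟨g, hg⟩ := QuotientGroup.mk_surjective (s := sqSubgroup G) x
  exact ⟨g, hg⟩

theorem pr_eq_iff {g h : G} : pr g = pr h ↔ g⁻¹ * h ∈ sqSubgroup G := by
  have h1 : (pr g = pr h) ↔ ((QuotientGroup.mk g : G ⧸ sqSubgroup G) = QuotientGroup.mk h) :=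
    Iff.rfl
  rw [h1, QuotientGroup.eq]

theorem toZMod_eq_zero_iff {p : ℕ} [Fact p.Prime] (x : ℤ_[p]) :
    PadicInt.toZMod x = 0 ↔ (p : ℤ_[p]) ∣ x := by
  rw [← RingHom.mem_ker, PadicInt.ker_toZMod, PadicInt.maximalIdeal_eq_span_p,
    Ideal.mem_span_singleton]

theorem norm_le_iff_dvd {p : ℕ} [Fact p.Prime] (x : ℤ_[p]) (n : ℕ) :
    ‖x‖ ≤ (p : ℝ) ^ (-n : ℤ) ↔ (p : ℤ_[p]) ^ n ∣ x := by
  rw [PadicInt.norm_le_pow_iff_mem_span_pow, Ideal.mem_span_singleton]

theorem isClosed_dvd {p : ℕ} [Fact p.Prime] (n : ℕ) : IsClosed {x : ℤ_[p] | (p : ℤ_[p]) ^ n ∣ x} := by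
  have h : {x : ℤ_[p] | (p : ℤ_[p]) ^ n ∣ x} = {x : ℤ_[p] | ‖x‖ ≤ (p : ℝ) ^ (-n : ℤ)} := by
    ext x
    exact (norm_le_iff_dvd x n).symm
  rw [h]
  exact isClosed_le continuous_norm continuous_const

/-- extraction of the largest power of `p` -/
theorem exists_scale {p : ℕ} [Fact p.Prime] {X : Type*} (D : X → ℤ_[p]) (hD : ∃ x, D x ≠ 0) :
    ∃ (m : ℕ) (E : X → ℤ_[p]), (∀ x, D x = (p : ℤ_[p]) ^ m * E x) ∧
      ∃ x, PadicInt.toZMod (E x) ≠ 0 := by
  classical
  obtain ⟨x0, hx0⟩ := hD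
  have hex : ∃ n : ℕ, ¬ ∀ x, (p : ℤ_[p]) ^ n ∣ D x := by
    obtain ⟨n, hn⟩ := PadicInt.exists_pow_neg_lt p (norm_pos_iff.mpr hx0)
    refine ⟨n, fun hall => ?_⟩
    have h1 := hall x0
    rw [← norm_le_iff_dvd] at h1
    linarith
  have hspec := Nat.find_spec hex
  have hn0 : Nat.find hex ≠ 0 := by
    intro h0
    apply hspec
    intro x
    rw [h0, pow_zero]
    exact one_dvd _
  obtain ⟨m, hm⟩ := Nat.exists_eq_succ_of_ne_zero hn0
  have hall : ∀ x, (p : ℤ_[p]) ^ m ∣ D x := by
    have := Nat.find_min hex (m := m) (by omega)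
    push Not at this
    exact this
  choose E hE using hall
  refine ⟨m, E, hE, ?_⟩
  by_contra hcon
  push Not at hcon
  apply hspec
  intro x
  rw [hm, Nat.succ_eq_add_one, pow_succ, hE x]
  exact mul_dvd_mul_left _ ((toZMod_eq_zero_iff _).mp (hcon x))

/-- the reduced function descends to the quotient by the squares -/
theorem descend (D : G → ℤ_[2]) (hD : Continuous D) (m : ℕ) (E : G → ℤ_[2])
    (hE : ∀ g, D g = 2 ^ m * E g)
    (hsq : ∀ g h, PadicInt.toZMod (E (g * h ^ 2)) = PadicInt.toZMod (E g)) :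
    ∃ φ : Q G → ZMod 2, ∀ g, φ (pr g) = PadicInt.toZMod (E g) := by
  have hiff : ∀ g h, PadicInt.toZMod (E g) = PadicInt.toZMod (E h) ↔
      ((2 : ℕ) : ℤ_[2]) ^ (m + 1) ∣ D g - D h := by
    intro g h
    rw [← sub_eq_zero, ← map_sub, toZMod_eq_zero_iff, hE, hE, ← mul_sub, pow_succ]
    push_cast
    constructor
    · intro hd
      exact mul_dvd_mul_left _ hd
    · intro hd
      have h2 : (2 : ℤ_[2]) ^ m ≠ 0 := pow_ne_zero _ (by norm_num)
      exact (mul_dvd_mul_iff_left h2).mp hd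
  let H : Subgroup G :=
    { carrier := {h | ∀ g, PadicInt.toZMod (E (g * h)) = PadicInt.toZMod (E g)}
      mul_mem' := by
        intro a b ha hb g
        rw [← mul_assoc, hb, ha]
      one_mem' := by
        intro g
        rw [mul_one]
      inv_mem' := by
        intro a ha g
        have := ha (g * a⁻¹)
        rw [inv_mul_cancel_right] at this
        exact this.symm }
  have hHmem : ∀ h, h ∈ H ↔ ∀ g, PadicInt.toZMod (E (g * h)) = PadicInt.toZMod (E g) :=
    fun _ => Iff.rfl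
  have hclosed : IsClosed (H : Set G) := by
    have h1 : (H : Set G) = ⋂ g : G, (fun h => D (g * h) - D g) ⁻¹'
        {x : ℤ_[2] | ((2 : ℕ) : ℤ_[2]) ^ (m + 1) ∣ x} := by
      ext h
      rw [SetLike.mem_coe, hHmem, Set.mem_iInter]
      apply forall_congr'
      intro g
      rw [hiff]
      rfl
    rw [h1]
    apply isClosed_iInter
    intro g
    apply (isClosed_dvd (m + 1)).preimage
    exact (hD.comp (continuous_const.mul continuous_id)).sub continuous_const
  have hle : sqSubgroup G ≤ H := by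
    unfold sqSubgroup
    apply Subgroup.topologicalClosure_minimal _ _ hclosed
    rw [Subgroup.closure_le]
    rintro _ ⟨x, rfl⟩
    exact fun g => hsq g x
  have hdesc : ∀ g h, pr g = pr h → PadicInt.toZMod (E g) = PadicInt.toZMod (E h) := by
    intro g h hgh
    have h1 := hle (pr_eq_iff.mp hgh)
    have h2 := h1 g
    rw [mul_inv_cancel_left] at h2
    exact h2.symm
  choose s hs using (pr_surj : Function.Surjective (pr : G → Q G))
  exact ⟨fun x => PadicInt.toZMod (E (s x)), fun g => hdesc _ _ (hs (pr g))⟩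

/-- the span of the translates of the reduced function -/
theorem finrank_Tr_le {F ι : Type*} [Field F] [Fintype ι] (i : ℤ_[2] →+* F)
    (hi : Function.Injective i) (E : G → ℤ_[2]) (A : G → ι → F) (B : ι → G → F)
    (hE : ∀ g h, i (E (g * h)) = ∑ k, A h k * B k g) (hcard : Fintype.card ι = 8)
    (φ : Q G → ZMod 2) (hφ : ∀ g, φ (pr g) = PadicInt.toZMod (E g)) :
    finrank (ZMod 2) (Tr φ) ≤ 8 := by
  apply finrank_span_le
  intro x hli
  choose s hs using (pr_surj : Function.Surjective (pr : G → Q G))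
  apply not_indep_mod i hi (fun h g => E (g * h)) A B (fun h g => hE g h) (n := 9) (by omega)
    (fun j => s (x j))
  have h1 := hli.map' (LinearMap.funLeft (ZMod 2) (ZMod 2) (pr : G → Q G)) (by
    rw [LinearMap.ker_eq_bot]
    exact LinearMap.funLeft_injective_of_surjective _ _ _ pr_surj)
  have h2 : ((LinearMap.funLeft (ZMod 2) (ZMod 2) (pr : G → Q G)) ∘ fun j => tr (x j) φ) =
      fun j g => PadicInt.toZMod (E (g * s (x j))) := by
    funext j g
    rw [Function.comp_apply, LinearMap.funLeft_apply, tr_apply, ← hφ, pr_mul, hs]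
  rw [h2] at h1
  exact h1

/-- functions with two-dimensional span of translates -/
theorem finrank_Tr_add (φ : Q G → ZMod 2) (h : ∀ x y, φ (x + y) = φ x + φ y) :
    finrank (ZMod 2) (Tr φ) ≤ 8 := by
  classical
  have h1 : Tr φ ≤ Submodule.span (ZMod 2)
      (((({φ, 1} : Finset (Q G → ZMod 2))) : Set (Q G → ZMod 2))) := by
    rw [Tr, Submodule.span_le]
    rintro _ ⟨a, rfl⟩
    have h2 : tr a φ = φ + φ a • (1 : Q G → ZMod 2) := by
      funext v
      rw [tr_apply, h, Pi.add_apply, Pi.smul_apply, Pi.one_apply, smul_eq_mul, mul_one]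
    change tr a φ ∈ _
    rw [h2]
    apply Submodule.add_mem
    · exact Submodule.subset_span (by simp)
    · exact Submodule.smul_mem _ _ (Submodule.subset_span (by simp))
  have h2 := Submodule.finrank_mono h1
  have h3 : finrank (ZMod 2) (Submodule.span (ZMod 2)
      (((({φ, 1} : Finset (Q G → ZMod 2))) : Set (Q G → ZMod 2)))) ≤ _ :=
    finrank_span_finset_le_card (R := ZMod 2) ({φ, 1} : Finset (Q G → ZMod 2))
  have h4 : ({φ, 1} : Finset (Q G → ZMod 2)).card ≤ 2 := Finset.card_le_two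
  omega

/-- a function vanishing on a test set vanishes -/
theorem vanish (S : Finset (Q G)) (hS : ∀ φ : Q G → ZMod 2, φ ≠ 0 →
      finrank (ZMod 2) (Tr φ) ≤ 8 → ∃ s ∈ S, φ s ≠ 0)
    (T : Set G) (hT : ∀ s ∈ S, ∃ t ∈ T, pr t = s) (D : G → ℤ_[2]) (hD : Continuous D)
    (hD0 : ∀ t ∈ T, D t = 0)
    (key : ∀ (m : ℕ) (E : G → ℤ_[2]), (∀ g, D g = 2 ^ m * E g) →
      (∀ g h, PadicInt.toZMod (E (g * h ^ 2)) = PadicInt.toZMod (E g)) ∧
      ∀ φ : Q G → ZMod 2, (∀ g, φ (pr g) = PadicInt.toZMod (E g)) →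
        finrank (ZMod 2) (Tr φ) ≤ 8) (g : G) : D g = 0 := by
  by_contra hne
  obtain ⟨m, E, hE, x, hx⟩ := exists_scale D ⟨g, hne⟩
  push_cast at hE
  obtain ⟨k1, k2⟩ := key m E hE
  obtain ⟨φ, hφ⟩ := descend D hD m E hE k1
  have hφ0 : φ ≠ 0 := by
    rintro rfl
    exact hx (hφ x).symm
  obtain ⟨s, hs, hs0⟩ := hS φ hφ0 (k2 φ hφ)
  obtain ⟨t, ht, rfl⟩ := hT s hs
  apply hs0
  rw [hφ]
  have h1 := hD0 t ht
  rw [hE] at h1
  have h2 : E t = 0 := by
    rcases mul_eq_zero.mp h1 with h | h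
    · exact absurd h (pow_ne_zero _ (by norm_num))
    · exact h
  rw [h2, map_zero]

end Pool.Agent.MP_87c685_nt
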