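import Pool.Agent.Lib.MP_87c685_nt.GDefs

/-!
# MP_87c685_nt: test sets for representations with a residually unipotent subgroup
-/

namespace Pool.Agent.MP_87c685_nt

open Polynomial

/-- the homomorphisms from `G` to the cyclic group of order `p` with open kernel -/
def homP (G : Type*) [Group G] [TopologicalSpace G] (p : ℕ) :
    Set (G →* Multiplicative (ZMod p)) :=
  {χ | IsOpen (χ.ker : Set G)}

/-- `ρ` is admissible with the trace `t`: `t` is a continuous function with values in `O` and for
`h` in `H` the characteristic polynomial of `ρ h` has coefficients in `O` and reduces to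
`(X - 1) ^ n` modulo the maximal ideal. -/
structure Adm {G : Type*} [Group G] [TopologicalSpace G] (O : Type) [CommRing O] [IsLocalRing O]
    [TopologicalSpace O] (H : Subgroup G) {n : ℕ} {F : Type} [Field F] [Algebra O F]
    (ρ : G →* Matrix.GeneralLinearGroup (Fin n) F) (t : G → O) : Prop where
  cont : Continuous t
  tr : ∀ g, (ρ g : Matrix (Fin n) (Fin n) F).trace = algebraMap O F (t g)
  uni : ∀ h ∈ H, ∃ P : O[X],
    (ρ h : Matrix (Fin n) (Fin n) F).charpoly = P.map (algebraMap O F) ∧
      P.map (IsLocalRing.residue O) = (X - 1) ^ n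

/-- `T` is a test set: if `ρ₁, ρ₂ : G → GL_n(F)` are admissible representations over a field `F`
containing `O`, with the traces `t₁`, `t₂`, and `t₁ = t₂` on `T`, then `t₁ = t₂` on `G`. -/
def TestU {G : Type*} [Group G] [TopologicalSpace G] (O : Type) [CommRing O] [IsLocalRing O]
    [TopologicalSpace O] (H : Subgroup G) (n : ℕ) (T : Set G) : Prop :=
  ∀ (F : Type) [Field F] [Algebra O F], Function.Injective (algebraMap O F) →
    ∀ (ρ₁ ρ₂ : G →* Matrix.GeneralLinearGroup (Fin n) F) (t₁ t₂ : G → O),
    Adm O H ρ₁ t₁ → Adm O H ρ₂ t₂ → (∀ g ∈ T, t₁ g = t₂ g) → ∀ g, t₁ g = t₂ g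

end Pool.Agent.MP_87c685_nt
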