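import Mathlib
import Pool.Agent.Lib.MP_87c685_nt.LinDefs

/-!
# MP_87c685_nt: counting the homomorphisms which are unipotent on a subgroup
-/

set_option linter.unusedSectionVars false

namespace Pool.Agent.MP_87c685_nt

open Topology

/-! ### separating elements -/

/-- a finite group of characters of exponent `p` is separated by few elements -/
theorem exists_sep {A : Type*} [Group A] {p : ℕ} [hp : Fact p.Prime] (r : ℕ) :
    ∀ Y : Subgroup (A →* Multiplicative (ZMod p)), Finite Y → Nat.card Y ≤ p ^ r →
    ∃ x : Fin r → A, ∀ χ ∈ Y, (∀ i, χ (x i) = 1) → χ = 1 := by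
  classical
  induction r with
  | zero =>
    intro Y hY hc
    refine ⟨Fin.elim0, fun χ hχ _ => ?_⟩
    rw [pow_zero] at hc
    have h1 : Y = ⊥ := Subgroup.card_eq_one.mp (le_antisymm hc Nat.card_pos)
    rw [h1, Subgroup.mem_bot] at hχ
    exact hχ
  | succ r ih =>
    intro Y hY hc
    by_cases hb : Y = ⊥
    · refine ⟨fun _ => 1, fun χ hχ _ => ?_⟩
      rw [hb, Subgroup.mem_bot] at hχ
      exact hχ
    · obtain ⟨χ, hχ, hχ1⟩ := (Subgroup.ne_bot_iff_exists_ne_one).mp hb |>.elim
        fun a ha => (⟨a, a.2, fun h => ha (Subtype.ext h)⟩ : ∃ χ, χ ∈ Y ∧ χ ≠ 1)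
      obtain ⟨x0, hx0⟩ : ∃ x, χ x ≠ 1 := by
        by_contra hcon
        push Not at hcon
        exact hχ1 (MonoidHom.ext hcon)
      -- the evaluation
      let ev : (A →* Multiplicative (ZMod p)) →* Multiplicative (ZMod p) := MonoidHom.eval x0
      have hev : ∀ χ, ev χ = χ x0 := fun _ => rfl
      let evY : Y →* Multiplicative (ZMod p) := ev.comp Y.subtype
      have hcard : Nat.card Y = Nat.card evY.ker * Nat.card evY.range := by
        rw [← Subgroup.card_mul_index evY.ker, Subgroup.index_ker]
      have hran : p ≤ Nat.card evY.range := by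
        have h1 : Nat.card evY.range ∣ Nat.card (Multiplicative (ZMod p)) :=
          Subgroup.card_subgroup_dvd_card _
        have h2 : Nat.card (Multiplicative (ZMod p)) = p := by
          rw [Nat.card_congr (Multiplicative.toAdd), Nat.card_zmod]
        rw [h2] at h1
        rcases (Nat.dvd_prime hp.out).mp h1 with h3 | h3
        · exfalso
          have h4 := Subgroup.card_eq_one.mp h3
          have h5 : evY ⟨χ, hχ⟩ ∈ evY.range := ⟨_, rfl⟩
          rw [h4, Subgroup.mem_bot] at h5
          exact hx0 h5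
        · exact h3.ge
      let Y' : Subgroup (A →* Multiplicative (ZMod p)) := evY.ker.map Y.subtype
      have hY' : Nat.card Y' = Nat.card evY.ker :=
        Subgroup.card_map_of_injective Y.subtype_injective
      have hfin : Finite Y' := by
        have : Finite evY.ker := inferInstance
        exact Set.Finite.to_subtype ((Set.toFinite (evY.ker : Set Y)).image Y.subtype)
      have hc' : Nat.card Y' ≤ p ^ r := by
        rw [hY']
        have h1 : Nat.card evY.ker * p ≤ p ^ r * p := by
          rw [← pow_succ]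
          exact (Nat.mul_le_mul_left _ hran).trans (hcard ▸ hc)
        exact Nat.le_of_mul_le_mul_right h1 hp.out.pos
      obtain ⟨x, hx⟩ := ih Y' hfin hc'
      refine ⟨Fin.cons x0 x, fun ψ hψ hψ1 => ?_⟩
      apply hx ψ
      · refine ⟨⟨ψ, hψ⟩, ?_, rfl⟩
        have := hψ1 0
        rw [Fin.cons_zero] at this
        exact this
      · intro i
        have := hψ1 i.succ
        rw [Fin.cons_succ] at this
        exact this

/-- a proper subgroup of a finite `p`-group is killed by a nontrivial character of order `p` -/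
theorem exists_char {Q : Type*} [Group Q] [Finite Q] {p : ℕ} [hp : Fact p.Prime]
    (hQ : IsPGroup p Q) (K : Subgroup Q) (hK : K ≠ ⊤) :
    ∃ χ : Q →* Multiplicative (ZMod p), χ ≠ 1 ∧ ∀ x ∈ K, χ x = 1 := by
  classical
  have hnil : Group.IsNilpotent Q := hQ.isNilpotent
  obtain ⟨L, hL, hKL⟩ := (eq_top_or_exists_le_coatom K).resolve_left hK
  have hLn : L.Normal :=
    Subgroup.NormalizerCondition.normal_of_coatom L Group.normalizerCondition_of_isNilpotent hL
  obtain ⟨N, hN⟩ := IsPGroup.iff_card.mp hQ
  obtain ⟨l, hl⟩ := IsPGroup.iff_card.mp (hQ.to_subgroup L)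
  have hpos : 0 < p := hp.out.pos
  have hlN : l < N := by
    have h1 : Nat.card L < Nat.card Q := by
      refine lt_of_le_of_ne (Subgroup.card_le_card_group L) fun h => hL.1 ?_
      exact Subgroup.eq_top_of_card_eq L h
    rw [hN, hl] at h1
    exact (Nat.pow_lt_pow_iff_right hp.out.one_lt).mp h1
  have hdvd : p ^ (l + 1) ∣ Nat.card Q := by
    rw [hN]
    exact pow_dvd_pow p hlN
  obtain ⟨K', hK', hLK'⟩ := Sylow.exists_subgroup_card_pow_succ hdvd hl
  have hKtop : K' = ⊤ := by
    apply hL.2
    refine lt_of_le_of_ne hLK' fun h => ?_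
    rw [← h, hl] at hK'
    exact absurd (Nat.pow_right_injective hp.out.two_le hK') (by omega)
  have hcardQ : Nat.card Q = p ^ (l + 1) := by
    rw [← hK', hKtop, Subgroup.card_top]
  have hcard : Nat.card (Q ⧸ L) = p := by
    have h1 := Subgroup.card_eq_card_quotient_mul_card_subgroup L
    rw [hcardQ, hl, pow_succ, mul_comm] at h1
    exact (Nat.eq_of_mul_eq_mul_right (pow_pos hpos l) h1).symm
  have hcard2 : Nat.card (Multiplicative (ZMod p)) = p := by
    rw [Nat.card_congr (Multiplicative.toAdd), Nat.card_zmod]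
  let e : Q ⧸ L ≃* Multiplicative (ZMod p) := mulEquivOfPrimeCardEq hcard hcard2
  refine ⟨e.toMonoidHom.comp (QuotientGroup.mk' L), fun h => ?_, fun x hx => ?_⟩
  · apply hL.1
    rw [eq_top_iff]
    intro x _
    have h1 : e (QuotientGroup.mk' L x) = 1 := DFunLike.congr_fun h x
    rw [EmbeddingLike.map_eq_one_iff, QuotientGroup.mk'_apply, QuotientGroup.eq_one_iff] at h1
    exact h1
  · have h1 : (QuotientGroup.mk' L) x = 1 := by
      rw [QuotientGroup.mk'_apply, QuotientGroup.eq_one_iff]
      exact hKL hx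
    rw [MonoidHom.comp_apply, h1, map_one]

/-! ### homomorphisms of `H` to finite groups of exponent `p ^ a` -/

section
variable {G : Type*} [Group G] [TopologicalSpace G] [IsTopologicalGroup G]

/-- the group of the continuous characters of order `p` -/
def homPS (H : Type*) [Group H] [TopologicalSpace H] [IsTopologicalGroup H] (p : ℕ) :
    Subgroup (H →* Multiplicative (ZMod p)) where
  carrier := homP H p
  one_mem' := by
    have h1 : (1 : H →* Multiplicative (ZMod p)).ker = ⊤ := by
      ext x
      simp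
    change IsOpen _
    rw [h1]
    exact isOpen_univ
  mul_mem' := by
    intro a b ha hb
    have h1 : a.ker ⊓ b.ker ≤ (a * b).ker := by
      intro x hx
      rw [Subgroup.mem_inf, MonoidHom.mem_ker, MonoidHom.mem_ker] at hx
      rw [MonoidHom.mem_ker, MonoidHom.mul_apply, hx.1, hx.2, one_mul]
    have h2 : IsOpen ((a.ker ⊓ b.ker : Subgroup H) : Set H) := by
      rw [Subgroup.coe_inf]
      exact IsOpen.inter ha hb
    exact Subgroup.isOpen_mono h1 h2
  inv_mem' := by
    intro a ha
    have h1 : (a⁻¹).ker = a.ker := by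
      ext x
      rw [MonoidHom.mem_ker, MonoidHom.mem_ker, MonoidHom.inv_apply, inv_eq_one]
    change IsOpen _
    rw [h1]
    exact ha

/-- two homomorphisms to a finite group of exponent `p ^ a`, which agree on the separating
elements, are equal -/
theorem eq_of_sep {H L : Type*} [Group H] [TopologicalSpace H] [IsTopologicalGroup H] [Group L]
    [Finite L] {p a : ℕ} [hp : Fact p.Prime] {r : ℕ} (x : Fin r → H)
    (hx : ∀ χ ∈ homP H p, (∀ i, χ (x i) = 1) → χ = 1) (τ τ' : H →* L)
    (ho : IsOpen (τ.ker : Set H)) (ho' : IsOpen (τ'.ker : Set H))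
    (he : ∀ h, τ h ^ p ^ a = 1) (he' : ∀ h, τ' h ^ p ^ a = 1)
    (hxx : ∀ i, τ (x i) = τ' (x i)) : τ = τ' := by
  classical
  let θ : H →* L × L := τ.prod τ'
  have hQ : IsPGroup p θ.range := by
    rintro ⟨_, h, rfl⟩
    refine ⟨a, Subtype.ext ?_⟩
    rw [Subgroup.coe_pow, Subgroup.coe_one]
    exact Prod.ext (he h) (he' h)
  let K : Subgroup θ.range :=
    (MonoidHom.eqLocus (MonoidHom.fst L L) (MonoidHom.snd L L)).comap θ.range.subtype
  have hK : K = ⊤ := by
    by_contra hne
    obtain ⟨χ, hχ, hχK⟩ := exists_char hQ K hne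
    apply hχ
    have h1 : χ.comp θ.rangeRestrict = 1 := by
      apply hx
      · have h2 : τ.ker ⊓ τ'.ker ≤ (χ.comp θ.rangeRestrict).ker := by
          intro y hy
          rw [Subgroup.mem_inf, MonoidHom.mem_ker, MonoidHom.mem_ker] at hy
          have h3 : θ.rangeRestrict y = 1 := Subtype.ext (Prod.ext hy.1 hy.2)
          rw [MonoidHom.mem_ker, MonoidHom.comp_apply, h3, map_one]
        have h4 : IsOpen ((τ.ker ⊓ τ'.ker : Subgroup H) : Set H) := by
          rw [Subgroup.coe_inf]
          exact ho.inter ho'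
        exact Subgroup.isOpen_mono h2 h4
      · intro i
        apply hχK
        exact hxx i
    apply MonoidHom.ext
    rintro ⟨_, y, rfl⟩
    exact DFunLike.congr_fun h1 y
  apply MonoidHom.ext
  intro y
  have h1 : (θ.rangeRestrict y) ∈ K := by
    rw [hK]
    exact Subgroup.mem_top _
  exact h1

/-- The homomorphisms to a finite group `L` with open kernel which have exponent `p ^ a` on `H`. -/
def homU (G L : Type*) [Group G] [TopologicalSpace G] [Group L] (H : Subgroup G) (e : ℕ) :
    Set (G →* L) :=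
  {σ | IsOpen (σ.ker : Set G) ∧ ∀ h ∈ H, σ h ^ e = 1}

theorem ncard_homU {L : Type*} [Group L] [Finite L] {p a : ℕ} [hp : Fact p.Prime]
    (H : Subgroup G) (r s : ℕ) (hr : (homP H p).ncard = p ^ r) (y : Fin s → G)
    (hy : (Subgroup.closure ((H : Set G) ∪ Set.range y)).topologicalClosure = ⊤) :
    (homU G L H (p ^ a)).Finite ∧ (homU G L H (p ^ a)).ncard ≤ Nat.card L ^ (r + s) := by
  classical
  have hfinP : (homP H p).Finite := by
    apply Set.finite_of_ncard_ne_zero
    rw [hr]
    exact pow_ne_zero _ hp.out.ne_zero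
  obtain ⟨x, hx⟩ := exists_sep (p := p) r (homPS H p) hfinP.to_subtype (by
    have h1 : Nat.card (homPS H p) = (homP H p).ncard := rfl
    rw [h1, hr])
  have hx' : ∀ χ ∈ homP H p, (∀ i, χ (x i) = 1) → χ = 1 := hx
  let f : (G →* L) → (Fin r → L) × (Fin s → L) := fun σ =>
    (fun i => σ (x i), fun j => σ (y j))
  have hinj : Set.InjOn f (homU G L H (p ^ a)) := by
    intro σ hσ σ' hσ' hff
    rw [Prod.ext_iff] at hff
    have h1 : ∀ i, σ (x i) = σ' (x i) := fun i => congrFun hff.1 i
    have h2 : ∀ j, σ (y j) = σ' (y j) := fun j => congrFun hff.2 j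
    have h3 : σ.comp H.subtype = σ'.comp H.subtype := by
      refine eq_of_sep (a := a) x hx' _ _ ?_ ?_ ?_ ?_ ?_
      · exact hσ.1.preimage continuous_subtype_val
      · exact hσ'.1.preimage continuous_subtype_val
      · intro h
        exact hσ.2 h h.2
      · intro h
        exact hσ'.2 h h.2
      · intro i
        exact h1 i
    have h4 : Subgroup.closure ((H : Set G) ∪ Set.range y) ≤ MonoidHom.eqLocus σ σ' := by
      rw [Subgroup.closure_le]
      rintro z (hz | ⟨j, rfl⟩)
      · exact DFunLike.congr_fun h3 ⟨z, hz⟩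
      · exact h2 j
    have h5 : IsOpen ((MonoidHom.eqLocus σ σ' : Subgroup G) : Set G) := by
      have h6 : σ.ker ⊓ σ'.ker ≤ MonoidHom.eqLocus σ σ' := by
        intro z hz
        rw [Subgroup.mem_inf, MonoidHom.mem_ker, MonoidHom.mem_ker] at hz
        change σ z = σ' z
        rw [hz.1, hz.2]
      have h7 : IsOpen ((σ.ker ⊓ σ'.ker : Subgroup G) : Set G) := by
        rw [Subgroup.coe_inf]
        exact hσ.1.inter hσ'.1
      exact Subgroup.isOpen_mono h6 h7
    have h8 : (⊤ : Subgroup G) ≤ MonoidHom.eqLocus σ σ' := by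
      rw [← hy]
      exact Subgroup.topologicalClosure_minimal _ h4 (Subgroup.isClosed_of_isOpen _ h5)
    apply MonoidHom.ext
    intro z
    exact h8 (Subgroup.mem_top z)
  have hfin : (homU G L H (p ^ a)).Finite := Set.Finite.of_injOn
    (t := (Set.univ : Set ((Fin r → L) × (Fin s → L)))) (fun _ _ => Set.mem_univ _) hinj
    Set.finite_univ
  refine ⟨hfin, ?_⟩
  have h9 := Set.ncard_le_ncard_of_injOn (t := (Set.univ : Set ((Fin r → L) × (Fin s → L)))) f
    (fun _ _ => Set.mem_univ _) hinj Set.finite_univ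
  rw [Set.ncard_univ, Nat.card_prod, Nat.card_fun, Nat.card_fun, Nat.card_fin, Nat.card_fin,
    ← pow_add] at h9
  exact h9

end

end Pool.Agent.MP_87c685_nt
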