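import Mathlib
import Pool.Agent.Lib.MP_87c685_nt.LinDefs
import Pool.Agent.Lib.MP_87c685_nt.LinBurn

/-!
# MP_87c685_nt: lower bound for the size of test sets
-/

set_option linter.unusedSectionVars false

namespace Pool.Agent.MP_87c685_nt

open Finset
open Polynomial (C X)

section low
variable {G : Type*} [Group G] [TopologicalSpace G] [IsTopologicalGroup G]
variable {O : Type} [CommRing O] [IsDomain O] [IsLocalRing O] [TopologicalSpace O]

/-- `ζ ^ c` -/
def zp (ζ : O) {p : ℕ} (c : Multiplicative (ZMod p)) : O := ζ ^ (Multiplicative.toAdd c).val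

theorem zp_one (ζ : O) {p : ℕ} [Fact p.Prime] : zp ζ (1 : Multiplicative (ZMod p)) = 1 := by
  unfold zp
  rw [toAdd_one, ZMod.val_zero, pow_zero]

theorem zp_mul {ζ : O} {p : ℕ} [hp : Fact p.Prime] (hζ : ζ ^ p = 1)
    (a b : Multiplicative (ZMod p)) : zp ζ (a * b) = zp ζ a * zp ζ b := by
  have : NeZero p := ⟨hp.out.ne_zero⟩
  unfold zp
  rw [toAdd_mul, ZMod.val_add, ← pow_add]
  exact (pow_eq_pow_mod _ hζ).symm

theorem zp_inj {ζ : O} {p : ℕ} [hp : Fact p.Prime] (hζ : ζ ^ p = 1) (hζ1 : ζ ≠ 1)
    {a b : Multiplicative (ZMod p)} (h : zp ζ a = zp ζ b) : a = b := by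
  have : NeZero p := ⟨hp.out.ne_zero⟩
  have ho : orderOf ζ = p := orderOf_eq_prime hζ hζ1
  unfold zp at h
  have h1 := pow_injOn_Iio_orderOf (x := ζ) (by
    rw [Set.mem_Iio, ho]
    exact ZMod.val_lt _) (by
    rw [Set.mem_Iio, ho]
    exact ZMod.val_lt _) h
  exact Multiplicative.toAdd.injective (ZMod.val_injective p h1)

/-- the representation `χ ⊕ 1 ⊕ ... ⊕ 1` -/
noncomputable def rz {p : ℕ} [Fact p.Prime] {ζ : O} (hζ : ζ ^ p = 1) (F : Type) [Field F]
    [Algebra O F] {n : ℕ} (i0 : Fin n) (χ : G →* Multiplicative (ZMod p)) :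
    G →* Matrix.GeneralLinearGroup (Fin n) F :=
  MonoidHom.toHomUnits
    { toFun := fun g => Matrix.diagonal fun i => if i = i0 then algebraMap O F (zp ζ (χ g)) else 1
      map_one' := by
        rw [map_one, zp_one, map_one]
        simp
      map_mul' := by
        intro a b
        rw [map_mul, zp_mul hζ, map_mul, Matrix.diagonal_mul_diagonal]
        congr 1
        funext i
        by_cases h : i = i0
        · rw [if_pos h, if_pos h, if_pos h]
        · rw [if_neg h, if_neg h, if_neg h, one_mul] }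

theorem rz_coe {p : ℕ} [Fact p.Prime] {ζ : O} (hζ : ζ ^ p = 1) (F : Type) [Field F]
    [Algebra O F] {n : ℕ} (i0 : Fin n) (χ : G →* Multiplicative (ZMod p)) (g : G) :
    (rz hζ F i0 χ g : Matrix (Fin n) (Fin n) F) =
      Matrix.diagonal fun i => if i = i0 then algebraMap O F (zp ζ (χ g)) else 1 := rfl

theorem residue_zeta {p : ℕ} [hp : Fact p.Prime] [CharP (IsLocalRing.ResidueField O) p] {ζ : O}
    (hζ : ζ ^ p = 1) : IsLocalRing.residue O ζ = 1 := by
  have h1 : (IsLocalRing.residue O ζ - 1) ^ p = 0 := by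
    rw [sub_pow_char, one_pow, ← map_pow, hζ, map_one, sub_self]
  exact sub_eq_zero.mp (pow_eq_zero_iff hp.out.ne_zero |>.mp h1)

theorem adm_rz {p : ℕ} [hp : Fact p.Prime] [CharP (IsLocalRing.ResidueField O) p] {ζ : O}
    (hζ : ζ ^ p = 1) (F : Type) [Field F] [Algebra O F] {n : ℕ} (i0 : Fin n) (H : Subgroup G)
    {χ : G →* Multiplicative (ZMod p)} (hχ : χ ∈ homP G p) :
    Adm O H (rz hζ F i0 χ) (fun g => zp ζ (χ g) + ((n - 1 : ℕ) : O)) := by
  classical
  refine ⟨?_, ?_, ?_⟩
  · -- locally constant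
    have h1 : IsLocallyConstant (fun g => zp ζ (χ g) + ((n - 1 : ℕ) : O)) := by
      rw [IsLocallyConstant.iff_exists_open]
      intro g
      refine ⟨(fun x => g⁻¹ * x) ⁻¹' (χ.ker : Set G), hχ.preimage (continuous_const_mul _), ?_, ?_⟩
      · rw [Set.mem_preimage, inv_mul_cancel]
        exact χ.ker.one_mem
      · intro x hx
        rw [Set.mem_preimage, SetLike.mem_coe, MonoidHom.mem_ker, map_mul, map_inv,
          inv_mul_eq_one] at hx
        beta_reduce
        rw [hx]
    exact h1.continuous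
  · intro g
    rw [rz_coe, Matrix.trace_diagonal, Finset.sum_ite, Finset.sum_const, Finset.sum_const]
    have h1 : (univ.filter fun i : Fin n => i = i0).card = 1 := by
      rw [Finset.filter_eq' univ i0, if_pos (mem_univ _), card_singleton]
    have h2 : (univ.filter fun i : Fin n => ¬ i = i0).card = n - 1 := by
      have h3 := Finset.card_filter_add_card_filter_not (s := (univ : Finset (Fin n)))
        (fun i => i = i0)
      rw [h1, card_univ, Fintype.card_fin] at h3
      omega
    rw [h1, h2, one_smul, nsmul_eq_mul, mul_one, map_add, map_natCast]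
  · intro h _
    refine ⟨∏ i : Fin n, (X - C (if i = i0 then zp ζ (χ h) else 1)), ?_, ?_⟩
    · rw [rz_coe, Matrix.charpoly_diagonal, Polynomial.map_prod]
      apply prod_congr rfl
      intro i _
      rw [Polynomial.map_sub, Polynomial.map_X, Polynomial.map_C]
      by_cases hi : i = i0
      · rw [if_pos hi, if_pos hi]
      · rw [if_neg hi, if_neg hi]
        simp
    · rw [Polynomial.map_prod]
      have h1 : ∀ i ∈ (univ : Finset (Fin n)),
          (X - C (if i = i0 then zp ζ (χ h) else 1) : Polynomial O).map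
            (IsLocalRing.residue O) = X - 1 := by
        intro i _
        rw [Polynomial.map_sub, Polynomial.map_X, Polynomial.map_C]
        by_cases hi : i = i0
        · rw [if_pos hi, zp, map_pow, residue_zeta hζ, one_pow, Polynomial.C_1]
        · rw [if_neg hi, map_one, Polynomial.C_1]
      rw [prod_congr rfl h1, prod_const, card_univ, Fintype.card_fin]

theorem low {p : ℕ} [hp : Fact p.Prime] [CharP (IsLocalRing.ResidueField O) p] {ζ : O}
    (hζ : ζ ^ p = 1) (hζ1 : ζ ≠ 1) (n : ℕ) (hn : 0 < n) (H : Subgroup G) (T : Finset G)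
    (hT : TestU O H n (T : Set G)) :
    (homP G p).Finite ∧ (homP G p).ncard ≤ p ^ T.card := by
  classical
  have : NeZero p := ⟨hp.out.ne_zero⟩
  let f : (G →* Multiplicative (ZMod p)) → (T → Multiplicative (ZMod p)) := fun χ t => χ t
  have hinj : Set.InjOn f (homP G p) := by
    intro χ hχ χ' hχ' hff
    have h1 := hT (FractionRing O) (IsFractionRing.injective O (FractionRing O))
      (rz hζ (FractionRing O) (⟨0, hn⟩ : Fin n) χ) (rz hζ (FractionRing O) (⟨0, hn⟩ : Fin n) χ')
      _ _ (adm_rz hζ _ _ H hχ) (adm_rz hζ _ _ H hχ') (by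
        intro t ht
        have h2 : χ t = χ' t := congrFun hff ⟨t, ht⟩
        rw [h2])
    apply MonoidHom.ext
    intro g
    exact zp_inj hζ hζ1 (add_right_cancel (h1 g))
  have hfin : (homP G p).Finite := Set.Finite.of_injOn
    (t := (Set.univ : Set (T → Multiplicative (ZMod p)))) (fun _ _ => Set.mem_univ _) hinj
    Set.finite_univ
  refine ⟨hfin, ?_⟩
  have h9 := Set.ncard_le_ncard_of_injOn (t := (Set.univ : Set (T → Multiplicative (ZMod p)))) f
    (fun _ _ => Set.mem_univ _) hinj Set.finite_univ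
  rw [Set.ncard_univ, Nat.card_fun, Nat.card_congr (Multiplicative.toAdd), Nat.card_zmod,
    Nat.card_eq_fintype_card, Fintype.card_coe] at h9
  exact h9

end low

end Pool.Agent.MP_87c685_nt
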