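import Pool.Agent.Lib.MP_87c685_nt.LinRep
import Pool.Agent.Lib.MP_87c685_nt.LinBurn

/-!
# MP_87c685_nt: test sets of linear size
-/

set_option linter.unusedSectionVars false

namespace Pool.Agent.MP_87c685_nt

open Finset Module

/-! ### counting tuples -/

section count
variable {X κ : Type*} [Fintype X] [DecidableEq X] [Zero κ] [DecidableEq κ]

/-- few tuples miss the support of some function of the family -/
theorem card_bad_tuples [Nonempty X] (Φ : Finset (X → κ)) (k : ℕ) (hk : 1 ≤ k)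
    (h : ∀ φ ∈ Φ, Fintype.card X ≤ k * nz φ) (C : ℝ) (hC : 1 ≤ C) (hΦ : (Φ.card : ℝ) ≤ C)
    (m : ℕ) (ε : ℝ) (hε : 0 < ε) (hm : (k : ℝ) * (Real.log C + Real.log (1 / ε)) ≤ m) :
    (((univ : Finset (Fin m → X)).filter fun s => ∃ φ ∈ Φ, ∀ j, φ (s j) = 0).card : ℝ) ≤
      ε * (Fintype.card X : ℝ) ^ m := by
  have hk0 : (0 : ℝ) < k := by exact_mod_cast hk
  have h1 : ((univ : Finset (Fin m → X)).filter fun s => ∃ φ ∈ Φ, ∀ j, φ (s j) = 0) ⊆
      Φ.biUnion fun φ => Fintype.piFinset fun _ : Fin m => univ.filter fun v => φ v = 0 := by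
    intro s hs
    rw [mem_filter] at hs
    obtain ⟨-, φ, hφ, hs⟩ := hs
    rw [mem_biUnion]
    refine ⟨φ, hφ, ?_⟩
    rw [Fintype.mem_piFinset]
    intro j
    simpa using hs j
  have h2 := (card_le_card h1).trans card_biUnion_le
  simp only [Fintype.card_piFinset, prod_const, card_univ, Fintype.card_fin] at h2
  obtain ⟨q, hq⟩ : ∃ q : ℝ, q = (Fintype.card X : ℝ) := ⟨_, rfl⟩
  have hq0 : 0 < q := by
    rw [hq]
    exact_mod_cast Fintype.card_pos
  have hz : ∀ φ ∈ Φ, ((univ.filter fun v => φ v = 0).card : ℝ) ≤ Real.exp (-(1 / k)) * q := by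
    intro φ hφ
    have h1 : ((univ.filter fun v => φ v = 0).card : ℝ) + nz φ = q := by
      rw [hq]
      exact_mod_cast zeros_card' φ
    have h2 : q ≤ k * (nz φ : ℝ) := by
      rw [hq]
      exact_mod_cast h φ hφ
    have h3 : 1 - 1 / (k : ℝ) ≤ Real.exp (-(1 / k)) := by
      have := Real.add_one_le_exp (-(1 / (k : ℝ)))
      linarith
    have h4 : q / k ≤ nz φ := by
      rw [div_le_iff₀ hk0]
      linarith
    calc ((univ.filter fun v => φ v = 0).card : ℝ) ≤ (1 - 1 / (k : ℝ)) * q := by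
          have : (1 - 1 / (k : ℝ)) * q = q - q / k := by ring
          rw [this]
          linarith
      _ ≤ Real.exp (-(1 / k)) * q := mul_le_mul_of_nonneg_right h3 hq0.le
  rw [← hq]
  calc (((univ : Finset (Fin m → X)).filter fun s => ∃ φ ∈ Φ, ∀ j, φ (s j) = 0).card : ℝ)
      ≤ ∑ φ ∈ Φ, ((univ.filter fun v => φ v = 0).card : ℝ) ^ m := by exact_mod_cast h2
    _ ≤ ∑ φ ∈ Φ, (Real.exp (-(1 / k)) * q) ^ m := by
        apply sum_le_sum
        intro φ hφ
        exact pow_le_pow_left₀ (by positivity) (hz φ hφ) m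
    _ = Φ.card * (Real.exp (-(1 / k)) * q) ^ m := by rw [sum_const, nsmul_eq_mul]
    _ ≤ C * (Real.exp (-(1 / k)) * q) ^ m := mul_le_mul_of_nonneg_right hΦ (by positivity)
    _ = (C * Real.exp (-(m / k))) * q ^ m := by
        rw [mul_pow, ← Real.exp_nat_mul]
        have : (m : ℝ) * -(1 / k) = -(m / k) := by ring
        rw [this]
        ring
    _ ≤ ε * q ^ m := by
        apply mul_le_mul_of_nonneg_right _ (by positivity)
        have h5 : Real.log C + Real.log (1 / ε) ≤ m / k := by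
          rw [le_div_iff₀ hk0]
          linarith
        have h6 : C * (1 / ε) ≤ Real.exp (m / k) := by
          rw [← Real.log_le_iff_le_exp (by positivity), Real.log_mul (by positivity)
            (by positivity)]
          exact h5
        rw [Real.exp_neg, ← div_eq_mul_inv, div_le_iff₀ (Real.exp_pos _)]
        rw [mul_one_div, div_le_iff₀ hε] at h6
        linarith

end count

/-! ### coefficient functions on a quotient -/

section coeff
variable {G κ : Type*} [Group G] [Field κ]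

/-- the coefficient function of `σ` on the quotient by `M` -/
noncomputable def cfM (M : Subgroup G) (k : ℕ) (σ : G →* Matrix.GeneralLinearGroup (Fin k) κ)
    (v l : Fin k → κ) (x : G ⧸ M) : κ :=
  ∑ i, ((σ (Quotient.out x) : Matrix (Fin k) (Fin k) κ).mulVec v) i * l i

theorem sigma_outM {M : Subgroup G} {k : ℕ} {σ : G →* Matrix.GeneralLinearGroup (Fin k) κ}
    (hσ : M ≤ σ.ker) (g : G) :
    σ (Quotient.out (QuotientGroup.mk g : G ⧸ M)) = σ g := by
  have h1 : (QuotientGroup.mk (Quotient.out (QuotientGroup.mk g : G ⧸ M)) : G ⧸ M) =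
    QuotientGroup.mk g := Quotient.out_eq _
  have h2 := QuotientGroup.eq.mp h1
  have h3 := hσ h2
  rw [MonoidHom.mem_ker, map_mul, map_inv] at h3
  exact inv_mul_eq_one.mp h3

theorem cfM_mk {M : Subgroup G} {k : ℕ} {σ : G →* Matrix.GeneralLinearGroup (Fin k) κ}
    (hσ : M ≤ σ.ker) (v l : Fin k → κ) (g : G) :
    cfM M k σ v l (QuotientGroup.mk g) =
      ∑ i, ((σ g : Matrix (Fin k) (Fin k) κ).mulVec v) i * l i := by
  unfold cfM
  rw [sigma_outM hσ]

theorem finrank_cfM {M : Subgroup G} [M.Normal] {k : ℕ}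
    {σ : G →* Matrix.GeneralLinearGroup (Fin k) κ} (hσ : M ≤ σ.ker) (v l : Fin k → κ) :
    finrank κ (Submodule.span κ (Set.range fun a : G ⧸ M =>
      fun x => cfM M k σ v l (x * a))) ≤ k := by
  let L : (Fin k → κ) →ₗ[κ] (G ⧸ M → κ) :=
    { toFun := fun w x => ∑ i, ((σ (Quotient.out x) : Matrix (Fin k) (Fin k) κ).mulVec w) i * l i
      map_add' := by
        intro w w'
        funext x
        rw [Pi.add_apply, ← sum_add_distrib]
        apply sum_congr rfl
        intro i _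
        rw [Matrix.mulVec_add, Pi.add_apply, add_mul]
      map_smul' := by
        intro c w
        funext x
        rw [Pi.smul_apply, RingHom.id_apply, smul_eq_mul, mul_sum]
        apply sum_congr rfl
        intro i _
        rw [Matrix.mulVec_smul, Pi.smul_apply, smul_eq_mul, mul_assoc] }
  have hle : Submodule.span κ (Set.range fun a : G ⧸ M =>
      fun x => cfM M k σ v l (x * a)) ≤ LinearMap.range L := by
    rw [Submodule.span_le]
    rintro _ ⟨a, rfl⟩
    obtain ⟨h, rfl⟩ := QuotientGroup.mk_surjective a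
    refine ⟨(σ h : Matrix (Fin k) (Fin k) κ).mulVec v, ?_⟩
    funext x
    obtain ⟨g, rfl⟩ := QuotientGroup.mk_surjective x
    beta_reduce
    rw [← QuotientGroup.mk_mul, cfM_mk hσ]
    change ∑ i, ((σ (Quotient.out (QuotientGroup.mk g : G ⧸ M)) :
      Matrix (Fin k) (Fin k) κ).mulVec ((σ h : Matrix (Fin k) (Fin k) κ).mulVec v)) i * l i = _
    rw [sigma_outM hσ, map_mul, Units.val_mul, Matrix.mulVec_mulVec]
  have h1 := Submodule.finrank_mono hle
  have h2 := LinearMap.finrank_range_le L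
  rw [Module.finrank_fin_fun] at h2
  exact h1.trans h2

end coeff

/-! ### the kernel -/

section ker
variable {G : Type*} [Group G] [TopologicalSpace G] [IsTopologicalGroup G]
variable {L : Type*} [Group L]

/-- the common kernel of a set of homomorphisms -/
def kerS (A : Set (G →* L)) : Subgroup G := ⨅ σ ∈ A, σ.ker

instance normal_kerS (A : Set (G →* L)) : (kerS A).Normal := by
  unfold kerS
  apply Subgroup.normal_iInf_normal
  intro σ
  apply Subgroup.normal_iInf_normal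
  intro _
  infer_instance

theorem kerS_le {A : Set (G →* L)} {σ : G →* L} (hσ : σ ∈ A) : kerS A ≤ σ.ker := by
  unfold kerS
  exact (iInf_le _ σ).trans (iInf_le _ hσ)

theorem isOpen_kerS {A : Set (G →* L)} (hfin : A.Finite) (ho : ∀ σ ∈ A, IsOpen (σ.ker : Set G)) :
    IsOpen (kerS A : Set G) := by
  have h1 : (kerS A : Set G) = ⋂ σ ∈ A, (σ.ker : Set G) := by
    unfold kerS
    rw [Subgroup.coe_iInf]
    apply Set.iInter_congr
    intro σ
    rw [Subgroup.coe_iInf]
  rw [h1]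
  exact hfin.isOpen_biInter ho

theorem finiteIndex_kerS [Finite L] {A : Set (G →* L)} (hfin : A.Finite) :
    (kerS A).FiniteIndex := by
  have hf : Finite A := hfin
  have h1 : kerS A = ⨅ σ : A, (σ : G →* L).ker := by
    unfold kerS
    rw [iInf_subtype]
  rw [h1]
  have h2 : ∀ σ : A, ((σ : G →* L).ker).FiniteIndex := by
    intro σ
    exact Subgroup.finiteIndex_ker _
  exact Subgroup.finiteIndex_iInf h2

end ker

section main
variable {G : Type*} [Group G] [TopologicalSpace G] [IsTopologicalGroup G]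
variable {O : Type} [CommRing O] [IsDomain O] [IsDiscreteValuationRing O] [TopologicalSpace O]
  [IsTopologicalRing O]

theorem card_GL_le (k : ℕ) (κ : Type*) [Field κ] [Finite κ] :
    Nat.card (Matrix.GeneralLinearGroup (Fin k) κ) ≤ Nat.card κ ^ (k ^ 2) := by
  have h1 : Nat.card (Matrix.GeneralLinearGroup (Fin k) κ) ≤ Nat.card (Matrix (Fin k) (Fin k) κ) :=
    Nat.card_le_card_of_injective (fun M : Matrix.GeneralLinearGroup (Fin k) κ =>
      (M : Matrix (Fin k) (Fin k) κ)) Units.val_injective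
  have h2 : Nat.card (Matrix (Fin k) (Fin k) κ) = Nat.card κ ^ (k ^ 2) := by
    unfold Matrix
    rw [Nat.card_fun, Nat.card_fun, Nat.card_fin, ← pow_mul, sq]
  exact h1.trans h2.le

theorem main_lin (hO : ∀ j : ℕ, IsOpen ((IsLocalRing.maximalIdeal O ^ j : Ideal O) : Set O))
    [Finite (IsLocalRing.ResidueField O)] (p : ℕ) [hp : Fact p.Prime]
    [CharP (IsLocalRing.ResidueField O) p] (n : ℕ) (hn : 0 < n) (H : Subgroup G) (r s : ℕ)
    (hr : (homP H p).ncard = p ^ r) (y : Fin s → G)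
    (hy : (Subgroup.closure ((H : Set G) ∪ Set.range y)).topologicalClosure = ⊤) :
    ∃ M : Subgroup G, M.Normal ∧ IsOpen (M : Set G) ∧ M.FiniteIndex ∧
      (∀ (m : ℕ) (ε : ℝ), 0 < ε →
        2 * n ^ 2 * (4 * n ^ 2 * (n ^ 2 * (r + s) + 1) *
          Real.log (Nat.card (IsLocalRing.ResidueField O)) + Real.log (1 / ε)) ≤ m →
        ({c : Fin m → G ⧸ M | ¬ ∀ T : Set G, (∀ i, ∃ t ∈ T, (QuotientGroup.mk t : G ⧸ M) = c i) →
          TestU O H n T}.ncard : ℝ) ≤ ε * (M.index : ℝ) ^ m) ∧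
      ∃ S : Finset (G ⧸ M), (S.card : ℝ) ≤ 2 * n ^ 2 * (4 * n ^ 2 * (n ^ 2 * (r + s) + 1) *
          Real.log (Nat.card (IsLocalRing.ResidueField O))) + 1 ∧
        ∀ T : Set G, (∀ c ∈ S, ∃ t ∈ T, (QuotientGroup.mk t : G ⧸ M) = c) → TestU O H n T := by
  classical
  have hft := Fintype.ofFinite (IsLocalRing.ResidueField O)
  obtain ⟨k, hk⟩ : ∃ k, k = 2 * n ^ 2 := ⟨_, rfl⟩
  have hk1 : 1 ≤ k := by
    rw [hk]
    have : 0 < n ^ 2 := by positivity
    omega
  obtain ⟨a, ha⟩ : ∃ a, 2 * n ≤ p ^ a := ⟨2 * n, (Nat.lt_pow_self hp.out.one_lt).le⟩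
  obtain ⟨hfin, hcardA⟩ := ncard_homU
    (L := Matrix.GeneralLinearGroup (Fin k) (IsLocalRing.ResidueField O)) (a := a) H r s hr y hy
  obtain ⟨A, hA⟩ : ∃ A, A = homU G
    (Matrix.GeneralLinearGroup (Fin k) (IsLocalRing.ResidueField O)) H (p ^ a) := ⟨_, rfl⟩
  rw [← hA] at hfin hcardA
  have hopen : ∀ σ ∈ A, IsOpen (σ.ker : Set G) := by
    intro σ hσ
    rw [hA] at hσ
    exact hσ.1
  have hidx := finiteIndex_kerS hfin
  have hQ : Finite (G ⧸ kerS A) := inferInstance
  have hQt := Fintype.ofFinite (G ⧸ kerS A)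
  let P : Finset ((G →* Matrix.GeneralLinearGroup (Fin k) (IsLocalRing.ResidueField O)) ×
      ((Fin k → IsLocalRing.ResidueField O) × (Fin k → IsLocalRing.ResidueField O))) :=
    hfin.toFinset ×ˢ (univ ×ˢ univ)
  let Φ : Finset (G ⧸ kerS A → IsLocalRing.ResidueField O) :=
    (P.image fun p => cfM (kerS A) k p.1 p.2.1 p.2.2).filter (fun φ => φ ≠ 0)
  obtain ⟨q, hq⟩ : ∃ q, q = Nat.card (IsLocalRing.ResidueField O) := ⟨_, rfl⟩
  have hq1 : 1 ≤ q := by
    rw [hq]
    exact Nat.card_pos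
  have hcard : Φ.card ≤ q ^ (k ^ 2 * (r + s) + (k + k)) := by
    refine (card_filter_le _ _).trans (card_image_le.trans ?_)
    rw [card_product, card_product, card_univ, Fintype.card_fun, Fintype.card_fin,
      ← Nat.card_eq_fintype_card, ← hq, pow_add, pow_add]
    apply Nat.mul_le_mul_right
    rw [← Set.ncard_eq_toFinset_card _ hfin]
    refine hcardA.trans ?_
    rw [pow_mul]
    apply Nat.pow_le_pow_left
    rw [hq]
    exact card_GL_le k _
  have hC : (Φ.card : ℝ) ≤ (q : ℝ) ^ (k ^ 2 * (r + s) + (k + k)) := by exact_mod_cast hcard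
  have hq1' : (1 : ℝ) ≤ q := by exact_mod_cast hq1
  have hC1 : (1 : ℝ) ≤ (q : ℝ) ^ (k ^ 2 * (r + s) + (k + k)) := one_le_pow₀ hq1'
  have hlog : Real.log ((q : ℝ) ^ (k ^ 2 * (r + s) + (k + k))) =
      4 * n ^ 2 * (n ^ 2 * (r + s) + 1) * Real.log q := by
    rw [Real.log_pow, hk]
    push_cast
    ring
  have hsupp : ∀ φ ∈ Φ, Fintype.card (G ⧸ kerS A) ≤ k * nz φ := by
    intro φ hφ
    rw [mem_filter, mem_image] at hφ
    obtain ⟨⟨p, hp, rfl⟩, hne⟩ := hφ
    rw [mem_product] at hp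
    have hσ : p.1 ∈ A := hfin.mem_toFinset.mp hp.1
    exact card_le_mul_nz _ hne k (finrank_cfM (kerS_le hσ) _ _)
  have hgood : ∀ W : Set (G ⧸ kerS A), (∀ φ ∈ Φ, ∃ w ∈ W, φ w ≠ 0) →
      ∀ T : Set G, (∀ w ∈ W, ∃ t ∈ T, (QuotientGroup.mk t : G ⧸ kerS A) = w) →
      TestU O H n T := by
    intro W hW T hT F _ _ hinj ρ₁ ρ₂ t₁ t₂ h₁ h₂ hTt g
    by_contra hne
    obtain ⟨ϖ, hϖ⟩ := IsDiscreteValuationRing.exists_irreducible O
    obtain ⟨m, E, hE, x, hx⟩ := exists_scaleO hϖ (fun g => t₁ g - t₂ g)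
      ⟨g, sub_ne_zero.mpr hne⟩
    obtain ⟨σ, hσ, hσH, v, l, hσE⟩ :=
      exists_cf2 hO hϖ n hinj p a ha H ρ₁ ρ₂ t₁ t₂ h₁ h₂ m E hE k hk
    have hσA : σ ∈ A := by
      rw [hA]
      exact ⟨hσ, hσH⟩
    have hval : ∀ g, cfM (kerS A) k σ v l (QuotientGroup.mk g) = IsLocalRing.residue O (E g) := by
      intro g
      rw [cfM_mk (kerS_le hσA), hσE]
    have hmem : cfM (kerS A) k σ v l ∈ Φ := by
      rw [mem_filter, mem_image]
      refine ⟨⟨(σ, v, l), ?_, rfl⟩, ?_⟩
      · rw [mem_product, mem_product]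
        exact ⟨hfin.mem_toFinset.mpr hσA, mem_univ _, mem_univ _⟩
      · intro h0
        apply hx
        rw [← hval, h0]
        rfl
    obtain ⟨w, hw, hw0⟩ := hW _ hmem
    obtain ⟨t, ht, rfl⟩ := hT w hw
    apply hw0
    rw [hval]
    have h1 := hE t
    rw [hTt t ht, sub_self] at h1
    have h2 : E t = 0 := by
      rcases mul_eq_zero.mp h1.symm with h3 | h3
      · exact absurd h3 (pow_ne_zero _ hϖ.ne_zero)
      · exact h3
    rw [h2, map_zero]
  refine ⟨kerS A, inferInstance, isOpen_kerS hfin hopen, hidx, ?_, ?_⟩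
  · intro m ε hε hm
    have hm' : (k : ℝ) * (Real.log ((q : ℝ) ^ (k ^ 2 * (r + s) + (k + k))) + Real.log (1 / ε)) ≤
        m := by
      rw [hlog, hk, hq]
      push_cast
      exact hm
    have hb := card_bad_tuples Φ k hk1 hsupp _ hC1 hC m ε hε hm'
    rw [Subgroup.index_eq_card, Nat.card_eq_fintype_card]
    refine le_trans ?_ hb
    rw [← Set.ncard_coe_finset]
    have hsub : {c : Fin m → G ⧸ kerS A | ¬ ∀ T : Set G,
        (∀ i, ∃ t ∈ T, (QuotientGroup.mk t : G ⧸ kerS A) = c i) → TestU O H n T} ⊆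
        (((univ : Finset (Fin m → G ⧸ kerS A)).filter fun s =>
          ∃ φ ∈ Φ, ∀ j, φ (s j) = 0 : Finset (Fin m → G ⧸ kerS A)) : Set (Fin m → G ⧸ kerS A)) := by
      intro c hc
      rw [Set.mem_ofPred_eq] at hc
      rw [mem_coe, mem_filter]
      refine ⟨mem_univ _, ?_⟩
      by_contra hcon
      push Not at hcon
      apply hc
      intro T hT
      apply hgood (Set.range c) _ T
      · rintro _ ⟨i, rfl⟩
        exact hT i
      · intro φ hφ
        obtain ⟨j, hj⟩ := hcon φ hφ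
        exact ⟨c j, ⟨j, rfl⟩, hj⟩
    exact_mod_cast Set.ncard_le_ncard hsub (Set.toFinite _)
  · obtain ⟨S, hS1, hS2⟩ := exists_hit Φ k hk1 hsupp _ hC1 hC
    refine ⟨S, ?_, ?_⟩
    · have hkR : (k : ℝ) = 2 * n ^ 2 := by
        rw [hk]
        push_cast
        ring
      rw [hlog, hkR, hq] at hS1
      exact hS1
    · intro T hT
      exact hgood (S : Set (G ⧸ kerS A)) (fun φ hφ => by
        obtain ⟨w, hw, hw0⟩ := hS2 φ hφ
        exact ⟨w, hw, hw0⟩) T hT

end main

end Pool.Agent.MP_87c685_nt
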