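import Pool.Agent.Lib.MP_87c685_nt.GMain
import Pool.Agent.Lib.MP_87c685_nt.LinDefs

/-!
# MP_87c685_nt: the deviation representation is unipotent on `H`
-/

set_option linter.unusedSectionVars false

namespace Pool.Agent.MP_87c685_nt

open Finset Module Topology
open Polynomial (aeval)

section top
variable {G κ : Type*} [Group G] [TopologicalSpace G] [IsTopologicalGroup G] [Field κ]

theorem exists_rep2 (φ : G → κ) (k : ℕ)
    (hk : ∀ x : Fin (k + 1) → G, ¬ LinearIndependent κ (fun j => fun g => φ (g * x j)))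
    (hopen : ∀ x, IsOpen {y | φ y = φ x}) :
    ∃ σ ∈ contHom G k κ, (∀ g, (∀ x y, φ (x * g * y) = φ (x * y)) → σ g = 1) ∧
      ∃ v l : Fin k → κ,
        ∀ g, φ g = ∑ i, ((σ g : Matrix (Fin k) (Fin k) κ).mulVec v) i * l i := by
  classical
  obtain ⟨j, a, hj, hli, hspan⟩ := basis_span (fun a : G => fun g => φ (g * a)) k hk
  have hspan' : Submodule.span κ (Set.range fun i => (fun g => φ (g * a i) : G → κ)) = spanR φ :=
    hspan
  have hfd : Module.Finite κ (spanR φ) := by
    rw [← hspan']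
    exact FiniteDimensional.span_of_finite κ (Set.finite_range _)
  have hfr : finrank κ (spanR φ) = j := by
    rw [← hspan', finrank_span_eq_card hli, Fintype.card_fin]
  have hW : finrank κ (spanR φ × (Fin (k - j) → κ)) = k := by
    rw [Module.finrank_prod, hfr, Module.finrank_fin_fun]
    omega
  let b : Basis (Fin k) κ (spanR φ × (Fin (k - j) → κ)) := Module.finBasisOfFinrankEq κ _ hW
  let RW : G → (spanR φ × (Fin (k - j) → κ)) →ₗ[κ] (spanR φ × (Fin (k - j) → κ)) := fun h =>
    (act φ h).prodMap LinearMap.id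
  have hR1 : ∀ h, (∀ f ∈ spanR φ, rt h f = f) → RW h = LinearMap.id := by
    intro h hh
    apply LinearMap.ext
    rintro ⟨f, w⟩
    have h1 : act φ h f = f := Subtype.ext (by rw [act_coe]; exact hh f f.2)
    change (act φ h f, w) = (f, w)
    rw [h1]
  have hR2 : ∀ g h, RW (g * h) = RW g * RW h := by
    intro g h
    apply LinearMap.ext
    rintro ⟨f, w⟩
    have h1 : act φ (g * h) f = act φ g (act φ h f) :=
      Subtype.ext (by rw [act_coe, act_coe, act_coe, rt_mul])
    change (act φ (g * h) f, w) = (act φ g (act φ h f), w)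
    rw [h1]
  let F : G →* Matrix (Fin k) (Fin k) κ :=
    { toFun := fun h => LinearMap.toMatrix b b (RW h)
      map_one' := by
        rw [hR1 1 (fun f _ => rt_one f), LinearMap.toMatrix_id]
      map_mul' := by
        intro g h
        rw [hR2, LinearMap.toMatrix_mul] }
  refine ⟨MonoidHom.toHomUnits F, ?_, ?_, b.repr (⟨φ, self_mem φ⟩, 0),
    fun i => ((b i).1 : G → κ) 1, ?_⟩
  · -- the kernel is open
    obtain ⟨y, hy⟩ := exists_det_ne_zero _ hli
    let U : Set G := ⋂ i : Fin j, ⋂ l : Fin j, {h | φ (y l * h * a i) = φ (y l * a i)}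
    have hU : IsOpen U := by
      apply isOpen_iInter_of_finite
      intro i
      apply isOpen_iInter_of_finite
      intro l
      have h1 : Continuous fun h : G => y l * h * a i := by fun_prop
      exact (hopen (y l * a i)).preimage h1
    have h1U : (1 : G) ∈ U := by
      simp only [U, Set.mem_iInter]
      intro i l
      change φ (y l * 1 * a i) = φ (y l * a i)
      rw [mul_one]
    have hsep : ∀ d ∈ spanR φ, (∀ l, d (y l) = 0) → d = 0 := by
      intro d hd hd0
      rw [← hspan', Submodule.mem_span_range_iff_exists_fun] at hd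
      obtain ⟨c, hc⟩ := hd
      have h2 : Matrix.vecMul c (Matrix.of fun i l => φ (y l * a i) :
          Matrix (Fin j) (Fin j) κ) = 0 := by
        funext l
        have h3 := hd0 l
        rw [← hc, Finset.sum_apply] at h3
        rw [Matrix.vecMul, dotProduct, Pi.zero_apply, ← h3]
        apply sum_congr rfl
        intro i _
        rfl
      have h4 := Matrix.eq_zero_of_vecMul_eq_zero hy h2
      rw [← hc, h4]
      simp
    have hUker : U ⊆ ((MonoidHom.toHomUnits F).ker : Set G) := by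
      intro h hh
      simp only [U, Set.mem_iInter] at hh
      have h2 : ∀ f ∈ spanR φ, rt h f = f := by
        have h3 : spanR φ ≤ LinearMap.eqLocus (rt (κ := κ) h) LinearMap.id := by
          rw [← hspan', Submodule.span_le]
          rintro _ ⟨i, rfl⟩
          rw [SetLike.mem_coe, LinearMap.mem_eqLocus, LinearMap.id_apply, ← sub_eq_zero]
          have h5 : (fun g => φ (g * a i) : G → κ) ∈ spanR φ :=
            Submodule.subset_span ⟨a i, rfl⟩
          apply hsep
          · exact (spanR φ).sub_mem (rt_mem φ h _ h5) h5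
          · intro l
            have h6 : φ (y l * h * a i) = φ (y l * a i) := hh i l
            rw [Pi.sub_apply, rt_apply]
            beta_reduce
            rw [h6, sub_self]
        intro f hf
        exact h3 hf
      rw [SetLike.mem_coe, MonoidHom.mem_ker]
      apply Units.ext
      rw [MonoidHom.coe_toHomUnits, Units.val_one]
      change LinearMap.toMatrix b b (RW h) = 1
      rw [hR1 h h2, LinearMap.toMatrix_id]
    exact Subgroup.isOpen_of_mem_nhds _ (Filter.mem_of_superset (hU.mem_nhds h1U) hUker)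
  · intro g hg
    have h2 : ∀ f ∈ spanR φ, rt g f = f := by
      have h3 : spanR φ ≤ LinearMap.eqLocus (rt (κ := κ) g) LinearMap.id := by
        conv_lhs => rw [spanR]
        rw [Submodule.span_le]
        rintro _ ⟨y, rfl⟩
        rw [SetLike.mem_coe, LinearMap.mem_eqLocus, LinearMap.id_apply]
        funext x
        rw [rt_apply]
        exact hg x y
      intro f hf
      exact h3 hf
    apply Units.ext
    rw [MonoidHom.coe_toHomUnits, Units.val_one]
    change LinearMap.toMatrix b b (RW g) = 1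
    rw [hR1 g h2, LinearMap.toMatrix_id]
  · intro g
    let lam : (spanR φ × (Fin (k - j) → κ)) →ₗ[κ] κ :=
      (LinearMap.proj (R := κ) (φ := fun _ : G => κ) 1).comp
        ((spanR φ).subtype.comp (LinearMap.fst κ _ _))
    have hlam : ∀ w, lam w = ∑ i, b.repr w i * lam (b i) := by
      intro w
      conv_lhs => rw [← b.sum_repr w]
      rw [map_sum]
      apply sum_congr rfl
      intro i _
      rw [map_smul, smul_eq_mul]
    have h1 : φ g = lam (RW g (⟨φ, self_mem φ⟩, 0)) := by
      change φ g = rt g φ 1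
      rw [rt_apply, one_mul]
    rw [h1, hlam]
    apply sum_congr rfl
    intro i _
    have h2 : b.repr (RW g (⟨φ, self_mem φ⟩, 0)) i =
        ((LinearMap.toMatrix b b (RW g)).mulVec (b.repr (⟨φ, self_mem φ⟩, 0))) i := by
      rw [LinearMap.toMatrix_mulVec_repr]
    rw [h2]
    rfl

end top

section main
variable {G : Type*} [Group G] [TopologicalSpace G] [IsTopologicalGroup G]
variable {O : Type} [CommRing O] [IsDomain O] [IsDiscreteValuationRing O] [TopologicalSpace O]
  [IsTopologicalRing O]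

/-- the linear functional given by a polynomial in `ρ h` -/
theorem trace_aeval {F : Type} [Field F] [Algebra O F] {n : ℕ}
    (ρ : G →* Matrix.GeneralLinearGroup (Fin n) F) (t : G → O)
    (ht : ∀ g, (ρ g : Matrix (Fin n) (Fin n) F).trace = algebraMap O F (t g))
    (R : Polynomial O) (x h y : G) :
    ((ρ x : Matrix (Fin n) (Fin n) F) * aeval (ρ h : Matrix (Fin n) (Fin n) F) R *
      (ρ y : Matrix (Fin n) (Fin n) F)).trace =
    algebraMap O F (∑ j ∈ range (R.natDegree + 1), R.coeff j * t (x * h ^ j * y)) := by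
  rw [Polynomial.aeval_eq_sum_range, mul_sum, sum_mul, Matrix.trace_sum, map_sum]
  apply sum_congr rfl
  intro j _
  rw [map_mul, ← ht, mul_smul_comm, smul_mul_assoc, Matrix.trace_smul, map_mul, map_mul, map_pow,
    Units.val_mul, Units.val_mul, Units.val_pow_eq_pow_val, Algebra.smul_def]

theorem phi_pow {F : Type} [Field F] [Algebra O F] (hinj : Function.Injective (algebraMap O F))
    (p a : ℕ) [Fact p.Prime] [CharP (IsLocalRing.ResidueField O) p] {n : ℕ} (ha : 2 * n ≤ p ^ a)
    (H : Subgroup G) (ρ₁ ρ₂ : G →* Matrix.GeneralLinearGroup (Fin n) F) (t₁ t₂ : G → O)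
    (h₁ : Adm O H ρ₁ t₁) (h₂ : Adm O H ρ₂ t₂) {ϖ : O} (hϖ : Irreducible ϖ)
    (m : ℕ) (E : G → O) (hE : ∀ g, t₁ g - t₂ g = ϖ ^ m * E g) {h : G} (hh : h ∈ H) (x y : G) :
    IsLocalRing.residue O (E (x * h ^ p ^ a * y)) = IsLocalRing.residue O (E (x * y)) := by
  classical
  obtain ⟨P₁, hP₁, hR₁⟩ := h₁.uni h hh
  obtain ⟨P₂, hP₂, hR₂⟩ := h₂.uni h hh
  obtain ⟨R, hR⟩ : ∃ R : Polynomial O, R = P₁ * P₂ * (Polynomial.X - 1) ^ (p ^ a - 2 * n) :=
    ⟨_, rfl⟩
  have hz₁ : aeval (ρ₁ h : Matrix (Fin n) (Fin n) F) P₁ = 0 := by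
    rw [← Polynomial.aeval_map_algebraMap F, ← hP₁, Matrix.aeval_self_charpoly]
  have hz₂ : aeval (ρ₂ h : Matrix (Fin n) (Fin n) F) P₂ = 0 := by
    rw [← Polynomial.aeval_map_algebraMap F, ← hP₂, Matrix.aeval_self_charpoly]
  have hy₁ : aeval (ρ₁ h : Matrix (Fin n) (Fin n) F) R = 0 := by
    rw [hR, map_mul, map_mul, hz₁, zero_mul, zero_mul]
  have hy₂ : aeval (ρ₂ h : Matrix (Fin n) (Fin n) F) R = 0 := by
    rw [hR, map_mul, map_mul, hz₂, mul_zero, zero_mul]
  have e₁ := trace_aeval ρ₁ t₁ h₁.tr R x h y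
  have e₂ := trace_aeval ρ₂ t₂ h₂.tr R x h y
  rw [hy₁, mul_zero, zero_mul, Matrix.trace_zero] at e₁
  rw [hy₂, mul_zero, zero_mul, Matrix.trace_zero] at e₂
  have f₁ : ∑ j ∈ range (R.natDegree + 1), R.coeff j * t₁ (x * h ^ j * y) = 0 :=
    hinj (by rw [← e₁, map_zero])
  have f₂ : ∑ j ∈ range (R.natDegree + 1), R.coeff j * t₂ (x * h ^ j * y) = 0 :=
    hinj (by rw [← e₂, map_zero])
  have f₃ : ϖ ^ m * ∑ j ∈ range (R.natDegree + 1), R.coeff j * E (x * h ^ j * y) = 0 := by
    rw [mul_sum]
    have : ∀ j ∈ range (R.natDegree + 1), ϖ ^ m * (R.coeff j * E (x * h ^ j * y)) =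
        R.coeff j * t₁ (x * h ^ j * y) - R.coeff j * t₂ (x * h ^ j * y) := by
      intro j _
      rw [← mul_sub, hE]
      ring
    rw [sum_congr rfl this, sum_sub_distrib, f₁, f₂, sub_zero]
  have f₄ : ∑ j ∈ range (R.natDegree + 1), R.coeff j * E (x * h ^ j * y) = 0 := by
    rcases mul_eq_zero.mp f₃ with h3 | h3
    · exact absurd h3 (pow_ne_zero _ hϖ.ne_zero)
    · exact h3
  have hmap : R.map (IsLocalRing.residue O) = Polynomial.X ^ p ^ a - 1 := by
    rw [hR, Polynomial.map_mul, Polynomial.map_mul, hR₁, hR₂, Polynomial.map_pow,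
      Polynomial.map_sub, Polynomial.map_X, Polynomial.map_one, ← pow_add, ← pow_add]
    have h5 : n + n + (p ^ a - 2 * n) = p ^ a := by omega
    have h6 : CharP (Polynomial (IsLocalRing.ResidueField O)) p := inferInstance
    rw [h5, sub_pow_char_pow, one_pow]
  have hco : ∀ j, IsLocalRing.residue O (R.coeff j) =
      (if j = p ^ a then 1 else 0) - (if j = 0 then 1 else 0) := by
    intro j
    have h6 := congrArg (fun P => Polynomial.coeff P j) hmap
    simp only [Polynomial.coeff_map, Polynomial.coeff_sub, Polynomial.coeff_X_pow,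
      Polynomial.coeff_one] at h6
    exact h6
  have hpa : p ^ a ≠ 0 := pow_ne_zero _ (Fact.out : p.Prime).ne_zero
  have hdeg : p ^ a < R.natDegree + 1 := by
    by_contra hcon
    push Not at hcon
    have h7 : R.coeff (p ^ a) = 0 := Polynomial.coeff_eq_zero_of_natDegree_lt (by omega)
    have h8 := hco (p ^ a)
    rw [h7, map_zero, if_pos rfl, if_neg hpa, sub_zero] at h8
    exact zero_ne_one h8
  have f₅ := congrArg (IsLocalRing.residue O) f₄
  rw [map_sum, map_zero] at f₅
  have f₆ : ∀ j ∈ range (R.natDegree + 1),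
      IsLocalRing.residue O (R.coeff j * E (x * h ^ j * y)) =
      (if j = p ^ a then IsLocalRing.residue O (E (x * h ^ j * y)) else 0) -
        (if j = 0 then IsLocalRing.residue O (E (x * h ^ j * y)) else 0) := by
    intro j _
    rw [map_mul, hco, sub_mul, ite_mul, ite_mul, one_mul, zero_mul]
  rw [sum_congr rfl f₆, sum_sub_distrib, sum_ite_eq' (range (R.natDegree + 1)) (p ^ a),
    sum_ite_eq' (range (R.natDegree + 1)) 0, if_pos (mem_range.2 hdeg),
    if_pos (mem_range.2 (Nat.succ_pos _)), pow_zero, mul_one, sub_eq_zero] at f₅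
  exact f₅

theorem exists_cf2 (hO : ∀ n : ℕ, IsOpen ((IsLocalRing.maximalIdeal O ^ n : Ideal O) : Set O))
    {ϖ : O} (hϖ : Irreducible ϖ) (n : ℕ) {F : Type} [Field F] [Algebra O F]
    (hinj : Function.Injective (algebraMap O F)) (p a : ℕ) [Fact p.Prime]
    [CharP (IsLocalRing.ResidueField O) p] (ha : 2 * n ≤ p ^ a) (H : Subgroup G)
    (ρ₁ ρ₂ : G →* Matrix.GeneralLinearGroup (Fin n) F) (t₁ t₂ : G → O)
    (h₁ : Adm O H ρ₁ t₁) (h₂ : Adm O H ρ₂ t₂)
    (m : ℕ) (E : G → O) (hE : ∀ g, t₁ g - t₂ g = ϖ ^ m * E g) (k : ℕ) (hk : k = 2 * n ^ 2) :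
    ∃ σ ∈ contHom G k (IsLocalRing.ResidueField O), (∀ h ∈ H, σ h ^ p ^ a = 1) ∧
      ∃ v l : Fin k → IsLocalRing.ResidueField O,
      ∀ g, IsLocalRing.residue O (E g) =
        ∑ i, ((σ g : Matrix (Fin k) (Fin k) _).mulVec v) i * l i := by
  subst hk
  have hrank : ∀ x : Fin (2 * n ^ 2 + 1) → G, ¬ LinearIndependent (IsLocalRing.ResidueField O)
      (fun j => fun g => IsLocalRing.residue O (E (g * x j))) := by
    intro x
    let c : F := (algebraMap O F (ϖ ^ m))⁻¹
    have hc : c * algebraMap O F (ϖ ^ m) = 1 := by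
      apply inv_mul_cancel₀
      intro h0
      exact pow_ne_zero m hϖ.ne_zero (hinj (by rw [h0, map_zero]))
    refine not_indep_red (ι := (Fin n × Fin n) ⊕ (Fin n × Fin n)) (algebraMap O F) hinj
      (IsLocalRing.residue O) (fun h g : G => E (g * h))
      (fun h k => Sum.elim
        (fun ab : Fin n × Fin n => c * (ρ₁ h : Matrix (Fin n) (Fin n) F) ab.2 ab.1)
        (fun ab : Fin n × Fin n => - (c * (ρ₂ h : Matrix (Fin n) (Fin n) F) ab.2 ab.1)) k)
      (fun k g => Sum.elim
        (fun ab : Fin n × Fin n => (ρ₁ g : Matrix (Fin n) (Fin n) F) ab.1 ab.2)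
        (fun ab : Fin n × Fin n => (ρ₂ g : Matrix (Fin n) (Fin n) F) ab.1 ab.2) k)
      ?_ ?_ x
    · intro h g
      have e1 : algebraMap O F (E (g * h)) =
          c * (algebraMap O F (t₁ (g * h)) - algebraMap O F (t₂ (g * h))) := by
        rw [← map_sub, hE, map_mul, ← mul_assoc, hc, one_mul]
      rw [e1, ← h₁.tr, ← h₂.tr, map_mul, map_mul, Units.val_mul, Units.val_mul, trace_mul_eq,
        trace_mul_eq, Fintype.sum_sum_type, mul_sub, mul_sum, mul_sum, sub_eq_add_neg,
        ← sum_neg_distrib]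
      congr 1
      · apply sum_congr rfl
        intro p _
        simp only [Sum.elim_inl]
        ring
      · apply sum_congr rfl
        intro p _
        simp only [Sum.elim_inr]
        ring
    · rw [Fintype.card_sum, Fintype.card_prod, Fintype.card_fin]
      nlinarith
  obtain ⟨σ, hσ, hσ1, hσ2⟩ :=
    exists_rep2 (fun g => IsLocalRing.residue O (E g)) (2 * n ^ 2) hrank
      (isOpen_residue hO hϖ (fun g => t₁ g - t₂ g) (h₁.cont.sub h₂.cont) m E hE)
  refine ⟨σ, hσ, ?_, hσ2⟩
  intro h hh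
  rw [← map_pow]
  apply hσ1
  intro x y
  exact phi_pow hinj p a ha H ρ₁ ρ₂ t₁ t₂ h₁ h₂ hϖ m E hE hh x y

end main

end Pool.Agent.MP_87c685_nt
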