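import Pool.Agent.Lib.MP_87c685_nt.Rep

/-!
# MP_87c685_nt: every test set has at least `2 r - 1` elements
-/

set_option linter.unusedSectionVars false

namespace Pool.Agent.MP_87c685_nt

open Finset Module Matrix

section lin
variable {V : Type*} [AddCommGroup V] [Module (ZMod 2) V] [Finite V]

theorem exists_functional (U : Finset V) (h : U.card < finrank (ZMod 2) V) :
    ∃ a : V →ₗ[ZMod 2] ZMod 2, a ≠ 0 ∧ ∀ u ∈ U, a u = 0 := by
  have h1 : Submodule.span (ZMod 2) (U : Set V) < ⊤ := by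
    rw [lt_top_iff_ne_top]
    intro htop
    have h2 : finrank (ZMod 2) (Submodule.span (ZMod 2) (U : Set V)) ≤ U.card :=
      finrank_span_finset_le_card U
    rw [htop, finrank_top] at h2
    omega
  obtain ⟨a, ha, hle⟩ := Submodule.exists_le_ker_of_lt_top _ h1
  exact ⟨a, ha, fun u hu => hle (Submodule.subset_span hu)⟩

theorem exists_common {a b : V →ₗ[ZMod 2] ZMod 2} (ha : a ≠ 0) (hb : b ≠ 0) :
    ∃ v, a v = 1 ∧ b v = 1 := by
  obtain ⟨x, hx⟩ : ∃ x, a x ≠ 0 := by
    by_contra hcon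
    push Not at hcon
    exact ha (LinearMap.ext hcon)
  obtain ⟨y, hy⟩ : ∃ y, b y ≠ 0 := by
    by_contra hcon
    push Not at hcon
    exact hb (LinearMap.ext hcon)
  have hx1 := eq_one_of_ne hx
  have hy1 := eq_one_of_ne hy
  by_cases h1 : b x = 0
  · by_cases h2 : a y = 0
    · refine ⟨x + y, ?_, ?_⟩
      · rw [map_add, hx1, h2, add_zero]
      · rw [map_add, hy1, h1, zero_add]
    · exact ⟨y, eq_one_of_ne h2, hy1⟩
  · exact ⟨x, hx1, eq_one_of_ne h1⟩

theorem exists_pair (U : Finset V) (h : U.card + 1 < 2 * finrank (ZMod 2) V) :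
    ∃ a b : V →ₗ[ZMod 2] ZMod 2, (∃ v, a v = 1 ∧ b v = 1) ∧ ∀ u ∈ U, a u = 0 ∨ b u = 0 := by
  classical
  obtain ⟨U1, hU1, h1, h2⟩ : ∃ U1 ⊆ U, U1.card < finrank (ZMod 2) V ∧
      (U \ U1).card < finrank (ZMod 2) V := by
    by_cases hc : finrank (ZMod 2) V - 1 ≤ U.card
    · obtain ⟨U1, hU1, hcard⟩ := Finset.exists_subset_card_eq hc
      refine ⟨U1, hU1, by omega, ?_⟩
      rw [card_sdiff_of_subset hU1]
      omega
    · refine ⟨U, Subset.refl U, by omega, ?_⟩
      rw [Finset.sdiff_self, card_empty]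
      omega
  obtain ⟨a, ha, ha2⟩ := exists_functional U1 h1
  obtain ⟨b, hb, hb2⟩ := exists_functional (U \ U1) h2
  refine ⟨a, b, exists_common ha hb, ?_⟩
  intro u hu
  by_cases h3 : u ∈ U1
  · exact Or.inl (ha2 u h3)
  · exact Or.inr (hb2 u (mem_sdiff.mpr ⟨hu, h3⟩))

end lin

/-- the sign of an element of `ZMod 2` -/
def sgn (R : Type*) [Ring R] (x : ZMod 2) : R := if x = 0 then 1 else -1

theorem sgn_zero (R : Type*) [Ring R] : sgn R 0 = 1 := if_pos rfl

theorem sgn_one (R : Type*) [Ring R] : sgn R 1 = -1 := if_neg (by decide)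

theorem zmod_two_cases (x : ZMod 2) : x = 0 ∨ x = 1 := by
  revert x
  decide

theorem sgn_add (R : Type*) [Ring R] (x y : ZMod 2) : sgn R (x + y) = sgn R x * sgn R y := by
  have h11 : (1 : ZMod 2) + 1 = 0 := by decide
  rcases zmod_two_cases x with rfl | rfl <;> rcases zmod_two_cases y with rfl | rfl <;>
    simp [sgn_zero, sgn_one, h11]

variable {G : Type*} [Group G] [TopologicalSpace G] [IsTopologicalGroup G]

/-- the sum of two quadratic characters -/
noncomputable def dg (a b : Q G →ₗ[ZMod 2] ZMod 2) : G →* GL (Fin 2) ℚ_[2] :=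
  MonoidHom.toHomUnits
    { toFun := fun g => Matrix.diagonal ![sgn ℚ_[2] (a (pr g)), sgn ℚ_[2] (b (pr g))]
      map_one' := by
        have h : pr (1 : G) = 0 := rfl
        rw [h, map_zero, map_zero, sgn_zero]
        ext i j
        fin_cases i <;> fin_cases j <;> rfl
      map_mul' := by
        intro g h
        rw [pr_mul, map_add, map_add, sgn_add, sgn_add, Matrix.diagonal_mul_diagonal]
        congr 1
        funext i
        fin_cases i <;> rfl }

theorem dg_trace (a b : Q G →ₗ[ZMod 2] ZMod 2) (g : G) :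
    (dg a b g : Matrix (Fin 2) (Fin 2) ℚ_[2]).trace =
      sgn ℚ_[2] (a (pr g)) + sgn ℚ_[2] (b (pr g)) := by
  change (Matrix.diagonal ![sgn ℚ_[2] (a (pr g)), sgn ℚ_[2] (b (pr g))]).trace = _
  rw [Matrix.trace_diagonal, Fin.sum_univ_two]
  rfl

theorem dg_det (a b : Q G →ₗ[ZMod 2] ZMod 2) (g : G) :
    (dg a b g : Matrix (Fin 2) (Fin 2) ℚ_[2]).det =
      sgn ℚ_[2] (a (pr g)) * sgn ℚ_[2] (b (pr g)) := by
  change (Matrix.diagonal ![sgn ℚ_[2] (a (pr g)), sgn ℚ_[2] (b (pr g))]).det = _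
  rw [Matrix.det_diagonal, Fin.prod_univ_two]
  rfl

theorem continuous_pr (hopen : IsOpen (sqSubgroup G : Set G)) {X : Type*} [TopologicalSpace X]
    (f : Q G → X) : Continuous fun g : G => f (pr g) := by
  apply IsLocallyConstant.continuous
  rw [IsLocallyConstant.iff_exists_open]
  intro x
  refine ⟨(fun y => x⁻¹ * y) ⁻¹' (sqSubgroup G : Set G),
    hopen.preimage (continuous_const.mul continuous_id), ?_, ?_⟩
  · rw [Set.mem_preimage, inv_mul_cancel]
    exact (sqSubgroup G).one_mem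
  · intro y hy
    have h1 : pr x = pr y := pr_eq_iff.mpr hy
    rw [h1]

theorem sgn_coe (x : ZMod 2) : ((sgn ℤ_[2] x : ℤ_[2]) : ℚ_[2]) = sgn ℚ_[2] x := by
  rcases zmod_two_cases x with rfl | rfl
  · rw [sgn_zero, sgn_zero]; rfl
  · rw [sgn_one, sgn_one]; push_cast; rfl

theorem dg_adm (hopen : IsOpen (sqSubgroup G : Set G)) (a b : Q G →ₗ[ZMod 2] ZMod 2) :
    Adm (dg a b) := by
  refine ⟨fun g => sgn ℤ_[2] (a (pr g)) + sgn ℤ_[2] (b (pr g)),
    fun g => sgn ℤ_[2] (a (pr g)) * sgn ℤ_[2] (b (pr g)),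
    continuous_pr hopen (fun x => sgn ℤ_[2] (a x) + sgn ℤ_[2] (b x)),
    continuous_pr hopen (fun x => sgn ℤ_[2] (a x) * sgn ℤ_[2] (b x)), ?_, ?_⟩
  · intro g
    rcases zmod_two_cases (a (pr g)) with h1 | h1 <;>
      rcases zmod_two_cases (b (pr g)) with h2 | h2 <;>
      simp only [h1, h2, sgn_zero, sgn_one]
    · exact ⟨1, by ring⟩
    · exact ⟨0, by ring⟩
    · exact ⟨0, by ring⟩
    · exact ⟨-1, by ring⟩
  · intro g
    rw [dg_trace, dg_det]
    constructor
    · push_cast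
      rw [sgn_coe, sgn_coe]
      rfl
    · push_cast
      rw [sgn_coe, sgn_coe]
      rfl

theorem lower (r : ℕ) (hr : (sqSubgroup G).index = 2 ^ r) (T : Finset G)
    (hT : IsTest (T : Set G)) : 2 * r ≤ T.card + 1 := by
  classical
  by_contra hlt
  push Not at hlt
  have hidx : (sqSubgroup G).index ≠ 0 := by
    rw [hr]
    positivity
  have hfin : Finite (Q G) := by
    have h0 : Nat.card (G ⧸ sqSubgroup G) ≠ 0 := hidx
    exact Nat.finite_of_card_ne_zero h0
  have hrank : finrank (ZMod 2) (Q G) = r := by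
    have h1 : Nat.card (Q G) = 2 ^ r := hr
    rw [Module.natCard_eq_pow_finrank (K := ZMod 2), Nat.card_zmod] at h1
    exact Nat.pow_right_injective (le_refl 2) h1
  have hopen : IsOpen (sqSubgroup G : Set G) := by
    have hfi : (sqSubgroup G).FiniteIndex := ⟨hidx⟩
    apply Subgroup.isOpen_of_isClosed_of_finiteIndex
    exact Subgroup.isClosed_topologicalClosure _
  obtain ⟨a, b, ⟨v, hav, hbv⟩, hab⟩ := exists_pair (V := Q G) (T.image pr) (by
    have := card_image_le (s := T) (f := (pr : G → Q G))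
    omega)
  obtain ⟨g, rfl⟩ := pr_surj v
  have h1 := hT ℚ_[2] (dg a b) (dg 0 (a + b)) (dg_adm hopen a b) (dg_adm hopen 0 (a + b))
  have h2 := h1 (by
    intro t ht
    rw [charpoly_eq_iff, dg_trace, dg_trace, dg_det, dg_det, LinearMap.add_apply,
      LinearMap.zero_apply, sgn_zero, sgn_add, one_mul]
    rcases hab (pr t) (mem_image_of_mem pr ht) with h | h
    · rw [h, sgn_zero, one_mul]
      exact ⟨rfl, rfl⟩
    · rw [h, sgn_zero, mul_one]
      exact ⟨add_comm _ _, rfl⟩) g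
  rw [charpoly_eq_iff, dg_trace, dg_trace, LinearMap.add_apply,
    LinearMap.zero_apply, sgn_zero, sgn_add, hav, hbv, sgn_one] at h2
  have h3 : (4 : ℚ_[2]) = 0 := by linear_combination (-1 : ℚ_[2]) * h2.1
  norm_num at h3

end Pool.Agent.MP_87c685_nt
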