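import Pool.Agent.Lib.MP_87c685_nt.Deriv

/-!
# MP_87c685_nt: functions whose translates span a space of dimension at most 8

`φ : V → ZMod 2`, `Tr φ` the span of the translates, `finrank (Tr φ) ≤ 8`.
-/

set_option linter.unusedSectionVars false

namespace Pool.Agent.MP_87c685_nt

open Finset Module

variable {V : Type*} [AddCommGroup V] [Module (ZMod 2) V]

/-- `M` is stable under the derivatives -/
def Stab (M : Submodule (ZMod 2) (V → ZMod 2)) : Prop := ∀ a, ∀ f ∈ M, dx a f ∈ M

/-- the span of the translates of `φ` -/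
def Tr (φ : V → ZMod 2) : Submodule (ZMod 2) (V → ZMod 2) :=
  Submodule.span (ZMod 2) (Set.range fun a => tr a φ)

/-- the span of the first derivatives of `φ` -/
def J1 (φ : V → ZMod 2) : Submodule (ZMod 2) (V → ZMod 2) :=
  Submodule.span (ZMod 2) (Set.range fun a => dx a φ)

/-- the span of the second derivatives of `φ` -/
def J2 (φ : V → ZMod 2) : Submodule (ZMod 2) (V → ZMod 2) :=
  Submodule.span (ZMod 2) (Set.range fun p : V × V => dx p.1 (dx p.2 φ))

theorem tr_mem_Tr (φ : V → ZMod 2) (a : V) : tr a φ ∈ Tr φ :=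
  Submodule.subset_span ⟨a, rfl⟩

theorem self_mem_Tr (φ : V → ZMod 2) : φ ∈ Tr φ := by
  have h := tr_mem_Tr φ 0
  have h2 : tr (0 : V) φ = φ := by
    funext v
    rw [tr_apply, add_zero]
  rwa [h2] at h

theorem dx_mem_Tr (φ : V → ZMod 2) (a : V) : dx a φ ∈ Tr φ := by
  rw [dx_eq]
  exact (Tr φ).add_mem (tr_mem_Tr φ a) (self_mem_Tr φ)

theorem dx_mem_J1 (φ : V → ZMod 2) (a : V) : dx a φ ∈ J1 φ :=
  Submodule.subset_span ⟨a, rfl⟩

theorem dx_mem_J2 (φ : V → ZMod 2) (a b : V) : dx a (dx b φ) ∈ J2 φ :=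
  Submodule.subset_span ⟨(a, b), rfl⟩

theorem dx_dx_eq (a b : V) (f : V → ZMod 2) :
    dx a (dx b f) = dx (a + b) f + dx a f + dx b f := by
  rw [dx_add]
  funext v
  simp only [Pi.add_apply]
  have h1 := add_self_zmod (dx a f v)
  have h2 := add_self_zmod (dx b f v)
  linear_combination -h1 - h2

theorem Stab_Tr (φ : V → ZMod 2) : Stab (Tr φ) := by
  intro a f hf
  have h : Tr φ ≤ (Tr φ).comap (dx a) := by
    rw [Tr, Submodule.span_le]
    rintro _ ⟨b, rfl⟩
    simp only [SetLike.mem_coe, Submodule.mem_comap]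
    rw [dx_eq, tr_tr]
    exact (Tr φ).add_mem (tr_mem_Tr φ _) (tr_mem_Tr φ _)
  exact h hf

theorem Stab_J1 (φ : V → ZMod 2) : Stab (J1 φ) := by
  intro a f hf
  have h : J1 φ ≤ (J1 φ).comap (dx a) := by
    rw [J1, Submodule.span_le]
    rintro _ ⟨b, rfl⟩
    simp only [SetLike.mem_coe, Submodule.mem_comap]
    rw [dx_dx_eq]
    exact (J1 φ).add_mem ((J1 φ).add_mem (dx_mem_J1 φ _) (dx_mem_J1 φ _)) (dx_mem_J1 φ _)
  exact h hf

theorem J1_le_Tr (φ : V → ZMod 2) : J1 φ ≤ Tr φ := by
  rw [J1, Submodule.span_le]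
  rintro _ ⟨b, rfl⟩
  exact dx_mem_Tr φ b

theorem J2_le_J1 (φ : V → ZMod 2) : J2 φ ≤ J1 φ := by
  rw [J2, Submodule.span_le]
  rintro _ ⟨p, rfl⟩
  exact Stab_J1 φ _ _ (dx_mem_J1 φ _)

theorem Deg.add' {c : ℕ} : ∀ {f g : V → ZMod 2}, Deg c f → Deg c g → Deg c (f + g) := by
  induction c with
  | zero =>
    intro f g hf hg
    change f = 0 at hf
    change g = 0 at hg
    change f + g = 0
    rw [hf, hg, add_zero]
  | succ c ih =>
    intro f g hf hg a
    rw [map_add]
    exact ih (hf a) (hg a)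

theorem Deg.smul' {c : ℕ} (k : ZMod 2) : ∀ {f : V → ZMod 2}, Deg c f → Deg c (k • f) := by
  induction c with
  | zero =>
    intro f hf
    change f = 0 at hf
    change k • f = 0
    rw [hf, smul_zero]
  | succ c ih =>
    intro f hf a
    rw [map_smul]
    exact ih (hf a)

/-- the submodule of functions whose `c`-fold derivatives vanish -/
def DegS (V : Type*) [AddCommGroup V] [Module (ZMod 2) V] (c : ℕ) :
    Submodule (ZMod 2) (V → ZMod 2) where
  carrier := {f | Deg c f}
  add_mem' hf hg := Deg.add' hf hg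
  zero_mem' := Deg.zero' c
  smul_mem' k _ hf := Deg.smul' k hf

theorem mem_DegS {c : ℕ} {f : V → ZMod 2} : f ∈ DegS V c ↔ Deg c f := Iff.rfl

/-- a stable space containing a nonzero function of finite degree contains the constants -/
theorem one_mem_of_stab {M : Submodule (ZMod 2) (V → ZMod 2)} (hM : Stab M) (c : ℕ) :
    ∀ f ∈ M, f ≠ 0 → Deg c f → (1 : V → ZMod 2) ∈ M := by
  induction c with
  | zero =>
    intro f _ hf hd
    exact absurd hd hf
  | succ c ih =>
    intro f hfM hf hd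
    by_cases h : ∀ a, dx a f = 0
    · rw [← one_of_dx h hf]
      exact hfM
    · push Not at h
      obtain ⟨a, ha⟩ := h
      exact ih (dx a f) (hM a f hfM) ha (hd a)

theorem not_mem_J1 {c : ℕ} {φ : V → ZMod 2} (hd : Deg c φ) (hφ : φ ≠ 0) : φ ∉ J1 φ := by
  induction c with
  | zero => exact absurd hd hφ
  | succ c ih =>
    by_cases hc : Deg c φ
    · exact ih hc
    · intro hmem
      apply hc
      have h : J1 φ ≤ DegS V c := by
        rw [J1, Submodule.span_le]
        rintro _ ⟨a, rfl⟩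
        exact hd a
      exact h hmem

/-- the stabiliser of `φ` -/
def St (φ : V → ZMod 2) : Submodule (ZMod 2) V where
  carrier := {a | dx a φ = 0}
  add_mem' := by
    intro a b ha hb
    change dx (a + b) φ = 0
    change dx a φ = 0 at ha
    change dx b φ = 0 at hb
    rw [dx_add, ha, hb, map_zero, add_zero, add_zero]
  zero_mem' := by
    change dx 0 φ = 0
    funext v
    rw [dx_apply, add_zero, add_self_zmod]
    rfl
  smul_mem' := by
    intro k a ha
    change dx a φ = 0 at ha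
    change dx (k • a) φ = 0
    have hk : k = 0 ∨ k = 1 := by
      revert k
      decide
    rcases hk with rfl | rfl
    · rw [zero_smul]
      funext v
      rw [dx_apply, add_zero, add_self_zmod]
      rfl
    · rw [one_smul, ha]

theorem mem_St {φ : V → ZMod 2} {a : V} : a ∈ St φ ↔ dx a φ = 0 := Iff.rfl

theorem sub_mem_St_of_eq {φ : V → ZMod 2} {a b : V} (h : dx a φ = dx b φ) : a - b ∈ St φ := by
  have hb : a - b = a + b := by
    rw [sub_eq_iff_eq_add, add_assoc, add_self_mod, add_zero]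
  have h2 : dx a (dx b φ) = 0 := by
    rw [← h]
    exact dx_self a φ
  rw [hb, mem_St, dx_add, h2, h, add_zero]
  funext v
  exact add_self_zmod _

section fin
variable [Finite V]

theorem two_finrank_map (M : Submodule (ZMod 2) (V → ZMod 2)) (hM : Stab M) (a : V) :
    2 * finrank (ZMod 2) (M.map (dx a)) ≤ finrank (ZMod 2) M := by
  have h1 := LinearMap.finrank_range_add_finrank_ker ((dx a).domRestrict M)
  have h2 : LinearMap.range ((dx a).domRestrict M) = M.map (dx a) := by
    rw [LinearMap.range_domRestrict]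
  have h3 : M.map (dx a) ≤ (LinearMap.ker ((dx a).domRestrict M)).map M.subtype := by
    rintro _ ⟨f, hf, rfl⟩
    refine ⟨⟨dx a f, hM a f hf⟩, ?_, rfl⟩
    rw [SetLike.mem_coe, LinearMap.mem_ker, LinearMap.domRestrict_apply]
    exact dx_self a f
  have h4 : finrank (ZMod 2) (M.map (dx a)) ≤
      finrank (ZMod 2) ((LinearMap.ker ((dx a).domRestrict M)).map M.subtype) :=
    Submodule.finrank_mono h3
  have h5 : finrank (ZMod 2) ((LinearMap.ker ((dx a).domRestrict M)).map M.subtype) ≤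
      finrank (ZMod 2) (LinearMap.ker ((dx a).domRestrict M)) :=
    Submodule.finrank_map_le _ _
  rw [h2] at h1
  omega

theorem Stab_map (M : Submodule (ZMod 2) (V → ZMod 2)) (hM : Stab M) (a : V) :
    Stab (M.map (dx a)) := by
  rintro b _ ⟨f, hf, rfl⟩
  exact ⟨dx b f, hM b f hf, dx_comm a b f⟩

theorem deg_of_finrank (c : ℕ) : ∀ M : Submodule (ZMod 2) (V → ZMod 2), Stab M →
    finrank (ZMod 2) M < 2 ^ c → ∀ f ∈ M, Deg c f := by
  induction c with
  | zero =>
    intro M _ h f hf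
    have h0 : finrank (ZMod 2) M = 0 := by simpa using h
    have hbot : M = ⊥ := Submodule.finrank_eq_zero.mp h0
    rw [hbot, Submodule.mem_bot] at hf
    exact hf
  | succ c ih =>
    intro M hM h f hf a
    refine ih (M.map (dx a)) (Stab_map M hM a) ?_ _ ⟨f, hf, rfl⟩
    have := two_finrank_map M hM a
    rw [pow_succ] at h
    omega

theorem deg_four {φ : V → ZMod 2} (h : finrank (ZMod 2) (Tr φ) ≤ 8) : Deg 4 φ :=
  deg_of_finrank 4 (Tr φ) (Stab_Tr φ) (by omega) φ (self_mem_Tr φ)

theorem finrank_J1 {φ : V → ZMod 2} (h : finrank (ZMod 2) (Tr φ) ≤ 8) (hφ : φ ≠ 0) :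
    finrank (ZMod 2) (J1 φ) ≤ 7 := by
  have h1 : J1 φ < Tr φ := by
    refine lt_of_le_of_ne (J1_le_Tr φ) ?_
    intro heq
    apply not_mem_J1 (deg_four h) hφ
    rw [heq]
    exact self_mem_Tr φ
  have := Submodule.finrank_lt_finrank_of_lt h1
  omega

/-- the map `w ↦ dx w φ` from `V ⧸ St φ` to `J1 φ` -/
noncomputable def qmap (φ : V → ZMod 2) : V ⧸ St φ → J1 φ := fun x =>
  ⟨dx (Quotient.out x) φ, dx_mem_J1 φ _⟩

theorem qmap_inj (φ : V → ZMod 2) : Function.Injective (qmap φ) := by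
  intro x y h
  have h1 : dx (Quotient.out x) φ = dx (Quotient.out y) φ := congrArg Subtype.val h
  have h2 := sub_mem_St_of_eq h1
  have h3 : (Submodule.Quotient.mk (Quotient.out x) : V ⧸ St φ) =
      Submodule.Quotient.mk (Quotient.out y) := (Submodule.Quotient.eq _).mpr h2
  have h4 : ∀ z : V ⧸ St φ, (Submodule.Quotient.mk (Quotient.out z) : V ⧸ St φ) = z :=
    fun z => Quotient.out_eq z
  rw [h4, h4] at h3
  exact h3

theorem card_submod (M : Submodule (ZMod 2) (V → ZMod 2)) :
    Nat.card M = 2 ^ finrank (ZMod 2) M := by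
  rw [Module.natCard_eq_pow_finrank (K := ZMod 2)]
  simp

theorem card_quot (φ : V → ZMod 2) :
    Nat.card (V ⧸ St φ) = 2 ^ finrank (ZMod 2) (V ⧸ St φ) := by
  rw [Module.natCard_eq_pow_finrank (K := ZMod 2)]
  simp

theorem finrank_V_le {φ : V → ZMod 2} (h : finrank (ZMod 2) (Tr φ) ≤ 8) (hφ : φ ≠ 0) :
    finrank (ZMod 2) V ≤ finrank (ZMod 2) (St φ) + 7 := by
  have h1 := Nat.card_le_card_of_injective (qmap φ) (qmap_inj φ)
  rw [card_submod, card_quot] at h1
  have h2 := (Nat.pow_le_pow_iff_right (by norm_num : 1 < 2)).mp h1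
  have h3 := finrank_J1 h hφ
  have h4 := Submodule.finrank_quotient_add_finrank (St φ)
  omega

theorem exists_dx_one {φ : V → ZMod 2} (h : finrank (ZMod 2) (Tr φ) ≤ 8) (hφ : φ ≠ 0)
    (hV : finrank (ZMod 2) (St φ) + 7 ≤ finrank (ZMod 2) V) : ∃ w, dx w φ = 1 := by
  have h1 := Nat.card_le_card_of_injective (qmap φ) (qmap_inj φ)
  have h3 := finrank_J1 h hφ
  have h4 := Submodule.finrank_quotient_add_finrank (St φ)
  have h5 : Nat.card (J1 φ) ≤ Nat.card (V ⧸ St φ) := by
    rw [card_submod, card_quot]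
    exact Nat.pow_le_pow_right (by norm_num) (by omega)
  have h6 : Function.Bijective (qmap φ) := by
    rw [Nat.bijective_iff_injective_and_card]
    exact ⟨qmap_inj φ, le_antisymm h1 h5⟩
  have h7 : (1 : V → ZMod 2) ∈ J1 φ := by
    have hne : ∃ a, dx a φ ≠ 0 := by
      by_contra hcon
      push Not at hcon
      have htop : St φ = ⊤ := by
        rw [eq_top_iff]
        intro a _
        exact hcon a
      rw [htop, finrank_top] at hV
      omega
    obtain ⟨a, ha⟩ := hne
    exact one_mem_of_stab (Stab_J1 φ) 3 (dx a φ) (dx_mem_J1 φ a) ha (deg_four h a)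
  obtain ⟨x, hx⟩ := h6.2 ⟨1, h7⟩
  exact ⟨Quotient.out x, congrArg Subtype.val hx⟩

theorem finrank_J2 {φ : V → ZMod 2} (hd : Deg 4 φ) (h3 : ¬ Deg 3 φ) :
    4 ≤ finrank (ZMod 2) (J2 φ) := by
  have h3' : ∃ a b c, dx a (dx b (dx c φ)) ≠ 0 := by
    by_contra hcon
    push Not at hcon
    apply h3
    intro a b c
    exact hcon c b a
  obtain ⟨a, b, c, habc⟩ := h3'
  have hd' : ∀ w x y z, dx w (dx x (dx y (dx z φ))) = 0 := fun w x y z => hd z y x w
  let F : Fin 4 → J2 φ := ![⟨dx a (dx b φ), dx_mem_J2 φ a b⟩, ⟨dx a (dx c φ), dx_mem_J2 φ a c⟩,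
    ⟨dx b (dx c φ), dx_mem_J2 φ b c⟩, ⟨dx a (dx b (dx c φ)), by
      rw [dx_dx_eq]
      exact (J2 φ).add_mem ((J2 φ).add_mem (dx_mem_J2 φ _ _) (dx_mem_J2 φ _ _))
        (dx_mem_J2 φ _ _)⟩]
  have hF : LinearIndependent (ZMod 2) F := by
    rw [Fintype.linearIndependent_iff]
    intro k hk
    have hk' := congrArg Subtype.val hk
    simp only [Fin.sum_univ_four, F, Submodule.coe_add, Submodule.coe_smul, Matrix.cons_val_zero,
      Matrix.cons_val_one, Matrix.cons_val, Submodule.coe_zero] at hk'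
    have e0 : k 0 = 0 := by
      have h := congrArg (dx c) hk'
      simp only [map_add, map_smul, map_zero] at h
      rw [hd' c a b c, dx_comm c a (dx c φ), dx_self, map_zero, dx_comm c b (dx c φ), dx_self,
        map_zero, smul_zero, smul_zero, smul_zero, add_zero, add_zero, add_zero,
        dx_comm c a, dx_comm c b] at h
      exact (smul_eq_zero.mp h).resolve_right habc
    have e1 : k 1 = 0 := by
      have h := congrArg (dx b) hk'
      simp only [map_add, map_smul, map_zero] at h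
      rw [hd' b a b c, dx_comm b a (dx b φ), dx_self, map_zero, dx_self,
        smul_zero, smul_zero, smul_zero, add_zero, add_zero, zero_add, dx_comm b a] at h
      exact (smul_eq_zero.mp h).resolve_right habc
    have e2 : k 2 = 0 := by
      have h := congrArg (dx a) hk'
      simp only [map_add, map_smul, map_zero] at h
      rw [hd' a a b c, dx_self, dx_self,
        smul_zero, smul_zero, smul_zero, add_zero, add_zero, zero_add] at h
      exact (smul_eq_zero.mp h).resolve_right habc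
    have e3 : k 3 = 0 := by
      rw [e0, e1, e2, zero_smul, zero_smul, zero_smul, zero_add, zero_add, zero_add] at hk'
      exact (smul_eq_zero.mp hk').resolve_right habc
    intro i
    fin_cases i
    · exact e0
    · exact e1
    · exact e2
    · exact e3
  have := hF.fintype_card_le_finrank
  simpa using this

/-- the map `w ↦ dx w φ` modulo `J2 φ` -/
def lam (φ : V → ZMod 2) : V →+ (V → ZMod 2) ⧸ J2 φ where
  toFun w := (J2 φ).mkQ (dx w φ)
  map_zero' := by
    have h : dx (0 : V) φ = 0 := by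
      funext v
      rw [dx_apply, add_zero, add_self_zmod]
      rfl
    rw [h, map_zero]
  map_add' a b := by
    rw [dx_add, map_add, map_add]
    have : (J2 φ).mkQ (dx a (dx b φ)) = 0 := by
      rw [Submodule.mkQ_apply, Submodule.Quotient.mk_eq_zero]
      exact dx_mem_J2 φ a b
    rw [this, add_zero]

theorem exists_good {φ : V → ZMod 2} (h : finrank (ZMod 2) (Tr φ) ≤ 8) (h3 : ¬ Deg 3 φ)
    (hV : finrank (ZMod 2) (St φ) + 4 ≤ finrank (ZMod 2) V) :
    ∃ w, dx w φ ≠ 0 ∧ dx w φ ∈ J2 φ := by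
  have hφ : φ ≠ 0 := by
    rintro rfl
    exact h3 (Deg.zero' 3)
  have hd := deg_four h
  have hJ1 := finrank_J1 h hφ
  have hJ2 := finrank_J2 hd h3
  let L : V →ₗ[ZMod 2] (V → ZMod 2) ⧸ J2 φ := AddMonoidHom.toZModLinearMap 2 (lam φ)
  have hL : ∀ w, L w = (J2 φ).mkQ (dx w φ) := fun w => rfl
  have hr := LinearMap.finrank_range_add_finrank_ker L
  have hr2 : LinearMap.range L ≤ (J1 φ).map (J2 φ).mkQ := by
    rintro _ ⟨w, rfl⟩
    exact ⟨dx w φ, dx_mem_J1 φ w, rfl⟩
  have hr3 : finrank (ZMod 2) (LinearMap.range L) ≤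
      finrank (ZMod 2) ((J1 φ).map (J2 φ).mkQ) := Submodule.finrank_mono hr2
  have hr4 := LinearMap.finrank_range_add_finrank_ker ((J2 φ).mkQ.domRestrict (J1 φ))
  have hr5 : LinearMap.range ((J2 φ).mkQ.domRestrict (J1 φ)) = (J1 φ).map (J2 φ).mkQ := by
    rw [LinearMap.range_domRestrict]
  have hr6 : finrank (ZMod 2) (J2 φ) ≤
      finrank (ZMod 2) (LinearMap.ker ((J2 φ).mkQ.domRestrict (J1 φ))) := by
    have h1 : J2 φ ≤ (LinearMap.ker ((J2 φ).mkQ.domRestrict (J1 φ))).map (J1 φ).subtype := by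
      intro f hf
      refine ⟨⟨f, J2_le_J1 φ hf⟩, ?_, rfl⟩
      rw [SetLike.mem_coe, LinearMap.mem_ker, LinearMap.domRestrict_apply, Submodule.mkQ_apply,
        Submodule.Quotient.mk_eq_zero]
      exact hf
    exact (Submodule.finrank_mono h1).trans (Submodule.finrank_map_le _ _)
  rw [hr5] at hr4
  have hlt : finrank (ZMod 2) (St φ) < finrank (ZMod 2) (LinearMap.ker L) := by omega
  by_contra hcon
  push Not at hcon
  have hle : LinearMap.ker L ≤ St φ := by
    intro w hw
    rw [LinearMap.mem_ker, hL, Submodule.mkQ_apply, Submodule.Quotient.mk_eq_zero] at hw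
    rw [mem_St]
    by_contra hne
    exact hcon w hne hw
  have := Submodule.finrank_mono hle
  omega

end fin

section dens
variable [Fintype V] [DecidableEq V]

theorem dens_eight {φ : V → ZMod 2} (h : finrank (ZMod 2) (Tr φ) ≤ 8) (hφ : φ ≠ 0) :
    Fintype.card V ≤ 8 * ns φ := by
  have := card_le_of_deg 3 φ hφ (deg_four h)
  simpa using this

theorem dens_four {φ : V → ZMod 2} (h : finrank (ZMod 2) (Tr φ) ≤ 8) (hφ : φ ≠ 0)
    (hV : finrank (ZMod 2) (St φ) + 4 ≤ finrank (ZMod 2) V) :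
    Fintype.card V ≤ 4 * ns φ := by
  by_cases h3 : Deg 3 φ
  · have := card_le_of_deg 2 φ hφ h3
    simpa using this
  · obtain ⟨w, hw, hw2⟩ := exists_good h h3 hV
    have h1 : J2 φ ≤ DegS V 2 := by
      rw [J2, Submodule.span_le]
      rintro _ ⟨p, rfl⟩
      intro a b
      exact deg_four h p.2 p.1 a b
    have h2 := card_le_of_deg 1 (dx w φ) hw (h1 hw2)
    have h4 := ns_dx_le w φ
    omega

theorem dens_two {φ : V → ZMod 2} (h : finrank (ZMod 2) (Tr φ) ≤ 8) (hφ : φ ≠ 0)
    (hV : finrank (ZMod 2) (St φ) + 7 ≤ finrank (ZMod 2) V) :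
    Fintype.card V ≤ 2 * ns φ := by
  obtain ⟨w, hw⟩ := exists_dx_one h hφ hV
  have h1 := ns_dx_le w φ
  have h2 : ns (dx w φ) = Fintype.card V := by
    rw [hw]
    unfold ns
    simp
  omega

end dens

end Pool.Agent.MP_87c685_nt
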