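import Pool.Agent.Lib.MP_87c685_nt.Grp

/-!
# MP_87c685_nt: pairs of 2-dimensional representations with 2-adic characteristic polynomials
-/

set_option linter.unusedSectionVars false

namespace Pool.Agent.MP_87c685_nt

open Finset Module Matrix

variable {G : Type*} [Group G] [TopologicalSpace G] [IsTopologicalGroup G]

theorem charpoly_eq_iff {F : Type*} [Field F] (A B : Matrix (Fin 2) (Fin 2) F) :
    A.charpoly = B.charpoly ↔ A.trace = B.trace ∧ A.det = B.det := by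
  constructor
  · intro h
    constructor
    · rw [Matrix.trace_eq_neg_charpoly_coeff, Matrix.trace_eq_neg_charpoly_coeff, h]
    · rw [Matrix.det_eq_sign_charpoly_coeff, Matrix.det_eq_sign_charpoly_coeff, h]
  · rintro ⟨h1, h2⟩
    rw [Matrix.charpoly_fin_two, Matrix.charpoly_fin_two, h1, h2]

theorem trace_identity {F : Type*} [Field F] (A B B' : Matrix (Fin 2) (Fin 2) F) (h : B * B' = 1) :
    (A * B).trace + B.det * (A * B').trace = A.trace * B.trace := by
  have h1 : B.adjugate = B.det • B' := by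
    have h2 : B.adjugate * (B * B') = B.adjugate := by rw [h, mul_one]
    rw [← h2, ← mul_assoc, Matrix.adjugate_mul, Matrix.smul_mul, Matrix.one_mul]
  have h3 : B.det * (A * B').trace = (A * B.adjugate).trace := by
    rw [h1, Matrix.mul_smul, Matrix.trace_smul, smul_eq_mul]
  rw [h3, Matrix.adjugate_fin_two]
  simp only [Matrix.trace_fin_two, Matrix.mul_apply, Fin.sum_univ_two, Matrix.of_apply,
    Matrix.cons_val_zero, Matrix.cons_val_one, Matrix.cons_val', Matrix.cons_val_fin_one,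
    Matrix.empty_val']
  ring

/-- the embedding of `ℤ_[2]` -/
noncomputable def emb (F : Type*) [Field F] [Algebra ℚ_[2] F] : ℤ_[2] →+* F :=
  (algebraMap ℚ_[2] F).comp PadicInt.Coe.ringHom

theorem emb_apply {F : Type*} [Field F] [Algebra ℚ_[2] F] (x : ℤ_[2]) :
    emb F x = algebraMap ℚ_[2] F (x : ℚ_[2]) := rfl

theorem emb_inj (F : Type*) [Field F] [Algebra ℚ_[2] F] : Function.Injective (emb F) := by
  intro x y h
  rw [emb_apply, emb_apply] at h
  have := (algebraMap ℚ_[2] F).injective h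
  exact Subtype.coe_injective this

/-- the data of an admissible representation -/
structure Dat {F : Type*} [Field F] [Algebra ℚ_[2] F] (ρ : G →* GL (Fin 2) F)
    (t d : G → ℤ_[2]) : Prop where
  ct : Continuous t
  cd : Continuous d
  ev : ∀ g, (2 : ℤ_[2]) ∣ t g
  tr : ∀ g, (ρ g : Matrix (Fin 2) (Fin 2) F).trace = emb F (t g)
  det : ∀ g, (ρ g : Matrix (Fin 2) (Fin 2) F).det = emb F (d g)

section
variable {F : Type*} [Field F] [Algebra ℚ_[2] F] {ρ : G →* GL (Fin 2) F} {t d : G → ℤ_[2]}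

theorem Dat.d_mul (h : Dat ρ t d) (x y : G) : d (x * y) = d x * d y := by
  apply emb_inj F
  rw [map_mul, ← h.det, ← h.det, ← h.det, map_mul, Units.val_mul, Matrix.det_mul]

theorem Dat.d_one (h : Dat ρ t d) : d 1 = 1 := by
  apply emb_inj F
  rw [← h.det, map_one, map_one, Units.val_one, Matrix.det_one]

theorem Dat.d_odd (h : Dat ρ t d) (x : G) : PadicInt.toZMod (d x) = 1 := by
  have h1 : d x * d x⁻¹ = 1 := by rw [← h.d_mul, mul_inv_cancel, h.d_one]
  have h2 : (PadicInt.toZMod (d x)) * PadicInt.toZMod (d x⁻¹) = 1 := by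
    rw [← map_mul, h1, map_one]
  generalize (PadicInt.toZMod (d x)) = a at h2 ⊢
  generalize (PadicInt.toZMod (d x⁻¹)) = b at h2
  revert a b
  decide

theorem Dat.t_even (h : Dat ρ t d) (x : G) : PadicInt.toZMod (t x) = 0 := by
  rw [toZMod_eq_zero_iff]
  exact_mod_cast h.ev x

theorem Dat.t_id (h : Dat ρ t d) (x y : G) :
    t (x * y) + d y * t (x * y⁻¹) = t x * t y := by
  apply emb_inj F
  rw [map_add, map_mul, map_mul, ← h.tr, ← h.tr, ← h.tr, ← h.tr, ← h.det, map_mul, map_mul,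
    Units.val_mul, Units.val_mul]
  apply trace_identity
  rw [← Units.val_mul, ← map_mul, mul_inv_cancel, map_one, Units.val_one]

end

/-- determinants agree everywhere -/
theorem det_agree {F : Type*} [Field F] [Algebra ℚ_[2] F] {ρ₁ ρ₂ : G →* GL (Fin 2) F}
    {t₁ d₁ t₂ d₂ : G → ℤ_[2]} (h₁ : Dat ρ₁ t₁ d₁) (h₂ : Dat ρ₂ t₂ d₂)
    (S : Finset (Q G)) (hS : ∀ φ : Q G → ZMod 2, φ ≠ 0 →
      finrank (ZMod 2) (Tr φ) ≤ 8 → ∃ s ∈ S, φ s ≠ 0)
    (T : Set G) (hT : ∀ s ∈ S, ∃ t ∈ T, pr t = s) (hTd : ∀ g ∈ T, d₁ g = d₂ g) (g : G) :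
    d₁ g = d₂ g := by
  rw [← sub_eq_zero]
  apply vanish S hS T hT (fun g => d₁ g - d₂ g) (h₁.cd.sub h₂.cd)
    (fun g hg => sub_eq_zero.mpr (hTd g hg))
  intro m E hE
  have h2 : (2 : ℤ_[2]) ^ m ≠ 0 := pow_ne_zero _ (by norm_num)
  have hadd : ∀ x y, PadicInt.toZMod (E (x * y)) =
      PadicInt.toZMod (E x) + PadicInt.toZMod (E y) := by
    intro x y
    have e1 : E (x * y) = E x * d₁ y + d₂ x * E y := by
      apply mul_left_cancel₀ h2
      have e2 := hE (x * y)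
      have e3 := hE x
      have e4 := hE y
      simp only [h₁.d_mul, h₂.d_mul] at e2
      linear_combination -e2 + d₁ y * e3 + d₂ x * e4
    rw [e1, map_add, map_mul, map_mul, h₁.d_odd, h₂.d_odd, mul_one, one_mul]
  constructor
  · intro x y
    rw [hadd, pow_two, hadd, add_self_zmod, add_zero]
  · intro φ hφ
    apply finrank_Tr_add
    intro x y
    obtain ⟨a, rfl⟩ := pr_surj x
    obtain ⟨b, rfl⟩ := pr_surj y
    rw [← pr_mul, hφ, hφ, hφ, hadd]

/-- traces agree everywhere -/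
theorem tr_agree {F : Type*} [Field F] [Algebra ℚ_[2] F] {ρ₁ ρ₂ : G →* GL (Fin 2) F}
    {t₁ d₁ t₂ d₂ : G → ℤ_[2]} (h₁ : Dat ρ₁ t₁ d₁) (h₂ : Dat ρ₂ t₂ d₂)
    (S : Finset (Q G)) (hS : ∀ φ : Q G → ZMod 2, φ ≠ 0 →
      finrank (ZMod 2) (Tr φ) ≤ 8 → ∃ s ∈ S, φ s ≠ 0)
    (T : Set G) (hT : ∀ s ∈ S, ∃ t ∈ T, pr t = s) (hd : ∀ g, d₁ g = d₂ g)
    (hTt : ∀ g ∈ T, t₁ g = t₂ g) (g : G) :
    t₁ g = t₂ g := by
  rw [← sub_eq_zero]
  apply vanish S hS T hT (fun g => t₁ g - t₂ g) (h₁.ct.sub h₂.ct)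
    (fun g hg => sub_eq_zero.mpr (hTt g hg))
  intro m E hE
  have h2 : (2 : ℤ_[2]) ^ m ≠ 0 := pow_ne_zero _ (by norm_num)
  have hadd : ∀ x y, PadicInt.toZMod (E (x * y)) + PadicInt.toZMod (E (x * y⁻¹)) = 0 := by
    intro x y
    have e1 : E (x * y) + d₁ y * E (x * y⁻¹) = E x * t₁ y + t₂ x * E y := by
      apply mul_left_cancel₀ h2
      have e2 := hE (x * y)
      have e3 := hE x
      have e4 := hE y
      have e5 := hE (x * y⁻¹)
      have i1 := h₁.t_id x y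
      have i2 := h₂.t_id x y
      rw [← hd y] at i2
      linear_combination -e2 + t₁ y * e3 + t₂ x * e4 - d₁ y * e5 + i1 - i2
    have e6 := congrArg (PadicInt.toZMod (p := 2)) e1
    rw [map_add, map_mul, map_add, map_mul, map_mul, h₁.d_odd, h₁.t_even, h₂.t_even, mul_zero,
      zero_mul, add_zero, one_mul] at e6
    exact e6
  constructor
  · intro x y
    have e1 := hadd (x * y) y
    rw [mul_assoc, mul_inv_cancel_right, ← pow_two] at e1
    have e2 := add_self_zmod (PadicInt.toZMod (E x))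
    linear_combination e1 - e2
  · intro φ hφ
    let c : F := (emb F ((2 : ℤ_[2]) ^ m))⁻¹
    have hc : c * emb F ((2 : ℤ_[2]) ^ m) = 1 := by
      apply inv_mul_cancel₀
      intro h0
      exact h2 (emb_inj F (by rw [h0, map_zero]))
    refine finrank_Tr_le (ι := (Fin 2 × Fin 2) ⊕ (Fin 2 × Fin 2)) (emb F) (emb_inj F) E
      (fun h k => Sum.elim
        (fun ab : Fin 2 × Fin 2 => c * (ρ₁ h : Matrix (Fin 2) (Fin 2) F) ab.2 ab.1)
        (fun ab : Fin 2 × Fin 2 => - (c * (ρ₂ h : Matrix (Fin 2) (Fin 2) F) ab.2 ab.1)) k)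
      (fun k g => Sum.elim
        (fun ab : Fin 2 × Fin 2 => (ρ₁ g : Matrix (Fin 2) (Fin 2) F) ab.1 ab.2)
        (fun ab : Fin 2 × Fin 2 => (ρ₂ g : Matrix (Fin 2) (Fin 2) F) ab.1 ab.2) k)
      ?_ (by decide) φ hφ
    intro x y
    have e1 : emb F (E (x * y)) = c * (emb F (t₁ (x * y)) - emb F (t₂ (x * y))) := by
      have e2 := congrArg (emb F) (hE (x * y))
      rw [map_sub, map_mul] at e2
      rw [e2, ← mul_assoc, hc, one_mul]
    rw [e1, ← h₁.tr, ← h₂.tr, map_mul, map_mul, Units.val_mul, Units.val_mul,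
      Fintype.sum_sum_type, Fintype.sum_prod_type, Fintype.sum_prod_type]
    simp only [Matrix.trace_fin_two, Matrix.mul_apply, Fin.sum_univ_two, Sum.elim_inl,
      Sum.elim_inr]
    ring

theorem upper (r : ℕ) (hr : (sqSubgroup G).index = 2 ^ r) :
    ∃ S : Finset (G ⧸ sqSubgroup G), S.card ≤ 16 * r + 160 ∧
      ∀ T : Set G, (∀ s ∈ S, ∃ t ∈ T, (QuotientGroup.mk t : G ⧸ sqSubgroup G) = s) →
        IsTest T := by
  have hfin : Finite (Q G) := by
    have h0 : Nat.card (G ⧸ sqSubgroup G) ≠ 0 := by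
      change (sqSubgroup G).index ≠ 0
      rw [hr]
      positivity
    exact Nat.finite_of_card_ne_zero h0
  have hrank : finrank (ZMod 2) (Q G) = r := by
    have h1 : Nat.card (Q G) = 2 ^ r := hr
    rw [Module.natCard_eq_pow_finrank (K := ZMod 2), Nat.card_zmod] at h1
    exact Nat.pow_right_injective (le_refl 2) h1
  obtain ⟨S, hS1, hS2⟩ := core (V := Q G)
  rw [hrank] at hS1
  refine ⟨S, hS1, ?_⟩
  intro T hT F _ _ ρ₁ ρ₂ hρ₁ hρ₂ hagree g
  have hT' : ∀ s ∈ S, ∃ t ∈ T, pr t = s := hT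
  obtain ⟨t₁, d₁, a1, a2, a3, a4⟩ := hρ₁
  obtain ⟨t₂, d₂, b1, b2, b3, b4⟩ := hρ₂
  have D1 : Dat ρ₁ t₁ d₁ := ⟨a1, a2, a3, fun g => (a4 g).1, fun g => (a4 g).2⟩
  have D2 : Dat ρ₂ t₂ d₂ := ⟨b1, b2, b3, fun g => (b4 g).1, fun g => (b4 g).2⟩
  have hTd : ∀ g ∈ T, d₁ g = d₂ g := by
    intro g hg
    have h1 := ((charpoly_eq_iff _ _).mp (hagree g hg)).2
    rw [D1.det, D2.det] at h1
    exact emb_inj F h1
  have hTt : ∀ g ∈ T, t₁ g = t₂ g := by
    intro g hg
    have h1 := ((charpoly_eq_iff _ _).mp (hagree g hg)).1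
    rw [D1.tr, D2.tr] at h1
    exact emb_inj F h1
  have hd := det_agree D1 D2 S hS2 T hT' hTd
  have ht := tr_agree D1 D2 S hS2 T hT' hd hTt
  rw [charpoly_eq_iff, D1.tr, D2.tr, D1.det, D2.det, hd, ht]
  exact ⟨rfl, rfl⟩

end Pool.Agent.MP_87c685_nt
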